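import Pool.Agent.K3h70.EP.Block

/-!
# Realisation of finite sums of modes
-/

set_option autoImplicit false

open MeasureTheory Set Filter Topology
open scoped ENNReal NNReal ContDiff

namespace Pool.Agent.K3h70.EP

open Pool.Agent.H708R2.EulerSign Pool.Agent.H708R2.EulerModes
open Pool.Agent.R739.ET

/-- the cross product -/
def cr (l m : Fin 3 → ℤ) : Fin 3 → ℤ :=
  ![l 1 * m 2 - l 2 * m 1, l 2 * m 0 - l 0 * m 2, l 0 * m 1 - l 1 * m 0]

lemma ph_cr_left (l m : Fin 3 → ℤ) : ph l (rv (cr l m)) = 0 := by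
  simp only [ph, rv, cr, Fin.sum_univ_three, Matrix.cons_val_zero, Matrix.cons_val_one,
    Matrix.cons_val]
  push_cast
  ring

lemma ph_cr_right (l m : Fin 3 → ℤ) : ph (cr l m) (rv m) = 0 := by
  simp only [ph, rv, cr, Fin.sum_univ_three, Matrix.cons_val_zero, Matrix.cons_val_one,
    Matrix.cons_val]
  push_cast
  ring

lemma one_le_norm {l : Fin 3 → ℤ} (hl : l ≠ 0) : 1 ≤ ph l (rv l) := by
  have h1 : ph l (rv l) = ((∑ i, l i * l i : ℤ) : ℝ) := by
    simp [ph, rv]
  rw [h1]
  have h2 : 0 < ∑ i, l i * l i := by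
    obtain ⟨i, hi⟩ : ∃ i, l i ≠ 0 := by
      by_contra hcon
      push Not at hcon
      exact hl (funext hcon)
    exact Finset.sum_pos' (fun i _ => mul_self_nonneg _) ⟨i, Finset.mem_univ i,
      mul_self_pos.2 hi⟩
  exact_mod_cast h2

lemma norm_cr {l m : Fin 3 → ℤ} (h : ph l (rv m) = 0) :
    ph (cr l m) (rv (cr l m)) = ph l (rv l) * ph m (rv m) := by
  simp only [ph, rv, cr, Fin.sum_univ_three, Matrix.cons_val_zero, Matrix.cons_val_one,
    Matrix.cons_val] at h ⊢
  push_cast
  linear_combination (-((l 0 : ℝ) * m 0 + l 1 * m 1 + l 2 * m 2)) * h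

/-- The fields have the same Fourier coefficients at all frequencies `k` with `|kᵢ| + K < N`. -/
def Eqv (N K : ℕ) (v W : V → V) : Prop :=
  ∀ k : Fin 3 → ℤ, (∀ i, |k i| + K < N) → ∀ (θ : ℝ) (i : Fin 3),
    ∫ x in Dom, v x i * Real.cos (ph k x + θ) = ∫ x in Dom, W x i * Real.cos (ph k x + θ)

/-- `W` is realised by solutions in thin tubes with the directions orthogonal to `a`, `b`. -/
def Realz (a b : Fin 3 → ℤ) (K : ℕ) (W : ℝ → V → V) : Prop :=
  ∀ (j : ℕ) (r : ℝ), 0 < r → ∃ C : ℝ, 0 ≤ C ∧ ∀ N : ℕ, 2 * K < N →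
    ∃ (v : ℝ → V → V) (p : V → ℝ), Eul v p ∧ QP v ∧
      (∀ x, r ≤ gfun a b j ((N : ℝ) • x) → (∀ t, v t x = 0) ∧ p x = 0) ∧
      (∀ t x, ‖v t x‖ ≤ C * N) ∧ ∀ t, Eqv N K (v t) (W t)

/-- A single travelling or standing mode. -/
theorem realz_mode {l ξ : Fin 3 → ℤ} (hl : l ≠ 0) (hξ : ξ ≠ 0) (hlξ : ph l (rv ξ) = 0) {K : ℕ}
    (hK : ∀ i, |l i| ≤ K) (μ Ω ψ φ : ℝ) :
    Realz l (cr l ξ) K (fun t x => (μ * Real.cos (Ω * t + ψ) * Real.cos (ph l x + φ)) • rv ξ) := by
  intro j r hr
  let D : TD := ⟨l, cr l ξ, ξ, ![phs (2 * j + 1), phs (2 * j + 2), 0], min 1 (2 * r), Ω, ψ,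
    φ + Real.pi / 2⟩
  have hD : D.Ok := by
    refine ⟨one_le_norm hl, ?_, ph_cr_left l ξ, ?_, hlξ, ph_cr_right l ξ, ?_, ?_⟩
    · show 1 ≤ ph (cr l ξ) (rv (cr l ξ))
      rw [norm_cr hlξ]
      have h1 := one_le_norm hl
      have h2 := one_le_norm hξ
      nlinarith
    · show ph (cr l ξ) (rv l) = 0
      rw [TD.ph_symm]
      exact ph_cr_left l ξ
    · exact lt_min one_pos (by linarith)
    · exact min_le_left _ _
  refine ⟨(1 + |μ|) * D.CC, ?_, fun N hN => ?_⟩
  · have h1 : 0 ≤ D.CC := by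
      have := TD.vel_bound hD one_pos 0 0 0
      have h2 := (norm_nonneg _).trans this
      simpa using h2
    positivity
  have hN0 : 0 < N := by omega
  refine ⟨D.vel N (μ * D.lam N), D.pre N, TD.vel_eul hD hN0 _, TD.vel_qp hD hN0 _, ?_, ?_, ?_⟩
  · intro x hx
    exact TD.vel_zero hD N _ (TD.qr_ge hD (j := j) rfl rfl (min_le_right _ _) N hx)
  · intro t x
    exact TD.vel_bound hD hN0 μ t x
  · intro t k hk θ i
    have h1 := TD.vel_modes hD hN0 hK hk μ θ t i
    rw [h1]
    have e : D.φ - Real.pi / 2 = φ := by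
      show φ + Real.pi / 2 - Real.pi / 2 = φ
      ring
    rw [e]
    rfl

lemma fderiv_zero_of_inv {F : V → ℝ} (hF : Differentiable ℝ F) {e : V}
    (h : ∀ (x : V) (s : ℝ), F (x + s • e) = F x) (x : V) : fderiv ℝ F x e = 0 :=
  fderiv_eq_zero_of_invariant hF h x

/-- A steady parallel flow is a solution. -/
lemma eul_parallel {F : V → ℝ} {e : V} (hF : ContDiff ℝ ∞ F) (hp : Periodic3 F)
    (hinv : ∀ (x : V) (s : ℝ), F (x + s • e) = F x) :
    Eul (fun _ x => F x • e) (fun _ => 0) := by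
  have hd : Differentiable ℝ F := hF.differentiable (by simp)
  have hz : ∀ x, fderiv ℝ F x e = 0 := fderiv_eq_zero_of_invariant hd hinv
  have hder : ∀ x, HasFDerivAt (fun x => F x • e) ((fderiv ℝ F x).smulRight e) x := fun x =>
    (hd x).hasFDerivAt.smul_const e
  refine ⟨?_, contDiff_const, fun t i x => ?_, fun i x => rfl, fun t x => ?_, fun t x i => ?_⟩
  · exact (hF.comp contDiff_snd).smul contDiff_const
  · show F (x + Pi.single i (2 * Real.pi)) • e = F x • e
    rw [hp i x]
  · rw [divergence_eq_sum, (hder x).fderiv]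
    simp only [ContinuousLinearMap.smulRight_apply, Pi.smul_apply, smul_eq_mul]
    have h2 : ∑ i, fderiv ℝ F x (Pi.single i 1) * e i = fderiv ℝ F x e := by
      have h3 : e = ∑ i, e i • (Pi.single i (1 : ℝ) : V) := by
        ext k
        simp [Finset.sum_apply, Pi.single_apply]
      conv_rhs => rw [h3, map_sum]
      simp [mul_comm]
    rw [h2, hz]
  · rw [(hder x).fderiv]
    simp [hz]

/-- The mean flow. -/
theorem realz_mean {ξ a b : Fin 3 → ℤ} (ha : ph a (rv ξ) = 0) (hb : ph b (rv ξ) = 0)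
    (hs : ∀ α β : ℝ, ∃ x, ph a x = α ∧ ph b x = β) (K : ℕ) (μ : ℝ) :
    Realz a b K (fun _ _ => μ • rv ξ) := by
  intro j r hr
  set G : V → ℝ := gfun a b j with hG
  set F : V → ℝ := fun x => Real.smoothTransition (1 - G x / r) with hF
  have hFs : ContDiff ℝ ∞ F := Real.smoothTransition.contDiff.comp
    (contDiff_const.sub ((gfun_contDiff a b j).div_const r))
  have hFp : Periodic3 F := by
    intro i x
    simp only [hF, hG]
    rw [gfun_periodic a b j i x]
  have hF0 : ∀ x, 0 ≤ F x := fun x => Real.smoothTransition.nonneg _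
  have hF1 : ∀ x, F x ≤ 1 := fun x => Real.smoothTransition.le_one _
  have hFz : ∀ x, r ≤ G x → F x = 0 := by
    intro x hx
    apply Real.smoothTransition.zero_of_nonpos
    rw [sub_nonpos, le_div_iff₀ hr]
    linarith
  have hI : 0 < ∫ x in Dom, F x := by
    refine lt_of_le_of_ne (integral_nonneg hF0) fun h0 => ?_
    have hz := eq_zero_of_integral_eq_zero hFp hFs.continuous hF0 h0.symm
    obtain ⟨x, hx1, hx2⟩ := hs (phs (2 * j + 1)) (phs (2 * j + 2))
    have h1 : G x = 0 := by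
      simp only [hG, gfun]
      rw [hx1, hx2]
      simp
    have h2 := hz x
    simp only [hF, h1] at h2
    simp at h2
  set vol : ℝ := (volume Dom).toReal with hvol
  have hvol0 : 0 < vol := vol_pos
  set I : ℝ := ∫ x in Dom, F x with hIdef
  refine ⟨|μ| * (vol / I) * ‖rv ξ‖, by positivity, fun N hN => ?_⟩
  have hN0 : 0 < N := by omega
  have hN1 : (1 : ℝ) ≤ N := by exact_mod_cast hN0
  set H : V → ℝ := fun x => μ * (vol / I) * F ((N : ℝ) • x) with hH
  have hHs : ContDiff ℝ ∞ H := contDiff_const.mul (hFs.comp (contDiff_const_smul (N : ℝ)))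
  have hHp : Periodic3 H := by
    intro i x
    have := resc_per hFp N i x
    simp only [hH]
    simp only at this
    rw [this]
  have hHinv : ∀ (x : V) (s : ℝ), H (x + s • rv ξ) = H x := by
    intro x s
    simp only [hH, hF, hG]
    rw [smul_add, smul_smul, gfun_translate ha hb]
  refine ⟨fun _ x => H x • rv ξ, fun _ => 0, eul_parallel hHs hHp hHinv, ?_, ?_, ?_, ?_⟩
  · refine ⟨1, fun _ => 0, fun _ x => H x • rv ξ, fun _ _ => 0, fun _ =>
      ⟨hHs.smul contDiff_const, contDiff_const⟩, fun t x => ?_⟩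
    simp
  · intro x hx
    refine ⟨fun t => ?_, rfl⟩
    simp only [hH]
    rw [hFz _ hx]
    simp
  · intro t x
    rw [norm_smul]
    have h1 : ‖H x‖ ≤ |μ| * (vol / I) := by
      simp only [hH]
      rw [Real.norm_eq_abs, abs_mul, abs_mul, abs_of_pos (by positivity : 0 < vol / I),
        abs_of_nonneg (hF0 _)]
      exact mul_le_of_le_one_right (by positivity) (hF1 _)
    calc ‖H x‖ * ‖rv ξ‖ ≤ |μ| * (vol / I) * ‖rv ξ‖ := by gcongr
      _ = |μ| * (vol / I) * ‖rv ξ‖ * 1 := by ring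
      _ ≤ |μ| * (vol / I) * ‖rv ξ‖ * N := by gcongr
  · intro t k hk θ i
    have hkN : ∀ i, |k i| < N := by
      intro i
      have := hk i
      omega
    have e1 : ∀ x, (H x • rv ξ) i * Real.cos (ph k x + θ)
        = (μ * (vol / I) * rv ξ i) * (F ((N : ℝ) • x) * Real.cos (ph k x + θ)) := by
      intro x
      simp only [hH, Pi.smul_apply, smul_eq_mul]
      ring
    have e2 : ∀ x, (μ • rv ξ) i * Real.cos (ph k x + θ)
        = (μ * rv ξ i) * ((fun _ : V => (1 : ℝ)) ((N : ℝ) • x) * Real.cos (ph k x + θ)) := by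
      intro x
      simp only [Pi.smul_apply, smul_eq_mul]
      ring
    simp only [e1]
    have h1 := fine_phase hFp hFs.continuous hN0 hkN θ
    have h2 := fine_phase (f := fun _ => 1) (fun _ _ => rfl) continuous_const hN0 hkN θ
    rw [integral_const_mul, h1]
    rw [show (fun x => (μ • rv ξ) i * Real.cos (ph k x + θ)) = fun x => (μ * rv ξ i) *
      ((fun _ : V => (1 : ℝ)) ((N : ℝ) • x) * Real.cos (ph k x + θ)) from funext e2]
    rw [integral_const_mul, h2]
    have hv : ∫ _x in Dom, (1 : ℝ) = vol := by simp [hvol, Measure.real]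
    rw [hv, ← hIdef]
    split_ifs
    · field_simp
    · ring

lemma QP.add {v w : ℝ → V → V} (hv : QP v) (hw : QP w) : QP (fun t x => v t x + w t x) := by
  obtain ⟨n, f, a, b, h1, h2⟩ := hv
  obtain ⟨m, g, c, d, h3, h4⟩ := hw
  refine ⟨n + m, Fin.append f g, Fin.append a c, Fin.append b d, ?_, ?_⟩
  · intro j
    refine Fin.addCases (fun i => ?_) (fun i => ?_) j
    · simp only [Fin.append_left]; exact h1 i
    · simp only [Fin.append_right]; exact h3 i
  · intro t x
    simp only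
    rw [Fin.sum_univ_add, h2, h4]
    simp only [Fin.append_left, Fin.append_right]

lemma QP.zero : QP (fun _ _ => 0) :=
  ⟨0, fun _ => 0, fun _ _ => 0, fun _ _ => 0, fun j => j.elim0, fun t x => by simp⟩

lemma QP.sum {ι : Type} (s : Finset ι) {v : ι → ℝ → V → V} (h : ∀ j ∈ s, QP (v j)) :
    QP (fun t x => ∑ j ∈ s, v j t x) := by
  classical
  induction s using Finset.induction_on with
  | empty => simpa using QP.zero
  | insert a s ha ih =>
    have h1 := (h a (Finset.mem_insert_self a s)).add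
      (ih fun j hj => h j (Finset.mem_insert_of_mem hj))
    have e : (fun t x => ∑ j ∈ insert a s, v j t x) = fun t x => v a t x + ∑ j ∈ s, v j t x := by
      ext1 t; ext1 x; rw [Finset.sum_insert ha]
    rw [e]; exact h1

/-- sums of realised fields -/
def RS (K : ℕ) (W : ℝ → V → V) : Prop :=
  ∃ (ι : Type) (_ : Fintype ι) (a b : ι → Fin 3 → ℤ) (w : ι → ℝ → V → V),
    (∀ j, Realz (a j) (b j) K (w j)) ∧ (∀ j t, Continuous (w j t) ∧ Periodic3 (w j t)) ∧
    ∀ t x, W t x = ∑ j, w j t x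

lemma RS.add {K : ℕ} {v w : ℝ → V → V} (hv : RS K v) (hw : RS K w) :
    RS K (fun t x => v t x + w t x) := by
  obtain ⟨ι, _, a, b, f, h1, h2, h3⟩ := hv
  obtain ⟨κ, _, c, d, g, h4, h5, h6⟩ := hw
  refine ⟨ι ⊕ κ, inferInstance, Sum.elim a c, Sum.elim b d, Sum.elim f g, ?_, ?_, ?_⟩
  · rintro (j | j)
    · exact h1 j
    · exact h4 j
  · rintro (j | j) t
    · exact h2 j t
    · exact h5 j t
  · intro t x
    simp only
    rw [Fintype.sum_sum_type, h3, h6]
    rfl

lemma RS.zero (K : ℕ) : RS K (fun _ _ => 0) :=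
  ⟨Empty, inferInstance, fun j => j.elim, fun j => j.elim, fun j => j.elim, fun j => j.elim,
    fun j => j.elim, fun t x => by simp⟩

lemma RS.sum {K : ℕ} {ι : Type} (s : Finset ι) {v : ι → ℝ → V → V} (h : ∀ j ∈ s, RS K (v j)) :
    RS K (fun t x => ∑ j ∈ s, v j t x) := by
  classical
  induction s using Finset.induction_on with
  | empty => simpa using RS.zero K
  | insert a s ha ih =>
    have h1 := (h a (Finset.mem_insert_self a s)).add
      (ih fun j hj => h j (Finset.mem_insert_of_mem hj))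
    have e : (fun t x => ∑ j ∈ insert a s, v j t x) = fun t x => v a t x + ∑ j ∈ s, v j t x := by
      ext1 t; ext1 x; rw [Finset.sum_insert ha]
    rw [e]; exact h1

lemma RS.single {K : ℕ} {a b : Fin 3 → ℤ} {w : ℝ → V → V} (h : Realz a b K w)
    (hc : ∀ t, Continuous (w t) ∧ Periodic3 (w t)) : RS K w :=
  ⟨Unit, inferInstance, fun _ => a, fun _ => b, fun _ => w, fun _ => h, fun _ => hc,
    fun t x => by simp⟩

/-- Realisation of finite sums. -/
theorem realize {K : ℕ} {W : ℝ → V → V} (hW : RS K W) : ∃ C : ℝ, 0 ≤ C ∧ ∀ N : ℕ, 2 * K < N →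
    ∃ (v : ℝ → V → V) (p : V → ℝ), Eul v p ∧ QP v ∧ (∀ t x, ‖v t x‖ ≤ C * N) ∧
      ∀ t, Eqv N K (v t) (W t) := by
  classical
  obtain ⟨ι, _, a, b, w, h1, h2, h3⟩ := hW
  let e : ι ≃ Fin (Fintype.card ι) := Fintype.equivFin ι
  let G : ι → V → ℝ := fun j => gfun (a j) (b j) (e j)
  have hδ : ∀ q : ι × ι, ∃ δ : ℝ, 0 < δ ∧ (q.1 ≠ q.2 → ∀ x, δ ≤ G q.1 x + G q.2 x) := by
    intro q
    by_cases hq : q.1 = q.2
    · exact ⟨1, one_pos, fun h => absurd hq h⟩
    · have hne : ((e q.1 : Fin _) : ℕ) ≠ ((e q.2 : Fin _) : ℕ) := by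
        intro h
        exact hq (e.injective (Fin.ext h))
      have hp : Periodic3 (fun x => G q.1 x + G q.2 x) := by
        intro i x
        simp only [G]
        rw [gfun_periodic _ _ _ i x, gfun_periodic _ _ _ i x]
      obtain ⟨δ, h1, h2⟩ := Periodic3.exists_pos_le hp
        ((gfun_contDiff _ _ _).continuous.add (gfun_contDiff _ _ _).continuous)
        (fun x => gfun_add_pos _ _ _ _ hne x)
      exact ⟨δ, h1, fun _ => h2⟩
  choose δ hδ1 hδ2 using hδ
  obtain ⟨η, hη, hηle⟩ : ∃ η : ℝ, 0 < η ∧ ∀ q, η ≤ δ q := by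
    refine ⟨∏ q, min 1 (δ q), Finset.prod_pos fun q _ => lt_min one_pos (hδ1 q), fun q => ?_⟩
    calc ∏ q, min 1 (δ q) = min 1 (δ q) * ∏ r ∈ Finset.univ.erase q, min 1 (δ r) :=
          (Finset.mul_prod_erase _ _ (Finset.mem_univ q)).symm
      _ ≤ min 1 (δ q) * 1 := by
          gcongr
          · exact (lt_min one_pos (hδ1 q)).le
          · exact Finset.prod_le_one (fun r _ => (lt_min one_pos (hδ1 r)).le)
              (fun r _ => min_le_left _ _)
      _ ≤ δ q := by rw [mul_one]; exact min_le_right _ _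
  have hr : 0 < η / 4 := by positivity
  choose C hC0 hC using fun j => h1 j (e j) (η / 4) hr
  refine ⟨∑ j, C j, Finset.sum_nonneg fun j _ => hC0 j, fun N hN => ?_⟩
  choose v p hE hQ hsupp hb hm using fun j => hC j N hN
  have hdis : ∀ i j, i ≠ j → ∀ x : V, 4 * (η / 4) ≤ G i ((N : ℝ) • x) + G j ((N : ℝ) • x) := by
    intro i j hij x
    have := hδ2 (i, j) hij ((N : ℝ) • x)
    have h5 := hηle (i, j)
    simp only at this
    linarith
  have hEul := superpose (v := v) (p := p) (G := fun j x => G j ((N : ℝ) • x)) hr hE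
    (fun j => (gfun_contDiff _ _ _).continuous.comp (continuous_const_smul (N : ℝ))) hdis hsupp
  refine ⟨_, _, hEul, QP.sum _ fun j _ => hQ j, ?_, ?_⟩
  · intro t x
    refine (norm_sum_le _ _).trans ?_
    rw [Finset.sum_mul]
    exact Finset.sum_le_sum fun j _ => hb j t x
  · intro t k hk θ i
    have ecos : Continuous (fun x => Real.cos (ph k x + θ)) := cosph_cont k θ
    have hvs : ∀ j, Continuous (v j t) := fun j =>
      (hE j).joint.continuous.comp (Continuous.prodMk continuous_const continuous_id)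
    have e1 : ∀ x, (∑ j, v j t x) i * Real.cos (ph k x + θ)
        = ∑ j, v j t x i * Real.cos (ph k x + θ) := by
      intro x; rw [Finset.sum_apply, Finset.sum_mul]
    have e2 : ∀ x, W t x i * Real.cos (ph k x + θ)
        = ∑ j, w j t x i * Real.cos (ph k x + θ) := by
      intro x; rw [h3, Finset.sum_apply, Finset.sum_mul]
    simp only [e1, e2]
    rw [integral_finsetSum, integral_finsetSum]
    · exact Finset.sum_congr rfl fun j _ => hm j t k hk θ i
    · intro j _
      refine Periodic3.integrableOn ?_ (((continuous_apply i).comp (h2 j t).1).mul ecos)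
      exact mul_per (fun m x => by simp only [(h2 j t).2 m x]) (cosph_per k θ)
    · intro j _
      refine Periodic3.integrableOn ?_ (((continuous_apply i).comp (hvs j)).mul ecos)
      exact mul_per (fun m x => by simp only [(hE j).per t m x]) (cosph_per k θ)

end Pool.Agent.K3h70.EP
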