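import Pool.Agent.H708R2.EulerModes.Defs

/-!
# Definitions for `ModePaths`
-/

set_option autoImplicit false

open MeasureTheory Set
open scoped ContDiff

namespace Pool.Agent.K3h70.EP

open Pool.Agent.H708R2.EulerSign Pool.Agent.H708R2.EulerModes

/-- A field which is a trigonometric polynomial in time (with arbitrary real frequencies), with
smooth coefficients. -/
def QP (v : ℝ → V → V) : Prop :=
  ∃ (n : ℕ) (w : Fin n → ℝ) (a b : Fin n → V → V),
    (∀ j, ContDiff ℝ ∞ (a j) ∧ ContDiff ℝ ∞ (b j)) ∧
    ∀ t x, v t x = ∑ j, (Real.cos (w j * t) • a j x + Real.sin (w j * t) • b j x)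

/-- `f` is a trigonometric polynomial `∑ⱼ (αⱼ cos (wⱼ t) + βⱼ sin (wⱼ t))` with arbitrary real
frequencies `wⱼ`. -/
def TrigPoly (f : ℝ → ℝ) : Prop :=
  ∃ (n : ℕ) (w α β : Fin n → ℝ),
    ∀ t, f t = ∑ j, (α j * Real.cos (w j * t) + β j * Real.sin (w j * t))

/-- `(v, q)` is a global flow on `𝕋³`: `v` is smooth in `(t, x)`, the smooth pressure `q` does not
depend on time, `(v, q)` is a classical solution of the Euler equations for all `t ∈ ℝ`, `v` is a
trigonometric polynomial in time, and every classical solution on a time interval `[0, T)` which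
is equal to `v` at one time is equal to `v` at all times of `[0, T)`. -/
structure IsGlobalFlow (v : ℝ → V → V) (q : V → ℝ) : Prop where
  smooth : ContDiff ℝ ∞ (fun z : ℝ × V => v z.1 z.2)
  smooth_pressure : ContDiff ℝ ∞ q
  solution : IsClassicalSolution univ v (fun _ => q)
  quasiperiodic : QP v
  unique : ∀ (T : ℝ) (w : ℝ → V → V) (r : ℝ → V → ℝ), IsClassicalSolution (Ico 0 T) w r →
    ∀ t₀ ∈ Ico 0 T, w t₀ = v t₀ → ∀ t ∈ Ico 0 T, w t = v t

/-- `u` is a path of divergence-free square-integrable fields on `𝕋³` (no equation is assumed)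
whose mean does not depend on time, all of whose Fourier coefficients are continuous functions of
time and whose energy is bounded on bounded time intervals. -/
structure IsPath (u : ℝ → V → V) : Prop where
  periodic : ∀ t, Periodic3 (u t)
  memLp : ∀ t, MemLp (u t) 2 (volume.restrict cube)
  div_free : ∀ t, WeakDivFree (u t)
  mean : ∀ t i, ∫ x in cube, u t x i = ∫ x in cube, u 0 x i
  continuous : ∀ l i, Continuous (fun t => cosCoeff l (fun x => u t x i)) ∧
    Continuous (fun t => sinCoeff l (fun x => u t x i))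
  energy : ∀ T : ℝ, ∃ E : ℝ, ∀ t ∈ Icc (-T) T, ∑ i, ∫ x in cube, (u t x i) ^ 2 ≤ E

end Pool.Agent.K3h70.EP
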