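import Pool.Agent.K3h70.EP.Modes
import Pool.Agent.K3h70.EP.Defs

/-!
# Realisation of a single mode
-/

set_option autoImplicit false

open MeasureTheory Set Filter Topology
open scoped ENNReal NNReal ContDiff

namespace Pool.Agent.K3h70.EP

open Pool.Agent.H708R2.EulerSign Pool.Agent.H708R2.EulerModes
open Pool.Agent.R739.ET

lemma smooth_yc {a b : Fin 3 → ℤ} {c : V} {δ : ℝ} (hδ : δ ≤ 1) {h : V → ℝ} (hh : HT δ h)
    (hs : ContDiff ℝ ∞ h) (N : ℕ) : ContDiff ℝ ∞ (fun x => h (yc a b c N x)) := by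
  rw [contDiff_iff_contDiffAt]
  intro x₀
  have h1 : (fun x => h (yc a b c N x)) =ᶠ[𝓝 x₀] fun x => h (zc a b c N x₀ x) := by
    filter_upwards [near a b c N x₀ hδ] with x hx
    exact hx h hh
  refine ContDiffAt.congr_of_eventuallyEq ?_ h1
  exact (hs.comp (TD.zc_contDiff a b c N x₀)).contDiffAt

namespace TD

variable {D : TD}

/-- `y₀² γ(R)` -/
noncomputable def m2 (D : TD) (y : V) : ℝ := (y 0 * y 0) * pA (D.δ / 2) (qr D.A D.B y)

lemma m2_ht (h : D.Ok) : HT D.δ D.m2 := hht h (fun y z h0 _ => by rw [h0])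
lemma m2_cont : Continuous D.m2 := ((continuous_apply 0).mul (continuous_apply 0)).mul pcont

/-- the limit of the normalised moments -/
noncomputable def k0 (D : TD) : ℝ := ∫ x in Dom, D.m2 (wv D.c (Lm D.a D.b x))

lemma pA_nonneg (d R : ℝ) : 0 ≤ pA d R := expNegInvGlue.nonneg _

lemma k0_pos (h : D.Ok) : 0 < D.k0 := by
  have hA := h.hA
  have hB := h.hB
  have hδ := h.hδ0
  have hδ1 := h.hδ1
  have hnn : ∀ x, 0 ≤ D.m2 (wv D.c (Lm D.a D.b x)) := fun x =>
    mul_nonneg (mul_self_nonneg _) (pA_nonneg _ _)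
  refine lt_of_le_of_ne (integral_nonneg hnn) fun h0 => ?_
  have hz := eq_zero_of_integral_eq_zero (Lm_periodic D.a D.b D.c D.m2)
    (cont_of_ht h.hδ1 (m2_ht h) m2_cont) hnn h0.symm
  -- a point of the tube
  set s : ℝ := D.δ / (4 * D.B) with hs
  have hs0 : 0 < s := by positivity
  have hs1 : s ≤ 1 / 4 := by
    rw [hs, div_le_div_iff₀ (by positivity) (by norm_num)]
    nlinarith
  set x : V := ((D.c 0 + s) / D.A) • rv D.a + (D.c 1 / D.B) • rv D.b with hx
  have hA' : ph D.a (rv D.a) = D.A := rfl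
  have hB' : ph D.b (rv D.b) = D.B := rfl
  have e0 : ph D.a x = D.c 0 + s := by
    rw [hx, ph_add, ph_smul, ph_smul, hA', h.hab]; field_simp; ring
  have e1 : ph D.b x = D.c 1 := by
    rw [hx, ph_add, ph_smul, ph_smul, hB', h.hba]; field_simp; ring
  have hpi := Real.pi_gt_three
  have w0 : wv D.c (Lm D.a D.b x) 0 = s := by
    simp only [wv_0, Lm_0, e0]
    refine wr_eq ⟨by linarith, by linarith⟩ ⟨0, by push_cast; ring⟩
  have w1 : wv D.c (Lm D.a D.b x) 1 = 0 := by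
    simp only [wv_1, Lm_1, e1]
    refine wr_eq ⟨by linarith, by linarith⟩ ⟨0, by push_cast; ring⟩
  have hq : qr D.A D.B (wv D.c (Lm D.a D.b x)) < D.δ / 2 := by
    unfold qr
    rw [w0, w1]
    have : D.B * s = D.δ / 4 := by rw [hs]; field_simp
    nlinarith
  have hp := pA_pos hq
  have := hz x
  unfold m2 at this
  rw [w0] at this
  have h3 : 0 < s * s * pA (D.δ / 2) (qr D.A D.B (wv D.c (Lm D.a D.b x))) := by positivity
  linarith

lemma sin_mul_ge {s : ℝ} (hs : |s| ≤ 1) : 2 / Real.pi * (s * s) ≤ Real.sin s * s := by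
  have hpi := Real.pi_gt_three
  rcases le_total 0 s with h | h
  · have h1 : s ≤ Real.pi / 2 := by
      have := (le_abs_self s).trans hs
      linarith
    have := Real.mul_le_sin h h1
    nlinarith
  · have h1 : -s ≤ Real.pi / 2 := by
      have := (neg_abs_le s)
      linarith
    have := Real.mul_le_sin (by linarith : 0 ≤ -s) h1
    rw [Real.sin_neg] at this
    nlinarith

lemma y_le_one (h : D.Ok) {y : V} (hy : qr D.A D.B y < D.δ) : |y 0| ≤ 1 ∧ |y 1| ≤ 1 := by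
  have h1 := rad_le_qr h.hA h.hB y
  unfold rad at h1
  have hδ := h.hδ1
  constructor
  · rw [← sq_le_one_iff_abs_le_one]
    nlinarith [sq_nonneg (y 1)]
  · rw [← sq_le_one_iff_abs_le_one]
    nlinarith [sq_nonneg (y 0)]

lemma kN_lower (h : D.Ok) {N : ℕ} (hN : 0 < N) : 2 / Real.pi * D.k0 ≤ N * D.kN N := by
  have hNr : (0 : ℝ) < N := by exact_mod_cast hN
  have hN1 : (1 : ℝ) ≤ N := by exact_mod_cast hN
  have h0 : ∀ x, 2 / Real.pi * D.m2 (wv D.c (Lm D.a D.b x))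
      ≤ N * D.m0 N (wv D.c (Lm D.a D.b x)) := by
    intro x
    set y := wv D.c (Lm D.a D.b x)
    have hp := pA_nonneg (D.δ / 2) (qr D.A D.B y)
    unfold m2 m0
    rcases lt_or_ge (qr D.A D.B y) (D.δ / 2) with hq | hq
    · have hy := (y_le_one h (by linarith [h.hδ0] : qr D.A D.B y < D.δ)).1
      have hs : |y 0 / N| ≤ 1 := by
        rw [abs_div, abs_of_pos hNr]
        exact (div_le_one hNr).2 (hy.trans hN1)
      have h1 := sin_mul_ge hs
      have h2 : 2 / Real.pi * (y 0 * y 0) ≤ N * (Real.sin (y 0 / N) * y 0) := by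
        have e1 : (N : ℝ) ^ 2 * (2 / Real.pi * (y 0 / N * (y 0 / N))) = 2 / Real.pi * (y 0 * y 0) := by
          field_simp
        have e2 : (N : ℝ) ^ 2 * (Real.sin (y 0 / N) * (y 0 / N)) = N * (Real.sin (y 0 / N) * y 0) := by
          field_simp
        rw [← e1, ← e2]
        exact mul_le_mul_of_nonneg_left h1 (by positivity)
      calc 2 / Real.pi * (y 0 * y 0 * pA (D.δ / 2) (qr D.A D.B y))
          = (2 / Real.pi * (y 0 * y 0)) * pA (D.δ / 2) (qr D.A D.B y) := by ring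
        _ ≤ (N * (Real.sin (y 0 / N) * y 0)) * pA (D.δ / 2) (qr D.A D.B y) :=
            mul_le_mul_of_nonneg_right h2 hp
        _ = _ := by ring
    · rw [(pA_rp (D.δ / 2)).van _ hq]
      simp
  have i1 : IntegrableOn (fun x => 2 / Real.pi * D.m2 (wv D.c (Lm D.a D.b x))) Dom :=
    ((Lm_periodic D.a D.b D.c D.m2).integrableOn (cont_of_ht h.hδ1 (m2_ht h) m2_cont)).const_mul _
  have i2 : IntegrableOn (fun x => N * D.m0 N (wv D.c (Lm D.a D.b x))) Dom :=
    ((Lm_periodic D.a D.b D.c (D.m0 N)).integrableOn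
      (cont_of_ht h.hδ1 (m0_ht h N) (m0_cont N))).const_mul _
  have := integral_mono i1 i2 h0
  rw [integral_const_mul, integral_const_mul] at this
  exact this

lemma kN_pos (h : D.Ok) {N : ℕ} (hN : 0 < N) : 0 < D.kN N := by
  have h1 := kN_lower h hN
  have h2 := k0_pos h
  have hNr : (0 : ℝ) < N := by exact_mod_cast hN
  have h3 : 0 < (N : ℝ) * D.kN N := lt_of_lt_of_le (by positivity) h1
  exact (mul_pos_iff_of_pos_left hNr).1 h3

/-- the amplitude -/
noncomputable def lam (D : TD) (N : ℕ) : ℝ := (volume Dom).toReal / (N * D.kN N)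

lemma lam_pos (h : D.Ok) {N : ℕ} (hN : 0 < N) : 0 < D.lam N := by
  have h1 := kN_pos h hN
  have hNr : (0 : ℝ) < N := by exact_mod_cast hN
  exact div_pos vol_pos (by positivity)

lemma lam_le (h : D.Ok) {N : ℕ} (hN : 0 < N) :
    D.lam N ≤ (volume Dom).toReal * Real.pi / (2 * D.k0) := by
  have h1 := kN_lower h hN
  have h2 := k0_pos h
  have h3 := kN_pos h hN
  have hNr : (0 : ℝ) < N := by exact_mod_cast hN
  have hv := vol_pos
  unfold lam
  rw [div_le_div_iff₀ (by positivity) (by positivity)]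
  have h4 : 2 * D.k0 ≤ Real.pi * (N * D.kN N) := by
    have h5 : 2 / Real.pi * D.k0 * Real.pi = 2 * D.k0 := by field_simp
    nlinarith [Real.pi_pos]
  calc (volume Dom).toReal * (2 * D.k0) ≤ (volume Dom).toReal * (Real.pi * (N * D.kN N)) := by
        gcongr
    _ = _ := by ring

lemma gg_bound (h : D.Ok) (t : ℝ) (y : V) : |D.gg t y| ≤ 1 + D.ρ := by
  have hρ : 0 ≤ D.ρ := by unfold ρ; positivity
  unfold gg
  rcases lt_or_ge (qr D.A D.B y) (D.δ / 2) with hq | hq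
  · obtain ⟨h0, h1⟩ := y_le_one h (by linarith [h.hδ0] : qr D.A D.B y < D.δ)
    have hp : |pA (D.δ / 2) (qr D.A D.B y)| ≤ 1 := by
      rw [abs_of_nonneg (pA_nonneg _ _)]
      unfold pA expNegInvGlue
      split_ifs with h2
      · exact zero_le_one
      · apply Real.exp_le_one_iff.2
        have : 0 < D.δ / 2 - qr D.A D.B y := not_le.1 h2
        rw [neg_nonpos]
        positivity
    have hc : |D.ct t| ≤ 1 := Real.abs_cos_le_one _
    have hs : |D.st t| ≤ D.ρ := by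
      unfold st
      rw [abs_mul, abs_of_nonneg hρ]
      exact mul_le_of_le_one_right hρ (Real.abs_sin_le_one _)
    rw [abs_mul]
    have h2 : |D.ct t * y 0 + D.st t * y 1| ≤ 1 + D.ρ := by
      refine (abs_add_le _ _).trans ?_
      rw [abs_mul, abs_mul]
      have e1 : |D.ct t| * |y 0| ≤ 1 * 1 := mul_le_mul hc h0 (abs_nonneg _) zero_le_one
      have e2 : |D.st t| * |y 1| ≤ D.ρ * 1 := mul_le_mul hs h1 (abs_nonneg _) hρ
      linarith
    calc |D.ct t * y 0 + D.st t * y 1| * |pA (D.δ / 2) (qr D.A D.B y)|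
        ≤ (1 + D.ρ) * 1 := mul_le_mul h2 hp (abs_nonneg _) (by linarith)
      _ = _ := by ring
  · rw [(pA_rp (D.δ / 2)).van _ hq]
    simp
    linarith

lemma sw_bound (h : D.Ok) (i : Fin 3) (y : V) :
    |D.sw i y| ≤ |D.om| * (|(D.a i : ℝ)| + |(D.b i : ℝ)|) := by
  unfold sw
  rcases lt_or_ge (qr D.A D.B y) D.δ with hq | hq
  · obtain ⟨h0, h1⟩ := y_le_one h hq
    have hp : |chi D.δ (qr D.A D.B y)| ≤ 1 := by
      unfold chi
      rw [abs_of_nonneg (Real.smoothTransition.nonneg _)]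
      exact Real.smoothTransition.le_one _
    rw [abs_mul, abs_mul]
    have h2 : |-(y 1 * D.a i) + y 0 * D.b i| ≤ |(D.a i : ℝ)| + |(D.b i : ℝ)| := by
      refine (abs_add_le _ _).trans ?_
      rw [abs_neg, abs_mul, abs_mul]
      have e1 := mul_le_of_le_one_left (abs_nonneg (D.a i : ℝ)) h1
      have e2 := mul_le_of_le_one_left (abs_nonneg (D.b i : ℝ)) h0
      linarith
    calc |D.om| * |-(y 1 * D.a i) + y 0 * D.b i| * |chi D.δ (qr D.A D.B y)|
        ≤ |D.om| * (|(D.a i : ℝ)| + |(D.b i : ℝ)|) * 1 := by gcongr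
      _ = _ := by ring
  · rw [(chi_rp h.hδ0).van _ hq]
    simp
    positivity

/-- the constant in the bound of the velocity -/
noncomputable def CC (D : TD) : ℝ := ∑ i, (|D.om| * (|(D.a i : ℝ)| + |(D.b i : ℝ)|)
  + (volume Dom).toReal * Real.pi / (2 * D.k0) * (2 * (1 + D.ρ)) * |(D.ξ i : ℝ)|)

lemma vel_bound (h : D.Ok) {N : ℕ} (hN : 0 < N) (μ t : ℝ) (x : V) :
    ‖D.vel N (μ * D.lam N) t x‖ ≤ (1 + |μ|) * D.CC * N := by
  have hNr : (0 : ℝ) < N := by exact_mod_cast hN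
  have hN1 : (1 : ℝ) ≤ N := by exact_mod_cast hN
  have hρ : 0 ≤ D.ρ := by unfold ρ; positivity
  have hk := k0_pos h
  have hv := vol_pos
  have hpi := Real.pi_pos
  set Λ := (volume Dom).toReal * Real.pi / (2 * D.k0) with hΛ
  have hΛ0 : 0 ≤ Λ := by positivity
  have hterm : ∀ i, 0 ≤ |D.om| * (|(D.a i : ℝ)| + |(D.b i : ℝ)|)
      + Λ * (2 * (1 + D.ρ)) * |(D.ξ i : ℝ)| := fun i => by positivity
  have hCC : 0 ≤ D.CC := Finset.sum_nonneg fun i _ => hterm i
  rw [pi_norm_le_iff_of_nonneg (by positivity)]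
  intro i
  have hi : |D.om| * (|(D.a i : ℝ)| + |(D.b i : ℝ)|) + Λ * (2 * (1 + D.ρ)) * |(D.ξ i : ℝ)|
      ≤ D.CC := Finset.single_le_sum (f := fun i => |D.om| * (|(D.a i : ℝ)| + |(D.b i : ℝ)|)
      + Λ * (2 * (1 + D.ρ)) * |(D.ξ i : ℝ)|) (fun i _ => hterm i) (Finset.mem_univ i)
  have hμ := abs_nonneg μ
  refine le_trans ?_ (mul_le_mul_of_nonneg_right
    (mul_le_mul_of_nonneg_left hi (by positivity : 0 ≤ 1 + |μ|)) hNr.le)
  rw [Real.norm_eq_abs]
  unfold vel
  set y := yc D.a D.b D.c N x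
  refine (abs_add_le _ _).trans ?_
  have hspl : (1 + |μ|) * (|D.om| * (|(D.a i : ℝ)| + |(D.b i : ℝ)|)
      + Λ * (2 * (1 + D.ρ)) * |(D.ξ i : ℝ)|) * N
      = (1 + |μ|) * (|D.om| * (|(D.a i : ℝ)| + |(D.b i : ℝ)|)) * N
        + (1 + |μ|) * (Λ * (2 * (1 + D.ρ)) * |(D.ξ i : ℝ)|) * N := by ring
  rw [hspl]
  have hsw := sw_bound h i y
  have hgg := gg_bound h t y
  refine add_le_add ?_ ?_
  · rw [abs_mul, abs_of_pos (inv_pos.2 hNr)]
    have e1 : (N : ℝ)⁻¹ ≤ N := (inv_le_one_of_one_le₀ hN1).trans hN1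
    have e2 : 1 ≤ 1 + |μ| := by linarith
    calc (N : ℝ)⁻¹ * |D.sw i y| ≤ N * (|D.om| * (|(D.a i : ℝ)| + |(D.b i : ℝ)|)) := by gcongr
      _ = 1 * (N * (|D.om| * (|(D.a i : ℝ)| + |(D.b i : ℝ)|))) := by ring
      _ ≤ (1 + |μ|) * (N * (|D.om| * (|(D.a i : ℝ)| + |(D.b i : ℝ)|))) := by gcongr
      _ = _ := by ring
  · have hF1 : |D.F1 N t y| ≤ 1 + D.ρ := by
      unfold F1
      rw [abs_mul]
      calc |Real.cos (y 0 / N)| * |D.gg t y| ≤ 1 * (1 + D.ρ) :=
            mul_le_mul (Real.abs_cos_le_one _) hgg (abs_nonneg _) zero_le_one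
        _ = _ := one_mul _
    have hF2 : |D.F2 N t y| ≤ 1 + D.ρ := by
      unfold F2
      rw [abs_mul]
      calc |Real.sin (y 0 / N)| * |D.gg t y| ≤ 1 * (1 + D.ρ) :=
            mul_le_mul (Real.abs_sin_le_one _) hgg (abs_nonneg _) zero_le_one
        _ = _ := one_mul _
    have hsum : |Real.cos (ph D.a x + D.φ) * D.F1 N t y + Real.sin (ph D.a x + D.φ) * D.F2 N t y|
        ≤ 2 * (1 + D.ρ) := by
      refine (abs_add_le _ _).trans ?_
      rw [abs_mul, abs_mul]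
      have e1 : |Real.cos (ph D.a x + D.φ)| * |D.F1 N t y| ≤ 1 * (1 + D.ρ) :=
        mul_le_mul (Real.abs_cos_le_one _) hF1 (abs_nonneg _) zero_le_one
      have e2 : |Real.sin (ph D.a x + D.φ)| * |D.F2 N t y| ≤ 1 * (1 + D.ρ) :=
        mul_le_mul (Real.abs_sin_le_one _) hF2 (abs_nonneg _) zero_le_one
      linarith
    rw [abs_mul, abs_mul, abs_mul, abs_mul, abs_of_pos (lam_pos h hN), abs_of_pos hNr]
    have hl := lam_le h hN
    have hl0 := (lam_pos h hN).le
    have e2 : |μ| ≤ 1 + |μ| := by linarith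
    calc |μ| * D.lam N * N * |Real.cos (ph D.a x + D.φ) * D.F1 N t y
          + Real.sin (ph D.a x + D.φ) * D.F2 N t y| * |(D.ξ i : ℝ)|
        ≤ (1 + |μ|) * Λ * N * (2 * (1 + D.ρ)) * |(D.ξ i : ℝ)| := by gcongr
      _ = _ := by ring

/-- The low modes of the flow. -/
lemma vel_modes (h : D.Ok) {N K : ℕ} (hN : 0 < N) (hl : ∀ i, |D.a i| ≤ K) {k : Fin 3 → ℤ}
    (hk : ∀ i, |k i| + K < N) (μ θ t : ℝ) (i : Fin 3) :
    ∫ x in Dom, D.vel N (μ * D.lam N) t x i * Real.cos (ph k x + θ)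
      = ∫ x in Dom, (μ * Real.cos (D.Ω * t + D.ψ) * Real.cos (ph D.a x + (D.φ - Real.pi / 2)) * D.ξ i)
          * Real.cos (ph k x + θ) := by
  have hNr : (0 : ℝ) < N := by exact_mod_cast hN
  have hkN : ∀ i, |k i| < N := by
    intro i
    have := hk i
    omega
  set f0 : V → ℝ := fun X => D.sw i (wv D.c (Lm D.a D.b X)) with hf0
  set f1 : V → ℝ := fun X => D.F1 N t (wv D.c (Lm D.a D.b X)) with hf1
  set f2 : V → ℝ := fun X => D.F2 N t (wv D.c (Lm D.a D.b X)) with hf2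
  have p0 : Periodic3 f0 := Lm_periodic D.a D.b D.c (D.sw i)
  have p1 : Periodic3 f1 := Lm_periodic D.a D.b D.c (D.F1 N t)
  have p2 : Periodic3 f2 := Lm_periodic D.a D.b D.c (D.F2 N t)
  have c0 : Continuous f0 := cont_of_ht h.hδ1 (sw_ht h i) (sw_cont h i)
  have c1 : Continuous f1 := cont_of_ht h.hδ1 (F1_ht h N t) (F1_cont N t)
  have c2 : Continuous f2 := cont_of_ht h.hδ1 (F2_ht h N t) (F2_cont N t)
  have e : ∀ x, D.vel N (μ * D.lam N) t x i * Real.cos (ph k x + θ)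
      = (N : ℝ)⁻¹ * (f0 ((N : ℝ) • x) * Real.cos (ph k x + θ))
        + (μ * D.lam N * N * D.ξ i) * (f1 ((N : ℝ) • x)
            * (Real.cos (ph D.a x + D.φ) * Real.cos (ph k x + θ)))
        + (μ * D.lam N * N * D.ξ i) * (f2 ((N : ℝ) • x)
            * (Real.cos (ph D.a x + (D.φ - Real.pi / 2)) * Real.cos (ph k x + θ))) := by
    intro x
    have es : Real.cos (ph D.a x + (D.φ - Real.pi / 2)) = Real.sin (ph D.a x + D.φ) := by
      rw [← Real.cos_sub_pi_div_two]; congr 1; ring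
    rw [es]
    simp only [vel, f0, f1, f2, yc]
    ring
  have cN : ∀ {f : V → ℝ}, Continuous f → Continuous (fun x => f ((N : ℝ) • x)) := fun hf =>
    hf.comp (continuous_const_smul (N : ℝ))
  have i0 : IntegrableOn (fun x => f0 ((N : ℝ) • x) * Real.cos (ph k x + θ)) Dom :=
    (mul_per (resc_per p0 N) (cosph_per _ _)).integrableOn ((cN c0).mul (cosph_cont _ _))
  have ip : ∀ {f : V → ℝ} (φ : ℝ), Periodic3 f → Continuous f → IntegrableOn
      (fun x => f ((N : ℝ) • x) * (Real.cos (ph D.a x + φ) * Real.cos (ph k x + θ))) Dom :=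
    fun φ hp hc => (mul_per (resc_per hp N) (mul_per (cosph_per _ _) (cosph_per _ _))).integrableOn
      ((cN hc).mul ((cosph_cont _ _).mul (cosph_cont _ _)))
  simp only [e]
  have j0 := i0.const_mul ((N : ℝ)⁻¹)
  have j1 := (ip D.φ p1 c1).const_mul (μ * D.lam N * N * D.ξ i)
  have j2 := (ip (D.φ - Real.pi / 2) p2 c2).const_mul (μ * D.lam N * N * D.ξ i)
  have j01 : IntegrableOn (fun x => (N : ℝ)⁻¹ * (f0 ((N : ℝ) • x) * Real.cos (ph k x + θ))
        + (μ * D.lam N * N * D.ξ i) * (f1 ((N : ℝ) • x)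
            * (Real.cos (ph D.a x + D.φ) * Real.cos (ph k x + θ)))) Dom := j0.add j1
  rw [integral_add j01 j2, integral_add j0 j1, integral_const_mul, integral_const_mul,
    integral_const_mul,
    fine_phase p0 c0 hN hkN, fine_prod p1 c1 hN hl hk, fine_prod p2 c2 hN hl hk,
    mean_sw h i, mean_F1 h N t, mean_F2 h N t]
  have e2 : ∀ x, (μ * Real.cos (D.Ω * t + D.ψ) * Real.cos (ph D.a x + (D.φ - Real.pi / 2)) * D.ξ i)
          * Real.cos (ph k x + θ) = (μ * Real.cos (D.Ω * t + D.ψ) * D.ξ i)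
            * (Real.cos (ph D.a x + (D.φ - Real.pi / 2)) * Real.cos (ph k x + θ)) := by
    intro x; ring
  simp only [e2]
  rw [integral_const_mul]
  have hkp := (kN_pos h hN).ne'
  have hvp := vol_pos.ne'
  have hct : D.ct t = Real.cos (D.Ω * t + D.ψ) := rfl
  rw [hct]
  unfold lam
  simp only [mul_zero, ite_self, zero_div, zero_mul, zero_add]
  generalize (∫ x in Dom, Real.cos (ph D.a x + (D.φ - Real.pi / 2)) * Real.cos (ph k x + θ)) = J
  field_simp

lemma vel_qp (h : D.Ok) {N : ℕ} (hN : 0 < N) (lam : ℝ) : QP (D.vel N lam) := by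
  have hd : D.δ / 2 ≤ D.δ := by linarith [h.hδ0]
  have hx : ∀ i : Fin 3, ContDiff ℝ ∞ (fun y : V => y i) := fun i => contDiff_apply ℝ ℝ i
  have hp : ContDiff ℝ ∞ (fun y : V => pA (D.δ / 2) (qr D.A D.B y)) :=
    (pA_rp (D.δ / 2)).smooth.comp (qr_contDiff D.A D.B)
  have hd0 : ContDiff ℝ ∞ (fun y : V => y 0 / N) := (hx 0).div_const _
  -- the building functions
  let q : Bool → Fin 3 → V → ℝ := fun β m y =>
    ((if β then Real.cos (y 0 / N) else Real.sin (y 0 / N)) * y m)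
      * pA (D.δ / 2) (qr D.A D.B y)
  have hqt : ∀ β (m : Fin 3), m = 0 ∨ m = 1 → HT D.δ (q β m) := by
    intro β m hm
    refine hht h (fun y z h0 h1 => ?_)
    rcases hm with rfl | rfl
    · rw [h0]
    · rw [h0, h1]
  have hqs : ∀ β m, ContDiff ℝ ∞ (q β m) := by
    intro β m
    cases β
    · exact ((Real.contDiff_sin.comp hd0).mul (hx m)).mul hp
    · exact ((Real.contDiff_cos.comp hd0).mul (hx m)).mul hp
  have hQ : ∀ β (m : Fin 3), m = 0 ∨ m = 1 →
      ContDiff ℝ ∞ (fun x => q β m (yc D.a D.b D.c N x)) := fun β m hm =>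
    smooth_yc h.hδ1 (hqt β m hm) (hqs β m) N
  have hS : ∀ i, ContDiff ℝ ∞ (fun x => D.sw i (yc D.a D.b D.c N x)) := by
    intro i
    refine smooth_yc h.hδ1 (sw_ht h i) ?_ N
    exact (contDiff_const.mul ((((hx 1).mul contDiff_const).neg).add
      ((hx 0).mul contDiff_const))).mul ((chi_rp h.hδ0).smooth.comp (qr_contDiff D.A D.B))
  have hcp : ContDiff ℝ ∞ (fun x => Real.cos (ph D.a x + D.φ)) :=
    Real.contDiff_cos.comp ((ph_contDiff D.a).add contDiff_const)
  have hsp : ContDiff ℝ ∞ (fun x => Real.sin (ph D.a x + D.φ)) :=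
    Real.contDiff_sin.comp ((ph_contDiff D.a).add contDiff_const)
  -- the two parts
  let E : Fin 3 → V → ℝ := fun m x => Real.cos (ph D.a x + D.φ) * q true m (yc D.a D.b D.c N x)
    + Real.sin (ph D.a x + D.φ) * q false m (yc D.a D.b D.c N x)
  have hE : ∀ m : Fin 3, m = 0 ∨ m = 1 → ContDiff ℝ ∞ (E m) := fun m hm =>
    (hcp.mul (hQ true m hm)).add (hsp.mul (hQ false m hm))
  let V0 : V → V := fun x i => (N : ℝ)⁻¹ * D.sw i (yc D.a D.b D.c N x)
  let V1 : V → V := fun x i => lam * N * (Real.cos D.ψ * E 0 x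
    + D.ρ * Real.sin D.ψ * E 1 x) * D.ξ i
  let V2 : V → V := fun x i => lam * N * (-Real.sin D.ψ * E 0 x
    + D.ρ * Real.cos D.ψ * E 1 x) * D.ξ i
  have hV0 : ContDiff ℝ ∞ V0 := contDiff_pi.2 fun i => contDiff_const.mul (hS i)
  have hE0 := hE 0 (Or.inl rfl)
  have hE1 := hE 1 (Or.inr rfl)
  have hV1 : ContDiff ℝ ∞ V1 := contDiff_pi.2 fun i =>
    (contDiff_const.mul ((contDiff_const.mul hE0).add (contDiff_const.mul hE1))).mul contDiff_const
  have hV2 : ContDiff ℝ ∞ V2 := contDiff_pi.2 fun i =>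
    (contDiff_const.mul ((contDiff_const.mul hE0).add (contDiff_const.mul hE1))).mul contDiff_const
  refine ⟨2, ![0, D.Ω], ![V0, V1], ![fun _ => 0, V2], ?_, ?_⟩
  · intro j
    fin_cases j
    · exact ⟨hV0, contDiff_const⟩
    · exact ⟨hV1, hV2⟩
  · intro t x
    rw [Fin.sum_univ_two]
    simp only [Matrix.cons_val_zero, Matrix.cons_val_one, zero_mul, Real.cos_zero, Real.sin_zero,
      one_smul, smul_zero, add_zero]
    ext i
    simp only [Pi.add_apply, Pi.smul_apply, smul_eq_mul]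
    simp only [V0, V1, V2, E, q, vel, F1, F2, gg, ct, st, if_true, Bool.false_eq_true, if_false]
    rw [Real.cos_add (D.Ω * t) D.ψ, Real.sin_add (D.Ω * t) D.ψ]
    ring

end TD

end Pool.Agent.K3h70.EP
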