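import Pool.Agent.K3h70.EP.Time

/-!
# Closeness in negative Sobolev norms
-/

set_option autoImplicit false

open MeasureTheory Set Filter Topology
open scoped ENNReal NNReal ContDiff

namespace Pool.Agent.K3h70.EP

open Pool.Agent.H708R2.EulerSign Pool.Agent.H708R2.EulerModes
open Pool.Agent.R739.ET

lemma int_mul_cos {g : V → ℝ} (hg : Integrable g (volume.restrict Dom)) (l : Fin 3 → ℤ) :
    Integrable (fun x => g x * Real.cos (ph l x)) (volume.restrict Dom) := by
  refine hg.mul_bdd (c := 1)
    (Real.continuous_cos.comp (ph_contDiff l).continuous).aestronglyMeasurable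
    (Filter.Eventually.of_forall fun x => ?_)
  exact Real.abs_cos_le_one _

lemma int_mul_sin {g : V → ℝ} (hg : Integrable g (volume.restrict Dom)) (l : Fin 3 → ℤ) :
    Integrable (fun x => g x * Real.sin (ph l x)) (volume.restrict Dom) := by
  refine hg.mul_bdd (c := 1)
    (Real.continuous_sin.comp (ph_contDiff l).continuous).aestronglyMeasurable
    (Filter.Eventually.of_forall fun x => ?_)
  exact Real.abs_sin_le_one _

lemma cosCoeff_sub {f g : V → ℝ} (hf : Periodic3 f) (hg : Periodic3 g)
    (hfi : Integrable f (volume.restrict Dom)) (hgi : Integrable g (volume.restrict Dom))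
    (l : Fin 3 → ℤ) : cosCoeff l (fun x => f x - g x)
      = (∫ x in Dom, f x * Real.cos (ph l x)) - ∫ x in Dom, g x * Real.cos (ph l x) := by
  have hp : Periodic3 (fun x => f x - g x) := by
    intro i x; simp only; rw [hf i x, hg i x]
  rw [cosCoeff_eq hp, ← integral_sub (int_mul_cos hfi l) (int_mul_cos hgi l)]
  congr 1
  ext1 x
  ring

lemma sinCoeff_sub {f g : V → ℝ} (hf : Periodic3 f) (hg : Periodic3 g)
    (hfi : Integrable f (volume.restrict Dom)) (hgi : Integrable g (volume.restrict Dom))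
    (l : Fin 3 → ℤ) : sinCoeff l (fun x => f x - g x)
      = (∫ x in Dom, f x * Real.sin (ph l x)) - ∫ x in Dom, g x * Real.sin (ph l x) := by
  have hp : Periodic3 (fun x => f x - g x) := by
    intro i x; simp only; rw [hf i x, hg i x]
  rw [sinCoeff_eq hp, ← integral_sub (int_mul_sin hfi l) (int_mul_sin hgi l)]
  congr 1
  ext1 x
  ring

/-- A periodic square-integrable field. -/
structure Fld (u : V → V) : Prop where
  per : Periodic3 u
  int : ∀ i, Integrable (fun x => u x i) (volume.restrict Dom)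

lemma Fld.of_cont {u : V → V} (hp : Periodic3 u) (hc : Continuous u) : Fld u :=
  ⟨hp, fun i => (comp_periodic hp i).integrableOn ((continuous_apply i).comp hc)⟩

lemma Fld.of_memLp {u : V → V} (hp : Periodic3 u) (h : MemLp u 2 (volume.restrict cube)) :
    Fld u := by
  refine ⟨hp, fun i => ?_⟩
  exact (memLp_comp (memLp_dom hp h) i).integrable (by norm_num)

/-- The triangle inequality. -/
lemma HNegClose.tri {s ε : ℝ} {v w u : V → V} (hv : Fld v) (hw : Fld w) (hu : Fld u)
    (h1 : HNegClose s (ε / 2) v w) (h2 : HNegClose s (ε / 2) w u) : HNegClose s ε v u := by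
  intro S
  have hterm : ∀ l ∈ S, (1 + ∑ i, (l i : ℝ) ^ 2) ^ (-s) *
      ∑ i, (cosCoeff l (fun x => v x i - u x i) ^ 2 + sinCoeff l (fun x => v x i - u x i) ^ 2)
      ≤ 2 * ((1 + ∑ i, (l i : ℝ) ^ 2) ^ (-s) *
        ∑ i, (cosCoeff l (fun x => v x i - w x i) ^ 2 + sinCoeff l (fun x => v x i - w x i) ^ 2))
      + 2 * ((1 + ∑ i, (l i : ℝ) ^ 2) ^ (-s) *
        ∑ i, (cosCoeff l (fun x => w x i - u x i) ^ 2
          + sinCoeff l (fun x => w x i - u x i) ^ 2)) := by
    intro l _
    have hw0 : 0 ≤ (1 + ∑ i, (l i : ℝ) ^ 2) ^ (-s) := by positivity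
    rw [← mul_assoc, ← mul_assoc, mul_comm 2, mul_assoc, mul_assoc, ← mul_add]
    refine mul_le_mul_of_nonneg_left ?_ hw0
    rw [Finset.mul_sum, Finset.mul_sum, ← Finset.sum_add_distrib]
    refine Finset.sum_le_sum fun i _ => ?_
    have c1 := cosCoeff_sub (comp_periodic hv.per i) (comp_periodic hu.per i) (hv.int i) (hu.int i) l
    have c2 := cosCoeff_sub (comp_periodic hv.per i) (comp_periodic hw.per i) (hv.int i) (hw.int i) l
    have c3 := cosCoeff_sub (comp_periodic hw.per i) (comp_periodic hu.per i) (hw.int i) (hu.int i) l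
    have s1 := sinCoeff_sub (comp_periodic hv.per i) (comp_periodic hu.per i) (hv.int i) (hu.int i) l
    have s2 := sinCoeff_sub (comp_periodic hv.per i) (comp_periodic hw.per i) (hv.int i) (hw.int i) l
    have s3 := sinCoeff_sub (comp_periodic hw.per i) (comp_periodic hu.per i) (hw.int i) (hu.int i) l
    have e1 : cosCoeff l (fun x => v x i - u x i)
        = cosCoeff l (fun x => v x i - w x i) + cosCoeff l (fun x => w x i - u x i) := by
      rw [c1, c2, c3]; ring
    have e2 : sinCoeff l (fun x => v x i - u x i)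
        = sinCoeff l (fun x => v x i - w x i) + sinCoeff l (fun x => w x i - u x i) := by
      rw [s1, s2, s3]; ring
    rw [e1, e2]
    nlinarith [sq_nonneg (cosCoeff l (fun x => v x i - w x i)
        - cosCoeff l (fun x => w x i - u x i)),
      sq_nonneg (sinCoeff l (fun x => v x i - w x i) - sinCoeff l (fun x => w x i - u x i))]
  refine (Finset.sum_le_sum hterm).trans ?_
  rw [Finset.sum_add_distrib, ← Finset.mul_sum, ← Finset.mul_sum]
  have a1 := h1 S
  have a2 := h2 S
  nlinarith

lemma wt_le {s : ℝ} (hs : 0 < s) {l : Fin 3 → ℤ} {n : ℕ} (h : ∃ i, (n : ℤ) ≤ |l i|) :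
    (1 + ∑ i, (l i : ℝ) ^ 2) ^ (-s) ≤ (1 + (n : ℝ) ^ 2) ^ (-s) := by
  obtain ⟨i, hi⟩ := h
  apply Real.rpow_le_rpow_of_nonpos (by positivity) _ (by linarith)
  have h1 : (l i : ℝ) ^ 2 ≤ ∑ i, (l i : ℝ) ^ 2 :=
    Finset.single_le_sum (f := fun i => (l i : ℝ) ^ 2) (fun _ _ => sq_nonneg _)
      (Finset.mem_univ i)
  have h2 : (n : ℝ) ≤ |(l i : ℝ)| := by exact_mod_cast hi
  have h3 : (n : ℝ) ^ 2 ≤ (l i : ℝ) ^ 2 := by
    rw [← sq_abs (l i : ℝ)]
    gcongr
  linarith

/-- Fields with the same low modes are close. -/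
lemma hneg_eqv {v W : V → V} (hvp : Periodic3 v) (hvc : Continuous v) (hWp : Periodic3 W)
    (hWc : Continuous W) {N K : ℕ} (h : Eqv N K v W) {s ε M : ℝ} (hs : 0 < s)
    (hM : ∀ x, ‖v x - W x‖ ≤ M)
    (w1 : (1 + ((N - K : ℕ) : ℝ) ^ 2) ^ (-s) * (3 * ((volume Dom).toReal *
      ((volume Dom).toReal * M ^ 2))) ≤ ε ^ 2) : HNegClose s ε v W := by
  have hM0 : 0 ≤ M := (norm_nonneg _).trans (hM 0)
  set vol : ℝ := (volume Dom).toReal with hvol
  have hvol0 : 0 < vol := vol_pos
  have hv := Fld.of_cont hvp hvc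
  have hW := Fld.of_cont hWp hWc
  set D : V → V := fun x => v x - W x with hD
  have hDp : Periodic3 D := by
    intro i x; simp only [hD]; rw [hvp i x, hWp i x]
  have hDc : Continuous D := hvc.sub hWc
  have hD2 : ∀ i, MemLp (fun x => D x i) 2 (volume.restrict Dom) := by
    intro i
    refine MemLp.of_bound ((continuous_apply i).comp hDc).aestronglyMeasurable M
      (Filter.Eventually.of_forall fun x => ?_)
    exact (norm_le_pi_norm (D x) i).trans (hM x)
  have hc0 : ∀ l : Fin 3 → ℤ, (∀ i, |l i| + K < N) → ∀ i,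
      (∫ x in Dom, D x i * Real.cos (ph l x)) = 0 ∧
      (∫ x in Dom, D x i * Real.sin (ph l x)) = 0 := by
    intro l hl i
    have e1 := h l hl 0 i
    have e2 := h l hl (-(Real.pi / 2)) i
    simp only [add_zero, ← sub_eq_add_neg, Real.cos_sub_pi_div_two] at e1 e2
    constructor
    · have : ∀ x, D x i * Real.cos (ph l x)
          = v x i * Real.cos (ph l x) - W x i * Real.cos (ph l x) := by
        intro x; simp only [hD, Pi.sub_apply]; ring
      simp only [this]
      rw [integral_sub (int_mul_cos (hv.int i) l) (int_mul_cos (hW.int i) l), e1, sub_self]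
    · have : ∀ x, D x i * Real.sin (ph l x)
          = v x i * Real.sin (ph l x) - W x i * Real.sin (ph l x) := by
        intro x; simp only [hD, Pi.sub_apply]; ring
      simp only [this]
      rw [integral_sub (int_mul_sin (hv.int i) l) (int_mul_sin (hW.int i) l), e2, sub_self]
  intro S
  set av : (Fin 3 → ℤ) → Fin 3 → ℝ := fun l i =>
    (∫ x in Dom, D x i * Real.cos (ph l x)) ^ 2 + (∫ x in Dom, D x i * Real.sin (ph l x)) ^ 2
    with hav
  have hav0 : ∀ l i, 0 ≤ av l i := fun l i => by positivity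
  have hterm : ∀ l ∈ S, (1 + ∑ i, (l i : ℝ) ^ 2) ^ (-s) *
      ∑ i, (cosCoeff l (fun x => v x i - W x i) ^ 2 + sinCoeff l (fun x => v x i - W x i) ^ 2)
      ≤ (1 + ((N - K : ℕ) : ℝ) ^ 2) ^ (-s) * ∑ i, av l i := by
    intro l _
    have e : ∀ i, cosCoeff l (fun x => v x i - W x i) ^ 2
        + sinCoeff l (fun x => v x i - W x i) ^ 2 = av l i := by
      intro i
      have hp : Periodic3 (fun x => v x i - W x i) := comp_periodic hDp i
      rw [cosCoeff_eq hp, sinCoeff_eq hp]
      rfl
    simp only [e]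
    by_cases hfar : ∃ i, ((N - K : ℕ) : ℤ) ≤ |l i|
    · exact mul_le_mul_of_nonneg_right (wt_le hs hfar) (Finset.sum_nonneg fun i _ => hav0 l i)
    · push Not at hfar
      have hh : ∀ i, |l i| + K < N := by
        intro i
        have := hfar i
        have h0 := abs_nonneg (l i)
        omega
      have hz : ∑ i, av l i = 0 := by
        refine Finset.sum_eq_zero fun i _ => ?_
        obtain ⟨y1, y2⟩ := hc0 l hh i
        simp only [hav]
        rw [y1, y2]
        ring
      rw [hz]
      simp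
  refine (Finset.sum_le_sum hterm).trans ?_
  rw [← Finset.mul_sum, Finset.sum_comm]
  have b1 : ∑ i, ∑ l ∈ S, av l i ≤ 3 * (vol * (vol * M ^ 2)) := by
    have hb' : ∀ i, ∑ l ∈ S, av l i ≤ vol * (vol * M ^ 2) := by
      intro i
      refine (bessel (hD2 i) S).trans ?_
      gcongr
      have h1 : ‖∫ x in Dom, D x i ^ 2‖ ≤ M ^ 2 * (volume.real Dom) := by
        refine norm_setIntegral_le_of_norm_le_const dom_lt_top fun x _ => ?_
        rw [norm_pow]
        gcongr
        exact (norm_le_pi_norm (D x) i).trans (hM x)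
      have h2 := (le_abs_self _).trans h1
      calc ∫ x in Dom, D x i ^ 2 ≤ M ^ 2 * (volume.real Dom) := h2
        _ = vol * M ^ 2 := by rw [hvol, Measure.real]; ring
    calc ∑ i, ∑ l ∈ S, av l i ≤ ∑ _i : Fin 3, vol * (vol * M ^ 2) :=
          Finset.sum_le_sum fun i _ => hb' i
      _ = _ := by simp
  calc (1 + ((N - K : ℕ) : ℝ) ^ 2) ^ (-s) * ∑ i, ∑ l ∈ S, av l i
      ≤ (1 + ((N - K : ℕ) : ℝ) ^ 2) ^ (-s) * (3 * (vol * (vol * M ^ 2))) := by gcongr
    _ ≤ ε ^ 2 := w1

/-! ### the coefficients of trigonometric fields -/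

lemma trig_products (k l : Fin 3 → ℤ) :
    ∫ x in Dom, (Real.cos (ph k x) * Real.cos (ph l x))
      = ((if k - l = 0 then (volume Dom).toReal else 0)
        + (if k + l = 0 then (volume Dom).toReal else 0)) / 2 ∧
    ∫ x in Dom, (Real.sin (ph k x) * Real.cos (ph l x)) = 0 ∧
    ∫ x in Dom, (Real.cos (ph k x) * Real.sin (ph l x)) = 0 ∧
    ∫ x in Dom, (Real.sin (ph k x) * Real.sin (ph l x))
      = ((if k - l = 0 then (volume Dom).toReal else 0)
        - (if k + l = 0 then (volume Dom).toReal else 0)) / 2 := by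
  obtain ⟨K, hk, hl⟩ : ∃ K : ℕ, (∀ i, |k i| ≤ K) ∧ ∀ i, |l i| ≤ K := by
    refine ⟨(∑ i, (k i).natAbs) + ∑ i, (l i).natAbs, fun i => ?_, fun i => ?_⟩
    · have : (k i).natAbs ≤ ∑ i, (k i).natAbs :=
        Finset.single_le_sum (f := fun i => (k i).natAbs) (fun _ _ => Nat.zero_le _)
          (Finset.mem_univ i)
      rw [Int.abs_eq_natAbs]
      exact_mod_cast this.trans (Nat.le_add_right _ _)
    · have : (l i).natAbs ≤ ∑ i, (l i).natAbs :=
        Finset.single_le_sum (f := fun i => (l i).natAbs) (fun _ _ => Nat.zero_le _)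
          (Finset.mem_univ i)
      rw [Int.abs_eq_natAbs]
      exact_mod_cast this.trans (Nat.le_add_left _ _)
  have := (fine_one (N := 2 * K + 1)).products (K := K) (by omega) hk hl
  simpa only [one_mul] using this

lemma tf_cont (K : ℕ) (A B : (Fin 3 → ℤ) → V) : Continuous (tf K A B) := by
  unfold tf
  refine continuous_finsetSum _ fun k _ => ?_
  exact ((Real.continuous_cos.comp (ph_contDiff k).continuous).smul continuous_const).add
    ((Real.continuous_sin.comp (ph_contDiff k).continuous).smul continuous_const)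

lemma tf_per (K : ℕ) (A B : (Fin 3 → ℤ) → V) : Periodic3 (tf K A B) := by
  intro i x
  unfold tf
  refine Finset.sum_congr rfl fun k _ => ?_
  have h1 := cos_periodic k i x
  have h2 := sin_periodic k i x
  simp only at h1 h2
  rw [h1, h2]

lemma tf_coeff (K : ℕ) (A B : (Fin 3 → ℤ) → V) (l : Fin 3 → ℤ) (i : Fin 3) :
    (∫ x in Dom, tf K A B x i * Real.cos (ph l x)
      = if l ∈ Bx K then (volume Dom).toReal * ((A l i + A (-l) i) / 2) else 0) ∧
    (∫ x in Dom, tf K A B x i * Real.sin (ph l x)
      = if l ∈ Bx K then (volume Dom).toReal * ((B l i - B (-l) i) / 2) else 0) := by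
  classical
  set vol : ℝ := (volume Dom).toReal with hvol
  have cosc : ∀ k, Continuous (fun x => Real.cos (ph k x)) := fun k =>
    Real.continuous_cos.comp (ph_contDiff k).continuous
  have sinc : ∀ k, Continuous (fun x => Real.sin (ph k x)) := fun k =>
    Real.continuous_sin.comp (ph_contDiff k).continuous
  have hneg : ∀ {l : Fin 3 → ℤ}, -l ∈ Bx K ↔ l ∈ Bx K := by
    intro l
    simp only [mem_Bx, Pi.neg_apply, abs_neg]
  have sub0 : ∀ k : Fin 3 → ℤ, (k - l = 0) ↔ k = l := fun k => sub_eq_zero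
  have add0 : ∀ k : Fin 3 → ℤ, (k + l = 0) ↔ k = -l := fun k => add_eq_zero_iff_eq_neg
  have gen : ∀ (g : V → ℝ), Continuous g → Periodic3 g →
      ∫ x in Dom, tf K A B x i * g x
        = ∑ k ∈ Bx K, (A k i * (∫ x in Dom, Real.cos (ph k x) * g x)
          + B k i * ∫ x in Dom, Real.sin (ph k x) * g x) := by
    intro g hg hgp
    have e : ∀ x, tf K A B x i * g x = ∑ k ∈ Bx K, (A k i * (Real.cos (ph k x) * g x)
          + B k i * (Real.sin (ph k x) * g x)) := by
      intro x
      unfold tf
      rw [Finset.sum_apply, Finset.sum_mul]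
      refine Finset.sum_congr rfl fun k _ => ?_
      simp only [Pi.add_apply, Pi.smul_apply, smul_eq_mul]
      ring
    simp only [e]
    have i1 : ∀ k, IntegrableOn (fun x => Real.cos (ph k x) * g x) Dom := fun k =>
      (mul_per (cos_periodic k) hgp).integrableOn ((cosc k).mul hg)
    have i2 : ∀ k, IntegrableOn (fun x => Real.sin (ph k x) * g x) Dom := fun k =>
      (mul_per (sin_periodic k) hgp).integrableOn ((sinc k).mul hg)
    rw [integral_finsetSum]
    · refine Finset.sum_congr rfl fun k _ => ?_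
      rw [integral_add ((i1 k).const_mul _) ((i2 k).const_mul _), integral_const_mul,
        integral_const_mul]
    · intro k _
      exact ((i1 k).const_mul _).add ((i2 k).const_mul _)
  constructor
  · rw [gen _ (cosc l) (cos_periodic l)]
    have e : ∀ k ∈ Bx K, (A k i * (∫ x in Dom, Real.cos (ph k x) * Real.cos (ph l x))
          + B k i * ∫ x in Dom, Real.sin (ph k x) * Real.cos (ph l x))
        = (if k = l then vol * (A k i / 2) else 0) + (if k = -l then vol * (A k i / 2) else 0) := by
      intro k _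
      obtain ⟨p1, p2, -, -⟩ := trig_products k l
      rw [p1, p2]
      simp only [sub0, add0]
      split_ifs <;> ring
    rw [Finset.sum_congr rfl e, Finset.sum_add_distrib, Finset.sum_ite_eq', Finset.sum_ite_eq']
    simp only [hneg]
    split_ifs
    · ring
    · ring
  · rw [gen _ (sinc l) (sin_periodic l)]
    have e : ∀ k ∈ Bx K, (A k i * (∫ x in Dom, Real.cos (ph k x) * Real.sin (ph l x))
          + B k i * ∫ x in Dom, Real.sin (ph k x) * Real.sin (ph l x))
        = (if k = l then vol * (B k i / 2) else 0) + (if k = -l then -(vol * (B k i / 2)) else 0) := by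
      intro k _
      obtain ⟨-, -, p3, p4⟩ := trig_products k l
      rw [p3, p4]
      simp only [sub0, add0]
      split_ifs <;> ring
    rw [Finset.sum_congr rfl e, Finset.sum_add_distrib, Finset.sum_ite_eq', Finset.sum_ite_eq']
    simp only [hneg]
    split_ifs
    · ring
    · ring

/-! ### the projection orthogonal to `k` -/

/-- the orthogonal projection onto the complement of `k` (the identity for `k = 0`) -/
noncomputable def prj (k : Fin 3 → ℤ) (a : V) : V := a - (ph k a / ph k (rv k)) • rv k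

lemma prj_ph (k : Fin 3 → ℤ) (a : V) : ph k (prj k a) = 0 := by
  by_cases hk : k = 0
  · subst hk; exact ph_zero _
  · have h1 : ph k (rv k) ≠ 0 := by linarith [one_le_norm hk]
    have e : ph k (prj k a) = ph k a - ph k a / ph k (rv k) * ph k (rv k) := by
      unfold prj
      rw [← phL_apply, map_sub, map_smul, phL_apply, phL_apply, smul_eq_mul]
    rw [e]
    field_simp
    ring

lemma prj_self {k : Fin 3 → ℤ} {a : V} (h : ph k a = 0) : prj k a = a := by
  unfold prj; rw [h]; simp

lemma prj_sub (k : Fin 3 → ℤ) (a b : V) : prj k (a - b) = prj k a - prj k b := by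
  unfold prj
  have : ph k (a - b) = ph k a - ph k b := by
    rw [← phL_apply, map_sub, phL_apply, phL_apply]
  rw [this, sub_div, sub_smul]
  abel

lemma prj_bound (k : Fin 3 → ℤ) : ∃ C : ℝ, 0 ≤ C ∧ ∀ a, ‖prj k a‖ ≤ C * ‖a‖ := by
  refine ⟨1 + ‖phL k‖ / |ph k (rv k)| * ‖rv k‖, by positivity, fun a => ?_⟩
  unfold prj
  refine (norm_sub_le _ _).trans ?_
  rw [norm_smul, Real.norm_eq_abs, abs_div, add_mul, one_mul]
  refine add_le_add le_rfl ?_
  have h1 : |ph k a| ≤ ‖phL k‖ * ‖a‖ := by
    rw [← phL_apply]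
    exact (phL k).le_opNorm a
  calc |ph k a| / |ph k (rv k)| * ‖rv k‖ ≤ (‖phL k‖ * ‖a‖) / |ph k (rv k)| * ‖rv k‖ := by gcongr
    _ = _ := by ring

end Pool.Agent.K3h70.EP
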