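import Pool.Agent.K3h70.EP.Close

/-!
# The main approximation theorem
-/

set_option autoImplicit false

open MeasureTheory Set Filter Topology
open scoped ENNReal NNReal ContDiff

namespace Pool.Agent.K3h70.EP

open Pool.Agent.H708R2.EulerSign Pool.Agent.H708R2.EulerModes
open Pool.Agent.R739.ET

/-- Closeness of a trigonometric field to a square-integrable field. -/
lemma hneg_tf {u : V → V} (hper : Periodic3 u) (hL2 : MemLp u 2 (volume.restrict cube))
    {E : ℝ} (hE : ∑ i, ∫ x in Dom, (u x i) ^ 2 ≤ E) {K : ℕ} {A B : (Fin 3 → ℤ) → V} {η : ℝ}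
    (hη : ∀ l ∈ Bx K, ∀ i,
      |(∫ x in Dom, tf K A B x i * Real.cos (ph l x)) - ∫ x in Dom, u x i * Real.cos (ph l x)| ≤ η ∧
      |(∫ x in Dom, tf K A B x i * Real.sin (ph l x)) - ∫ x in Dom, u x i * Real.sin (ph l x)| ≤ η)
    {s ε : ℝ} (hs : 0 < s) (w1 : ((Bx K).card : ℝ) * (3 * (2 * η ^ 2)) ≤ ε ^ 2 / 2)
    (w2 : (1 + (K : ℝ) ^ 2) ^ (-s) * ((volume Dom).toReal * E) ≤ ε ^ 2 / 2) :
    HNegClose s ε (tf K A B) u := by
  classical
  have hu2 := memLp_dom hper hL2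
  have hu := Fld.of_memLp hper hL2
  have ht := Fld.of_cont (tf_per K A B) (tf_cont K A B)
  set vol : ℝ := (volume Dom).toReal with hvol
  have hvol0 : 0 < vol := vol_pos
  intro S
  set au : (Fin 3 → ℤ) → Fin 3 → ℝ := fun l i =>
    (∫ x in Dom, u x i * Real.cos (ph l x)) ^ 2 + (∫ x in Dom, u x i * Real.sin (ph l x)) ^ 2
    with hau
  have hau0 : ∀ l i, 0 ≤ au l i := fun l i => by positivity
  have hterm : ∀ l ∈ S, (1 + ∑ i, (l i : ℝ) ^ 2) ^ (-s) *
      ∑ i, (cosCoeff l (fun x => tf K A B x i - u x i) ^ 2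
        + sinCoeff l (fun x => tf K A B x i - u x i) ^ 2)
      ≤ (if l ∈ Bx K then 3 * (2 * η ^ 2) else 0)
        + (1 + (K : ℝ) ^ 2) ^ (-s) * ∑ i, au l i := by
    intro l _
    have hc : ∀ i, cosCoeff l (fun x => tf K A B x i - u x i)
        = (∫ x in Dom, tf K A B x i * Real.cos (ph l x)) - ∫ x in Dom, u x i * Real.cos (ph l x) :=
      fun i => cosCoeff_sub (comp_periodic ht.per i) (comp_periodic hu.per i) (ht.int i)
        (hu.int i) l
    have hsn : ∀ i, sinCoeff l (fun x => tf K A B x i - u x i)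
        = (∫ x in Dom, tf K A B x i * Real.sin (ph l x)) - ∫ x in Dom, u x i * Real.sin (ph l x) :=
      fun i => sinCoeff_sub (comp_periodic ht.per i) (comp_periodic hu.per i) (ht.int i)
        (hu.int i) l
    have hw0 : 0 ≤ (1 + ∑ i, (l i : ℝ) ^ 2) ^ (-s) := by positivity
    have hsum0 : 0 ≤ ∑ i, au l i := Finset.sum_nonneg fun i _ => hau0 l i
    by_cases hl : l ∈ Bx K
    · rw [if_pos hl]
      have hw1 : (1 + ∑ i, (l i : ℝ) ^ 2) ^ (-s) ≤ 1 := by
        apply Real.rpow_le_one_of_one_le_of_nonpos _ (by linarith)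
        have : 0 ≤ ∑ i, (l i : ℝ) ^ 2 := Finset.sum_nonneg fun i _ => sq_nonneg _
        linarith
      have hb : ∑ i, (cosCoeff l (fun x => tf K A B x i - u x i) ^ 2
          + sinCoeff l (fun x => tf K A B x i - u x i) ^ 2) ≤ 3 * (2 * η ^ 2) := by
        calc ∑ i, (cosCoeff l (fun x => tf K A B x i - u x i) ^ 2
            + sinCoeff l (fun x => tf K A B x i - u x i) ^ 2) ≤ ∑ _i : Fin 3, 2 * η ^ 2 := by
              refine Finset.sum_le_sum fun i _ => ?_
              obtain ⟨e1, e2⟩ := hη l hl i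
              rw [hc, hsn]
              have f1 := sq_le_sq' (by linarith [(abs_le.1 e1).1]) (abs_le.1 e1).2
              have f2 := sq_le_sq' (by linarith [(abs_le.1 e2).1]) (abs_le.1 e2).2
              linarith
          _ = _ := by simp
      have hsq : 0 ≤ ∑ i, (cosCoeff l (fun x => tf K A B x i - u x i) ^ 2
          + sinCoeff l (fun x => tf K A B x i - u x i) ^ 2) :=
        Finset.sum_nonneg fun i _ => by positivity
      have h2 : 0 ≤ (1 + (K : ℝ) ^ 2) ^ (-s) * ∑ i, au l i := by positivity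
      calc (1 + ∑ i, (l i : ℝ) ^ 2) ^ (-s) * ∑ i, (cosCoeff l (fun x => tf K A B x i - u x i) ^ 2
          + sinCoeff l (fun x => tf K A B x i - u x i) ^ 2)
          ≤ 1 * (3 * (2 * η ^ 2)) := mul_le_mul hw1 hb hsq zero_le_one
        _ ≤ _ := by linarith
    · rw [if_neg hl, zero_add]
      have hbig : ∃ i, ((K : ℕ) : ℤ) ≤ |l i| := by
        rw [mem_Bx] at hl
        push Not at hl
        obtain ⟨i, hi⟩ := hl
        exact ⟨i, hi.le⟩
      have e : ∀ i, cosCoeff l (fun x => tf K A B x i - u x i) ^ 2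
          + sinCoeff l (fun x => tf K A B x i - u x i) ^ 2 = au l i := by
        intro i
        obtain ⟨f1, f2⟩ := tf_coeff K A B l i
        rw [if_neg hl] at f1 f2
        rw [hc, hsn, f1, f2]
        simp only [hau]
        ring
      simp only [e]
      exact mul_le_mul_of_nonneg_right (wt_le hs hbig) hsum0
  refine (Finset.sum_le_sum hterm).trans ?_
  rw [Finset.sum_add_distrib, ← Finset.mul_sum, Finset.sum_comm]
  have b1 : ∑ l ∈ S, (if l ∈ Bx K then 3 * (2 * η ^ 2) else 0)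
      ≤ ((Bx K).card : ℝ) * (3 * (2 * η ^ 2)) := by
    rw [← Finset.sum_filter, Finset.sum_const, nsmul_eq_mul]
    have : (Finset.filter (fun l => l ∈ Bx K) S).card ≤ (Bx K).card :=
      Finset.card_le_card fun l hl => (Finset.mem_filter.1 hl).2
    have h2 : ((Finset.filter (fun l => l ∈ Bx K) S).card : ℝ) ≤ (Bx K).card := by
      exact_mod_cast this
    gcongr
  have b2 : ∑ i, ∑ l ∈ S, au l i ≤ vol * E := by
    calc ∑ i, ∑ l ∈ S, au l i ≤ ∑ i, vol * ∫ x in Dom, (u x i) ^ 2 :=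
          Finset.sum_le_sum fun i _ => bessel (memLp_comp hu2 i) S
      _ = vol * ∑ i, ∫ x in Dom, (u x i) ^ 2 := by rw [Finset.mul_sum]
      _ ≤ vol * E := by gcongr
  have b3 : (1 + (K : ℝ) ^ 2) ^ (-s) * ∑ i, ∑ l ∈ S, au l i
      ≤ (1 + (K : ℝ) ^ 2) ^ (-s) * (vol * E) := by gcongr
  linarith

lemma TrigPoly.congr {f g : ℝ → ℝ} (hf : TrigPoly f) (h : ∀ t, g t = f t) : TrigPoly g := by
  have : g = f := funext h
  rw [this]; exact hf

/-- The trigonometric fields of a path with trigonometric coefficients are bounded. -/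
lemma tf_bounded (K : ℕ) {A B : ℝ → (Fin 3 → ℤ) → V}
    (hA : ∀ k ∈ Bx K, ∀ i, TrigPoly (fun t => A t k i))
    (hB : ∀ k ∈ Bx K, ∀ i, TrigPoly (fun t => B t k i)) :
    ∃ M : ℝ, 0 ≤ M ∧ ∀ t x, ‖tf K (A t) (B t) x‖ ≤ M := by
  have h1 : ∀ k ∈ Bx K, ∃ C, 0 ≤ C ∧ ∀ t, ‖A t k‖ ≤ C ∧ ‖B t k‖ ≤ C := by
    intro k hk
    choose a ha0 ha using fun i => (hA k hk i).bounded
    choose b hb0 hb using fun i => (hB k hk i).bounded
    refine ⟨∑ i, (a i + b i), Finset.sum_nonneg fun i _ => add_nonneg (ha0 i) (hb0 i),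
      fun t => ⟨?_, ?_⟩⟩
    · rw [pi_norm_le_iff_of_nonneg (Finset.sum_nonneg fun i _ => add_nonneg (ha0 i) (hb0 i))]
      intro i
      refine (ha i t).trans ?_
      refine le_trans ?_ (Finset.single_le_sum (f := fun i => a i + b i)
        (fun i _ => add_nonneg (ha0 i) (hb0 i)) (Finset.mem_univ i))
      linarith [hb0 i]
    · rw [pi_norm_le_iff_of_nonneg (Finset.sum_nonneg fun i _ => add_nonneg (ha0 i) (hb0 i))]
      intro i
      refine (hb i t).trans ?_
      refine le_trans ?_ (Finset.single_le_sum (f := fun i => a i + b i)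
        (fun i _ => add_nonneg (ha0 i) (hb0 i)) (Finset.mem_univ i))
      linarith [ha0 i]
  choose! C hC0 hC using h1
  refine ⟨∑ k ∈ Bx K, (C k + C k), Finset.sum_nonneg fun k hk => by
    have := hC0 k hk; positivity, fun t x => ?_⟩
  unfold tf
  refine (norm_sum_le _ _).trans (Finset.sum_le_sum fun k hk => ?_)
  refine (norm_add_le _ _).trans (add_le_add ?_ ?_)
  · rw [norm_smul, Real.norm_eq_abs]
    calc |Real.cos (ph k x)| * ‖A t k‖ ≤ 1 * C k :=
          mul_le_mul (Real.abs_cos_le_one _) (hC k hk t).1 (norm_nonneg _) zero_le_one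
      _ = C k := one_mul _
  · rw [norm_smul, Real.norm_eq_abs]
    calc |Real.sin (ph k x)| * ‖B t k‖ ≤ 1 * C k :=
          mul_le_mul (Real.abs_sin_le_one _) (hC k hk t).2 (norm_nonneg _) zero_le_one
      _ = C k := one_mul _

/-- choice of the scale -/
lemma exists_scale {s : ℝ} (hs : 1 < s) {C M : ℝ} (hC : 0 ≤ C) (hM : 0 ≤ M) {ε : ℝ} (hε : 0 < ε)
    (K : ℕ) : ∃ N : ℕ, 2 * K < N ∧ (1 + ((N - K : ℕ) : ℝ) ^ 2) ^ (-s) *
      (3 * ((volume Dom).toReal * ((volume Dom).toReal * (C * N + M) ^ 2))) ≤ ε ^ 2 := by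
  set vol : ℝ := (volume Dom).toReal with hvol
  have hvol0 : 0 < vol := vol_pos
  set Q : ℝ := 3 * (vol * (vol * (2 * C + M) ^ 2)) with hQ
  have hQ0 : 0 ≤ Q := by positivity
  obtain ⟨n₀, hn⟩ := exists_pow_le (s - 1) (by linarith) Q (ε ^ 2) (by positivity)
  set n : ℕ := n₀ + K + 1 with hnn
  refine ⟨n + K, by omega, ?_⟩
  have e : n + K - K = n := by omega
  rw [e]
  have h1 := hn n (by omega)
  have hn1 : (1 : ℝ) ≤ n := by
    have : 1 ≤ n := by omega
    exact_mod_cast this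
  have hNn : ((n + K : ℕ) : ℝ) ≤ 2 * n := by
    have : n + K ≤ 2 * n := by omega
    exact_mod_cast this
  have h2 : C * ((n + K : ℕ) : ℝ) + M ≤ (2 * C + M) * n := by
    have a1 : C * ((n + K : ℕ) : ℝ) ≤ C * (2 * n) := by gcongr
    have a2 : M ≤ M * n := le_mul_of_one_le_right hM hn1
    nlinarith
  have h0 : 0 ≤ C * ((n + K : ℕ) : ℝ) + M := by positivity
  have h3 : (C * ((n + K : ℕ) : ℝ) + M) ^ 2 ≤ (2 * C + M) ^ 2 * (1 + (n : ℝ) ^ 2) := by
    calc (C * ((n + K : ℕ) : ℝ) + M) ^ 2 ≤ ((2 * C + M) * n) ^ 2 := by gcongr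
      _ = (2 * C + M) ^ 2 * (n : ℝ) ^ 2 := by ring
      _ ≤ (2 * C + M) ^ 2 * (1 + (n : ℝ) ^ 2) := by
          gcongr
          linarith
  have h4 : (1 + (n : ℝ) ^ 2) ^ (-s) * (1 + (n : ℝ) ^ 2) = (1 + (n : ℝ) ^ 2) ^ (-(s - 1)) := by
    have hp : 0 < 1 + (n : ℝ) ^ 2 := by positivity
    have : -(s - 1) = -s + 1 := by ring
    rw [this, Real.rpow_add hp, Real.rpow_one]
  calc (1 + (n : ℝ) ^ 2) ^ (-s) * (3 * (vol * (vol * (C * ((n + K : ℕ) : ℝ) + M) ^ 2)))
      ≤ (1 + (n : ℝ) ^ 2) ^ (-s) * (3 * (vol * (vol * ((2 * C + M) ^ 2 * (1 + (n : ℝ) ^ 2))))) := by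
        gcongr
    _ = ((1 + (n : ℝ) ^ 2) ^ (-s) * (1 + (n : ℝ) ^ 2)) * Q := by rw [hQ]; ring
    _ = (1 + (n : ℝ) ^ 2) ^ (-(s - 1)) * Q := by rw [h4]
    _ ≤ ε ^ 2 := h1

theorem core {u : ℝ → V → V} {I J : Set ℝ} (hJI : J ⊆ I) {T : ℝ} (hT : 0 < T)
    (hJ : J ⊆ Icc (-T) T) {S : Finset ℝ} (hSI : ∀ t ∈ S, t ∈ I) (hST : ∀ t ∈ S, t ∈ Icc (-T) T)
    (hper : ∀ t ∈ I, Periodic3 (u t)) (hL2 : ∀ t ∈ I, MemLp (u t) 2 (volume.restrict cube))
    (hdiv : ∀ t ∈ I, WeakDivFree (u t)) {E : ℝ}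
    (hE : ∀ t ∈ J, ∑ i, ∫ x in Dom, (u t x i) ^ 2 ≤ E)
    {a b : (Fin 3 → ℤ) → Fin 3 → ℝ → ℝ} (ha : ∀ l i, Continuous (a l i))
    (hb : ∀ l i, Continuous (b l i))
    (hau : ∀ t ∈ I, ∀ l i, ∫ x in Dom, u t x i * Real.cos (ph l x) = a l i t)
    (hbu : ∀ t ∈ I, ∀ l i, ∫ x in Dom, u t x i * Real.sin (ph l x) = b l i t)
    (hmean : ∀ t ∈ I, ∀ i, a 0 i t = a 0 i 0) (K : ℕ) {s ε : ℝ} (hs : 1 < s) (hε : 0 < ε) :
    ∃ (v : ℝ → V → V) (p : V → ℝ), Eul v p ∧ QP v ∧ (∀ t ∈ S, SameModes K (v t) (u t)) ∧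
      (∀ t ∈ J, HNegClose s ε (v t) (u t)) ∧
      ((∀ l ∈ Bx K, ∀ i, TrigPoly (a l i) ∧ TrigPoly (b l i)) →
        ∀ t ∈ I, SameModes K (v t) (u t)) := by
  classical
  have hs0 : 0 < s := by linarith
  set vol : ℝ := (volume Dom).toReal with hvol
  have hvol0 : 0 < vol := vol_pos
  obtain ⟨K₁, hK₁⟩ := exists_pow_le s hs0 (vol * E) ((ε / 2) ^ 2 / 2) (by positivity)
  set K' := max K K₁ with hK'
  have hKK' : K ≤ K' := le_max_left _ _
  have hBx : ∀ l, l ∈ Bx K → l ∈ Bx K' := by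
    intro l hl
    rw [mem_Bx] at hl ⊢
    intro i
    refine (hl i).trans ?_
    exact_mod_cast hKK'
  have hBneg : ∀ (n : ℕ) (l : Fin 3 → ℤ), l ∈ Bx n → -l ∈ Bx n := by
    intro n l hl
    rw [mem_Bx] at hl ⊢
    intro i
    simp only [Pi.neg_apply, abs_neg]
    exact hl i
  choose Cp hCp0 hCp using prj_bound
  set Cm : ℝ := ∑ k ∈ Bx K', Cp k + 1 with hCm
  have hCm1 : ∀ k ∈ Bx K', Cp k ≤ Cm := by
    intro k hk
    have := Finset.single_le_sum (f := Cp) (fun k _ => hCp0 k) hk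
    linarith
  have hCm0 : 0 < Cm := by
    have : 0 ≤ ∑ k ∈ Bx K', Cp k := Finset.sum_nonneg fun k _ => hCp0 k
    linarith
  set m : ℝ := ((Bx K').card : ℝ) with hm
  have hm0 : 0 ≤ m := by positivity
  set ε₁ : ℝ := ε / 2 / (4 * Cm * (m + 1)) with hε₁
  have hε₁0 : 0 < ε₁ := by positivity
  choose g hg1 hg2 hg3 hg4 using fun (l : Fin 3 → ℤ) i => exists_trigPoly' (ha l i) hT hε₁0 hST
  choose h hh1 hh2 hh3 hh4 using fun (l : Fin 3 → ℤ) i => exists_trigPoly' (hb l i) hT hε₁0 hST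
  -- the approximating path
  set A : ℝ → (Fin 3 → ℤ) → V := fun t k =>
    if k = 0 then vol⁻¹ • (fun i => a 0 i 0) else vol⁻¹ • prj k (fun i => g k i t) with hA
  set B : ℝ → (Fin 3 → ℤ) → V := fun t k => vol⁻¹ • prj k (fun i => h k i t) with hB
  have hprjT : ∀ (k : Fin 3 → ℤ) (f : Fin 3 → ℝ → ℝ), (∀ i, TrigPoly (f i)) →
      ∀ i, TrigPoly (fun t => (vol⁻¹ • prj k (fun i => f i t)) i) := by
    intro k f hf i
    have h1 : TrigPoly (fun t => ∑ j, (k j : ℝ) * f j t) :=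
      TrigPoly.sum _ fun j _ => (hf j).const_mul _
    refine (((hf i).const_mul vol⁻¹).add (h1.const_mul (-(vol⁻¹ * (rv k i / ph k (rv k)))))).congr
      fun t => ?_
    simp only [prj, Pi.smul_apply, Pi.sub_apply, smul_eq_mul]
    have : ph k (fun i => f i t) = ∑ j, (k j : ℝ) * f j t := rfl
    rw [this]
    ring
  have hAT : ∀ k ∈ Bx K', ∀ i, TrigPoly (fun t => A t k i) := by
    intro k _ i
    by_cases hk : k = 0
    · simp only [hA, hk, if_true]
      exact TrigPoly.const _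
    · simp only [hA, hk, if_false]
      exact hprjT k (g k) (hg1 k) i
  have hBT : ∀ k ∈ Bx K', ∀ i, TrigPoly (fun t => B t k i) := fun k _ i =>
    hprjT k (h k) (hh1 k) i
  have hphs : ∀ (k : Fin 3 → ℤ) (y : V), ph k (vol⁻¹ • prj k y) = 0 := by
    intro k y; rw [ph_smul, prj_ph, mul_zero]
  have hAo : ∀ k ∈ Bx K', ∀ t, ph k (A t k) = 0 := by
    intro k _ t
    by_cases hk : k = 0
    · subst hk; exact ph_zero _
    · simp only [hA, hk, if_false]
      exact hphs _ _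
  have hBo : ∀ k ∈ Bx K', ∀ t, ph k (B t k) = 0 := fun k _ t => hphs _ _
  have hA0 : ∀ t, A t 0 = A 0 0 := fun t => by simp only [hA, if_true]
  obtain ⟨C, hC0, hC⟩ := realize (rs_tf K' hAT hBT hAo hBo hA0)
  obtain ⟨M, hM0, hM⟩ := tf_bounded K' hAT hBT
  obtain ⟨N, hN, hNw⟩ := exists_scale hs hC0 hM0 (half_pos hε) K'
  obtain ⟨v, p, hE1, hQ, hvb, hvm⟩ := hC N hN
  -- comparison of the coefficients
  have horthA : ∀ t ∈ I, ∀ l, ph l (fun i => a l i t) = 0 := by
    intro t ht l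
    have h1 := (ph_coeff (hper t ht) (hL2 t ht) (hdiv t ht) l).1
    simp only [hau t ht] at h1
    exact h1
  have horthB : ∀ t ∈ I, ∀ l, ph l (fun i => b l i t) = 0 := by
    intro t ht l
    have h1 := (ph_coeff (hper t ht) (hL2 t ht) (hdiv t ht) l).2
    simp only [hbu t ht] at h1
    exact h1
  have hsymA : ∀ t ∈ I, ∀ l i, a (-l) i t = a l i t := by
    intro t ht l i
    rw [← hau t ht, ← hau t ht]
    simp only [ph_neg, Real.cos_neg]
  have hsymB : ∀ t ∈ I, ∀ l i, b (-l) i t = -b l i t := by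
    intro t ht l i
    rw [← hbu t ht, ← hbu t ht]
    simp only [ph_neg, Real.sin_neg, mul_neg]
    exact integral_neg _
  have hexA : ∀ t ∈ I, ∀ l, (∀ i, g l i t = a l i t) → ∀ i, vol * A t l i = a l i t := by
    intro t ht l hgl i
    by_cases hl : l = 0
    · subst hl
      simp only [hA, if_true, Pi.smul_apply, smul_eq_mul]
      rw [hmean t ht i]
      field_simp
    · simp only [hA, hl, if_false, Pi.smul_apply, smul_eq_mul, hgl]
      rw [prj_self (horthA t ht l)]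
      field_simp
  have hexB : ∀ t ∈ I, ∀ l, (∀ i, h l i t = b l i t) → ∀ i, vol * B t l i = b l i t := by
    intro t ht l hgl i
    simp only [hB, Pi.smul_apply, smul_eq_mul, hgl]
    rw [prj_self (horthB t ht l)]
    field_simp
  have happ : ∀ (l : Fin 3 → ℤ), l ∈ Bx K' → ∀ (y z : V), ph l z = 0 → ‖y - z‖ ≤ ε₁ →
      ∀ i, |vol * (vol⁻¹ • prj l y) i - z i| ≤ Cm * ε₁ := by
    intro l hl y z hz hyz i
    have e : vol * (vol⁻¹ • prj l y) i - z i = prj l (y - z) i := by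
      rw [prj_sub, prj_self hz]
      simp only [Pi.smul_apply, smul_eq_mul, Pi.sub_apply]
      field_simp
    rw [e]
    calc |prj l (y - z) i| ≤ ‖prj l (y - z)‖ := by
          rw [← Real.norm_eq_abs]; exact norm_le_pi_norm (prj l (y - z)) i
      _ ≤ Cp l * ‖y - z‖ := hCp l _
      _ ≤ Cm * ε₁ := mul_le_mul (hCm1 l hl) hyz (norm_nonneg _) hCm0.le
  have hapA : ∀ t ∈ J, ∀ l ∈ Bx K', ∀ i, |vol * A t l i - a l i t| ≤ Cm * ε₁ := by
    intro t ht l hl i
    by_cases hl0 : l = 0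
    · subst hl0
      have : vol * A t 0 i - a 0 i t = 0 := by
        simp only [hA, if_true, Pi.smul_apply, smul_eq_mul]
        rw [hmean t (hJI ht) i]
        field_simp
        ring
      rw [this, abs_zero]
      positivity
    · simp only [hA, hl0, if_false]
      refine happ l hl _ _ (horthA t (hJI ht) l) ?_ i
      rw [pi_norm_le_iff_of_nonneg hε₁0.le]
      intro i
      exact hg3 l i t (hJ ht)
  have hapB : ∀ t ∈ J, ∀ l ∈ Bx K', ∀ i, |vol * B t l i - b l i t| ≤ Cm * ε₁ := by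
    intro t ht l hl i
    simp only [hB]
    refine happ l hl _ _ (horthB t (hJI ht) l) ?_ i
    rw [pi_norm_le_iff_of_nonneg hε₁0.le]
    intro i
    exact hh3 l i t (hJ ht)
  -- the modes of `v`
  have hvc : ∀ t, Continuous (v t) := fun t =>
    hE1.joint.continuous.comp (Continuous.prodMk continuous_const continuous_id)
  have hvmode : ∀ t, ∀ l ∈ Bx K', ∀ i,
      ∫ x in Dom, v t x i * Real.cos (ph l x) = vol * ((A t l i + A t (-l) i) / 2) ∧
      ∫ x in Dom, v t x i * Real.sin (ph l x) = vol * ((B t l i - B t (-l) i) / 2) := by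
    intro t l hl i
    have hl' := mem_Bx.1 hl
    have hlN : ∀ i, |l i| + K' < N := by
      intro i
      have := hl' i
      omega
    have e1 := hvm t l hlN 0 i
    have e2 := hvm t l hlN (-(Real.pi / 2)) i
    simp only [add_zero, ← sub_eq_add_neg, Real.cos_sub_pi_div_two] at e1 e2
    obtain ⟨f1, f2⟩ := tf_coeff K' (A t) (B t) l i
    rw [if_pos hl] at f1 f2
    exact ⟨e1.trans f1, e2.trans f2⟩
  have hsame : ∀ t ∈ I, (∀ l ∈ Bx K, (∀ i, g l i t = a l i t) ∧ ∀ i, h l i t = b l i t) →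
      SameModes K (v t) (u t) := by
    intro t ht hgh l hl i
    have hl' : l ∈ Bx K := mem_Bx.2 hl
    rw [cosCoeff_eq (comp_periodic (hE1.per t) i), cosCoeff_eq (comp_periodic (hper t ht) i),
      sinCoeff_eq (comp_periodic (hE1.per t) i), sinCoeff_eq (comp_periodic (hper t ht) i),
      hau t ht, hbu t ht]
    obtain ⟨e1, e2⟩ := hvmode t l (hBx l hl') i
    have n := hBneg K l hl'
    have a1 := hexA t ht l (hgh l hl').1 i
    have a2 := hexA t ht (-l) (hgh _ n).1 i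
    have b1 := hexB t ht l (hgh l hl').2 i
    have b2 := hexB t ht (-l) (hgh _ n).2 i
    rw [hsymA t ht] at a2
    rw [hsymB t ht] at b2
    rw [e1, e2]
    constructor
    · linarith
    · linarith
  refine ⟨v, p, hE1, hQ, ?_, ?_, ?_⟩
  · exact fun t ht => hsame t (hSI t ht) fun l _ => ⟨fun i => hg2 l i t ht, fun i => hh2 l i t ht⟩
  · intro t ht
    have htI := hJI ht
    have c1 : HNegClose s (ε / 2) (v t) (tf K' (A t) (B t)) := by
      refine hneg_eqv (hE1.per t) (hvc t) (tf_per _ _ _) (tf_cont _ _ _) (hvm t) hs0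
        (M := C * N + M) (fun x => ?_) hNw
      exact (norm_sub_le _ _).trans (add_le_add (hvb t x) (hM t x))
    have c2 : HNegClose s (ε / 2) (tf K' (A t) (B t)) (u t) := by
      refine hneg_tf (hper t htI) (hL2 t htI) (hE t ht) (η := Cm * ε₁) ?_ hs0 ?_ ?_
      · intro l hl i
        obtain ⟨f1, f2⟩ := tf_coeff K' (A t) (B t) l i
        rw [if_pos hl] at f1 f2
        rw [f1, f2, hau t htI, hbu t htI]
        have n := hBneg K' l hl
        have a1 := hapA t ht l hl i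
        have a2 := hapA t ht (-l) n i
        have b1 := hapB t ht l hl i
        have b2 := hapB t ht (-l) n i
        rw [hsymA t htI] at a2
        rw [hsymB t htI] at b2
        rw [abs_le] at a1 a2 b1 b2 ⊢
        rw [abs_le]
        refine ⟨⟨?_, ?_⟩, ⟨?_, ?_⟩⟩
        · linarith [a1.1, a2.1]
        · linarith [a1.2, a2.2]
        · linarith [b1.1, b2.2]
        · linarith [b1.2, b2.1]
      · have e1 : Cm * ε₁ = ε / 2 / (4 * (m + 1)) := by
          rw [hε₁]; field_simp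
        have e2 : m * (3 * (2 * (Cm * ε₁) ^ 2)) = (ε / 2) ^ 2 * (6 * m / (16 * (m + 1) ^ 2)) := by
          rw [e1]; field_simp; ring
        rw [e2]
        have e3 : 6 * m / (16 * (m + 1) ^ 2) ≤ 1 / 2 := by
          rw [div_le_div_iff₀ (by positivity) (by norm_num)]
          nlinarith
        calc (ε / 2) ^ 2 * (6 * m / (16 * (m + 1) ^ 2)) ≤ (ε / 2) ^ 2 * (1 / 2) := by gcongr
          _ = (ε / 2) ^ 2 / 2 := by ring
      · exact hK₁ K' (le_max_right K K₁)
    exact HNegClose.tri (Fld.of_cont (hE1.per t) (hvc t))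
      (Fld.of_cont (tf_per _ _ _) (tf_cont _ _ _)) (Fld.of_memLp (hper t htI) (hL2 t htI)) c1 c2
  · intro hT1 t ht
    refine hsame t ht fun l hl => ⟨fun i => ?_, fun i => ?_⟩
    · rw [hg4 l i (hT1 l hl i).1]
    · rw [hh4 l i (hT1 l hl i).2]

end Pool.Agent.K3h70.EP
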