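import Pool.Agent.K3h70.EP.Tube

/-!
# The rotating dipole flow in a family of thin tubes
-/

set_option autoImplicit false

open MeasureTheory Set Filter Topology
open scoped ENNReal NNReal ContDiff

namespace Pool.Agent.K3h70.EP

open Pool.Agent.H708R2.EulerSign Pool.Agent.H708R2.EulerModes
open Pool.Agent.R739.ET

/-- A smooth solution of the Euler equations for all times with a pressure independent of time. -/
structure Eul (v : ℝ → V → V) (p : V → ℝ) : Prop where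
  joint : ContDiff ℝ ∞ (fun z : ℝ × V => v z.1 z.2)
  psm : ContDiff ℝ ∞ p
  per : ∀ t, Periodic3 (v t)
  pper : Periodic3 p
  div : ∀ t x, divergence (v t) x = 0
  mom : ∀ t x i, deriv (fun s => v s x i) t + fderiv ℝ (v t) x (v t x) i
    = - fderiv ℝ p x (Pi.single i 1)

/-- The data of a family of tubes. -/
structure TD where
  a : Fin 3 → ℤ
  b : Fin 3 → ℤ
  ξ : Fin 3 → ℤ
  c : V
  δ : ℝ
  Ω : ℝ
  ψ : ℝ
  φ : ℝ

namespace TD

variable (D : TD)

/-- `|a|²` -/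
noncomputable def A : ℝ := ph D.a (rv D.a)
/-- `|b|²` -/
noncomputable def B : ℝ := ph D.b (rv D.b)
/-- the strength of the swirl -/
noncomputable def om : ℝ := D.Ω / (√D.A * √D.B)
/-- the ratio of the axes -/
noncomputable def ρ : ℝ := √D.A / √D.B

/-- The conditions on the data. -/
structure Ok : Prop where
  hA : 1 ≤ D.A
  hB : 1 ≤ D.B
  hab : ph D.a (rv D.b) = 0
  hba : ph D.b (rv D.a) = 0
  haξ : ph D.a (rv D.ξ) = 0
  hbξ : ph D.b (rv D.ξ) = 0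
  hδ0 : 0 < D.δ
  hδ1 : D.δ ≤ 1

/-- the first coefficient of the dipole -/
noncomputable def ct (t : ℝ) : ℝ := Real.cos (D.Ω * t + D.ψ)
/-- the second coefficient of the dipole -/
noncomputable def st (t : ℝ) : ℝ := D.ρ * Real.sin (D.Ω * t + D.ψ)

/-- the dipole -/
noncomputable def gg (t : ℝ) (y : V) : ℝ :=
  (D.ct t * y 0 + D.st t * y 1) * pA (D.δ / 2) (qr D.A D.B y)

/-- the components of the swirl -/
noncomputable def sw (i : Fin 3) (y : V) : ℝ :=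
  (D.om * (-(y 1 * D.a i) + y 0 * D.b i)) * chi D.δ (qr D.A D.B y)

/-- `cos (y₀ / N)` times the dipole -/
noncomputable def F1 (N : ℕ) (t : ℝ) (y : V) : ℝ := Real.cos (y 0 / N) * D.gg t y
/-- `sin (y₀ / N)` times the dipole -/
noncomputable def F2 (N : ℕ) (t : ℝ) (y : V) : ℝ := Real.sin (y 0 / N) * D.gg t y

/-- the flow -/
noncomputable def vel (N : ℕ) (lam t : ℝ) (x : V) : V := fun i =>
  (N : ℝ)⁻¹ * D.sw i (yc D.a D.b D.c N x) +
    lam * N * (Real.cos (ph D.a x + D.φ) * D.F1 N t (yc D.a D.b D.c N x)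
      + Real.sin (ph D.a x + D.φ) * D.F2 N t (yc D.a D.b D.c N x)) * D.ξ i

/-- the profile of the pressure -/
noncomputable def prs (y : V) : ℝ :=
  1 * (D.om ^ 2 / 2 * prim D.δ (fun R => chi D.δ R * chi D.δ R) (qr D.A D.B y))

/-- the pressure -/
noncomputable def pre (N : ℕ) (x : V) : ℝ := (N : ℝ)⁻¹ ^ 2 * D.prs (yc D.a D.b D.c N x)

/-- the local form of the flow -/
noncomputable def U (N : ℕ) (lam κ t : ℝ) (z : V) : V := fun i =>
  (N : ℝ)⁻¹ * D.sw i z + lam * N * κ * D.gg t z * D.ξ i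

variable {D}

lemma gg_ht (h : D.Ok) (t : ℝ) : HT D.δ (D.gg t) := by
  have hd : D.δ / 2 ≤ D.δ := by linarith [h.hδ0]
  exact ht_mul (rp_mono hd (pA_rp (D.δ / 2))) h.hA h.hB (fun y z h0 h1 => by rw [h0, h1])

lemma sw_ht (h : D.Ok) (i : Fin 3) : HT D.δ (D.sw i) :=
  ht_mul (chi_rp h.hδ0) h.hA h.hB (fun y z h0 h1 => by rw [h0, h1])

lemma ht_left {δ : ℝ} {f g : V → ℝ} (hg : HT δ g)
    (hf : ∀ y z : V, y 0 = z 0 → y 1 = z 1 → f y = f z) : HT δ (fun y => f y * g y) :=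
  ⟨fun y z h0 h1 => by simp only [hf y z h0 h1, hg.ind y z h0 h1],
    fun y hy => by simp only [hg.van y hy, mul_zero]⟩

lemma F1_ht (h : D.Ok) (N : ℕ) (t : ℝ) : HT D.δ (D.F1 N t) :=
  ht_left (gg_ht h t) (fun y z h0 _ => by rw [h0])

lemma F2_ht (h : D.Ok) (N : ℕ) (t : ℝ) : HT D.δ (D.F2 N t) :=
  ht_left (gg_ht h t) (fun y z h0 _ => by rw [h0])

lemma cc_rp {δ : ℝ} (hδ : 0 < δ) : RP δ (fun R => chi δ R * chi δ R) :=
  (chi_rp hδ).mul (chi_rp hδ).smooth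

lemma prs_ht (h : D.Ok) : HT D.δ D.prs := by
  have h1 : RP D.δ (fun R => (D.om ^ 2 / 2) * prim D.δ (fun R => chi D.δ R * chi D.δ R) R) :=
    (cc_rp h.hδ0).prim.mul contDiff_const
  exact ht_mul (f := fun _ => 1) h1 h.hA h.hB (fun _ _ _ _ => rfl)

/-- the constant amplitude near a point -/
noncomputable def kap (D : TD) (N : ℕ) (x₀ : V) : ℝ :=
  Real.cos (D.φ - tau D.c (Lm D.a D.b ((N : ℝ) • x₀)) 0 / N)

lemma loc_eq {N : ℕ} (hN : 0 < N) (lam : ℝ) (x₀ x : V)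
    (h1 : ∀ t, D.F1 N t (yc D.a D.b D.c N x) = D.F1 N t (zc D.a D.b D.c N x₀ x))
    (h2 : ∀ t, D.F2 N t (yc D.a D.b D.c N x) = D.F2 N t (zc D.a D.b D.c N x₀ x))
    (h3 : ∀ i, D.sw i (yc D.a D.b D.c N x) = D.sw i (zc D.a D.b D.c N x₀ x)) (t : ℝ) :
    D.vel N lam t x = D.U N lam (D.kap N x₀) t (zc D.a D.b D.c N x₀ x) := by
  have hNr : (N : ℝ) ≠ 0 := by positivity
  ext i
  unfold vel U
  rw [h1, h2, h3]
  have e : ph D.a x + D.φ - zc D.a D.b D.c N x₀ x 0 / N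
      = D.φ - tau D.c (Lm D.a D.b ((N : ℝ) • x₀)) 0 / N := by
    rw [zc_0]; field_simp; ring
  have e2 := Real.cos_sub (ph D.a x + D.φ) (zc D.a D.b D.c N x₀ x 0 / N)
  rw [e] at e2
  unfold kap F1 F2
  rw [e2]
  ring

lemma loc (h : D.Ok) {N : ℕ} (hN : 0 < N) (lam : ℝ) (x₀ : V) : ∀ᶠ x in 𝓝 x₀, ∀ t,
    D.vel N lam t x = D.U N lam (D.kap N x₀) t (zc D.a D.b D.c N x₀ x) := by
  filter_upwards [near D.a D.b D.c N x₀ h.hδ1] with x hx t
  exact loc_eq hN lam x₀ x (fun t => hx _ (F1_ht h N t)) (fun t => hx _ (F2_ht h N t))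
    (fun i => hx _ (sw_ht h i)) t

/-! ### derivatives in the local coordinates -/

lemma chi_deriv {δ : ℝ} (hδ : 0 < δ) (R : ℝ) :
    HasDerivAt (chi δ) (deriv (chi δ) R) R := (chi_rp hδ).hasDerivAt R

/-- coefficients for the swirl -/
noncomputable def P (D : TD) (i : Fin 3) (y : V) : ℝ :=
  D.om * (-(y 1 * D.a i) + y 0 * D.b i) * (deriv (chi D.δ) (qr D.A D.B y) * (2 * D.B * y 0))
    + chi D.δ (qr D.A D.B y) * (D.om * D.b i)
/-- coefficients for the swirl -/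
noncomputable def Q (D : TD) (i : Fin 3) (y : V) : ℝ :=
  D.om * (-(y 1 * D.a i) + y 0 * D.b i) * (deriv (chi D.δ) (qr D.A D.B y) * (2 * D.A * y 1))
    - chi D.δ (qr D.A D.B y) * (D.om * D.a i)
/-- coefficients for the dipole -/
noncomputable def Pg (D : TD) (t : ℝ) (y : V) : ℝ :=
  (D.ct t * y 0 + D.st t * y 1) * (deriv (pA (D.δ / 2)) (qr D.A D.B y) * (2 * D.B * y 0))
    + pA (D.δ / 2) (qr D.A D.B y) * D.ct t
/-- coefficients for the dipole -/
noncomputable def Qg (D : TD) (t : ℝ) (y : V) : ℝ :=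
  (D.ct t * y 0 + D.st t * y 1) * (deriv (pA (D.δ / 2)) (qr D.A D.B y) * (2 * D.A * y 1))
    + pA (D.δ / 2) (qr D.A D.B y) * D.st t

lemma sw_hd (h : D.Ok) (i : Fin 3) (y : V) : HD (D.sw i) (D.P i y) (D.Q i y) y := by
  have h1 := HD.comp (chi_deriv h.hδ0 (qr D.A D.B y)) (qr_hd D.A D.B y)
  have h2 : HD (fun z : V => D.om * (-(z 1 * D.a i) + z 0 * D.b i)) (D.om * D.b i)
      (-(D.om * D.a i)) y := by
    have e : (fun z : V => D.om * (-(z 1 * D.a i) + z 0 * D.b i))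
        = fun z : V => (-(D.om * D.a i)) * z 1 + (D.om * D.b i) * z 0 := by
      ext z; ring
    rw [e]
    refine (((HD.x1 y).const_mul _).add ((HD.x0 y).const_mul _)).congr ?_ ?_ <;> ring
  refine (h2.mul h1).congr ?_ ?_
  · unfold P; ring
  · unfold Q; ring

lemma gg_hd (t : ℝ) (y : V) : HD (D.gg t) (D.Pg t y) (D.Qg t y) y := by
  have h1 := HD.comp ((pA_rp (D.δ / 2)).hasDerivAt (qr D.A D.B y)) (qr_hd D.A D.B y)
  have h2 : HD (fun z : V => D.ct t * z 0 + D.st t * z 1) (D.ct t) (D.st t) y := by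
    refine (((HD.x0 y).const_mul _).add ((HD.x1 y).const_mul _)).congr ?_ ?_ <;> ring
  refine (h2.mul h1).congr ?_ ?_
  · unfold Pg; ring
  · unfold Qg; ring

lemma U_hd (h : D.Ok) (N : ℕ) (lam κ t : ℝ) (i : Fin 3) (y : V) :
    HD (fun z => D.U N lam κ t z i)
      ((N : ℝ)⁻¹ * D.P i y + lam * N * κ * D.ξ i * D.Pg t y)
      ((N : ℝ)⁻¹ * D.Q i y + lam * N * κ * D.ξ i * D.Qg t y) y := by
  have e : (fun z => D.U N lam κ t z i)
      = fun z => (N : ℝ)⁻¹ * D.sw i z + (lam * N * κ * D.ξ i) * D.gg t z := by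
    ext z; unfold U; ring
  rw [e]
  exact ((sw_hd h i y).const_mul _).add ((gg_hd t y).const_mul _)

lemma vel_hasFDerivAt (h : D.Ok) {N : ℕ} (hN : 0 < N) (lam t : ℝ) (x : V) :
    HasFDerivAt (D.vel N lam t) (ContinuousLinearMap.pi fun i =>
      (((N : ℝ)⁻¹ * D.P i (zc D.a D.b D.c N x x)
        + lam * N * D.kap N x * D.ξ i * D.Pg t (zc D.a D.b D.c N x x)) • ((N : ℝ) • phL D.a)
      + ((N : ℝ)⁻¹ * D.Q i (zc D.a D.b D.c N x x)
        + lam * N * D.kap N x * D.ξ i * D.Qg t (zc D.a D.b D.c N x x))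
          • ((N : ℝ) • phL D.b))) x := by
  have h1 : D.vel N lam t =ᶠ[𝓝 x] fun y => D.U N lam (D.kap N x) t (zc D.a D.b D.c N x y) := by
    filter_upwards [loc h hN lam x] with y hy
    exact hy t
  refine HasFDerivAt.congr_of_eventuallyEq ?_ h1
  rw [hasFDerivAt_pi]
  intro i
  exact chain D.a D.b D.c N x x (U_hd h N lam (D.kap N x) t i _)

lemma vel_fderiv (h : D.Ok) {N : ℕ} (hN : 0 < N) (lam t : ℝ) (x e : V) (i : Fin 3) :
    fderiv ℝ (D.vel N lam t) x e i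
      = ((N : ℝ)⁻¹ * D.P i (zc D.a D.b D.c N x x)
        + lam * N * D.kap N x * D.ξ i * D.Pg t (zc D.a D.b D.c N x x)) * (N * ph D.a e)
      + ((N : ℝ)⁻¹ * D.Q i (zc D.a D.b D.c N x x)
        + lam * N * D.kap N x * D.ξ i * D.Qg t (zc D.a D.b D.c N x x)) * (N * ph D.b e) := by
  rw [(vel_hasFDerivAt h hN lam t x).fderiv]
  simp [phL_apply]

lemma ph_comb (l : Fin 3 → ℤ) (f : V) (u v w : ℝ) (p q r : Fin 3 → ℤ)
    (hf : ∀ i, f i = u * p i + v * q i + w * r i) :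
    ph l f = u * ph l (rv p) + v * ph l (rv q) + w * ph l (rv r) := by
  unfold ph rv
  simp only [hf, Finset.mul_sum, ← Finset.sum_add_distrib]
  refine Finset.sum_congr rfl fun i _ => ?_
  ring

lemma vel_self (h : D.Ok) {N : ℕ} (hN : 0 < N) (lam t : ℝ) (x : V) :
    D.vel N lam t x = D.U N lam (D.kap N x) t (zc D.a D.b D.c N x x) :=
  loc_eq hN lam x x (fun t => near_self D.a D.b D.c N x (F1_ht h N t))
    (fun t => near_self D.a D.b D.c N x (F2_ht h N t))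
    (fun i => near_self D.a D.b D.c N x (sw_ht h i)) t

lemma ph_a_vel (h : D.Ok) {N : ℕ} (hN : 0 < N) (lam t : ℝ) (x : V) :
    ph D.a (D.vel N lam t x) = -((N : ℝ)⁻¹ * D.om * chi D.δ (qr D.A D.B (zc D.a D.b D.c N x x))
      * zc D.a D.b D.c N x x 1 * D.A) := by
  rw [vel_self h hN]
  set z := zc D.a D.b D.c N x x
  have := ph_comb D.a (D.U N lam (D.kap N x) t z)
    (-((N : ℝ)⁻¹ * D.om * chi D.δ (qr D.A D.B z) * z 1))
    ((N : ℝ)⁻¹ * D.om * chi D.δ (qr D.A D.B z) * z 0) (lam * N * D.kap N x * D.gg t z) D.a D.b D.ξ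
    (fun i => by unfold U sw; ring)
  rw [this, h.hab, h.haξ]
  unfold A
  ring

lemma ph_b_vel (h : D.Ok) {N : ℕ} (hN : 0 < N) (lam t : ℝ) (x : V) :
    ph D.b (D.vel N lam t x) = (N : ℝ)⁻¹ * D.om * chi D.δ (qr D.A D.B (zc D.a D.b D.c N x x))
      * zc D.a D.b D.c N x x 0 * D.B := by
  rw [vel_self h hN]
  set z := zc D.a D.b D.c N x x
  have := ph_comb D.b (D.U N lam (D.kap N x) t z)
    (-((N : ℝ)⁻¹ * D.om * chi D.δ (qr D.A D.B z) * z 1))
    ((N : ℝ)⁻¹ * D.om * chi D.δ (qr D.A D.B z) * z 0) (lam * N * D.kap N x * D.gg t z) D.a D.b D.ξ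
    (fun i => by unfold U sw; ring)
  rw [this, h.hba, h.hbξ]
  unfold B
  ring

lemma pre_fderiv (h : D.Ok) (N : ℕ) (x e : V) :
    fderiv ℝ (D.pre N) x e = (N : ℝ)⁻¹ ^ 2 * (D.om ^ 2 / 2 *
      (chi D.δ (qr D.A D.B (zc D.a D.b D.c N x x)) ^ 2 *
      (2 * D.B * zc D.a D.b D.c N x x 0 * (N * ph D.a e)
        + 2 * D.A * zc D.a D.b D.c N x x 1 * (N * ph D.b e)))) := by
  have h1 : D.pre N =ᶠ[𝓝 x] fun y => (N : ℝ)⁻¹ ^ 2 * D.prs (zc D.a D.b D.c N x y) := by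
    filter_upwards [near D.a D.b D.c N x h.hδ1] with y hy
    unfold pre
    rw [hy _ (prs_ht h)]
  set z := zc D.a D.b D.c N x x with hz
  have h2 : HD D.prs (D.om ^ 2 / 2 * (chi D.δ (qr D.A D.B z) ^ 2 * (2 * D.B * z 0)))
      (D.om ^ 2 / 2 * (chi D.δ (qr D.A D.B z) ^ 2 * (2 * D.A * z 1))) z := by
    have h3 := HD.comp (prim_hasDerivAt (cc_rp h.hδ0) (qr D.A D.B z)) (qr_hd D.A D.B z)
    have e : D.prs = fun y => (1 * (D.om ^ 2 / 2))
        * prim D.δ (fun R => chi D.δ R * chi D.δ R) (qr D.A D.B y) := by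
      ext y; unfold prs; ring
    rw [e]
    refine (h3.const_mul _).congr ?_ ?_ <;> ring
  have h4 := (chain D.a D.b D.c N x x h2).const_mul ((N : ℝ)⁻¹ ^ 2)
  have h5 := h4.congr_of_eventuallyEq h1
  rw [h5.fderiv]
  simp [phL_apply]
  ring

lemma ph_single_one (l : Fin 3 → ℤ) (i : Fin 3) : ph l (Pi.single i 1) = l i := by
  rw [ph_single, mul_one]

lemma ph_symm (l m : Fin 3 → ℤ) : ph l (rv m) = ph m (rv l) := by
  unfold ph rv
  exact Finset.sum_congr rfl fun i _ => mul_comm _ _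

lemma vel_div (h : D.Ok) {N : ℕ} (hN : 0 < N) (lam t : ℝ) (x : V) :
    divergence (D.vel N lam t) x = 0 := by
  have hNr : (N : ℝ) ≠ 0 := by positivity
  rw [divergence_eq_sum]
  simp only [vel_fderiv h hN, ph_single_one]
  set z := zc D.a D.b D.c N x x
  have ea : ∑ i, ((D.a i : ℝ) * D.a i) = D.A := rfl
  have eb : ∑ i, ((D.b i : ℝ) * D.b i) = D.B := rfl
  have eab : ∑ i, ((D.a i : ℝ) * D.b i) = 0 := h.hab
  have eax : ∑ i, ((D.a i : ℝ) * D.ξ i) = 0 := h.haξ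
  have ebx : ∑ i, ((D.b i : ℝ) * D.ξ i) = 0 := h.hbξ
  simp only [Fin.sum_univ_three] at *
  unfold P Q
  field_simp
  linear_combination
    (-(D.om * z 1 * (deriv (chi D.δ) (qr D.A D.B z) * (2 * D.B * z 0)))) * ea
    + (D.om * z 0 * (deriv (chi D.δ) (qr D.A D.B z) * (2 * D.A * z 1))) * eb
    + (D.om * z 0 * (deriv (chi D.δ) (qr D.A D.B z) * (2 * D.B * z 0))
      - D.om * z 1 * (deriv (chi D.δ) (qr D.A D.B z) * (2 * D.A * z 1))) * eab
    + ((N : ℝ) ^ 2 * lam * D.kap N x * D.Pg t z) * eax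
    + ((N : ℝ) ^ 2 * lam * D.kap N x * D.Qg t z) * ebx

lemma rel1 (h : D.Ok) : D.om * D.B * D.ρ = D.Ω := by
  have hA : 0 < D.A := by linarith [h.hA]
  have hB : 0 < D.B := by linarith [h.hB]
  have h1 : √D.A ≠ 0 := (Real.sqrt_pos.2 hA).ne'
  have h2 : √D.B ≠ 0 := (Real.sqrt_pos.2 hB).ne'
  have h3 := Real.mul_self_sqrt hB.le
  unfold om ρ
  field_simp
  rw [sq]
  rw [h3]

lemma rel2 (h : D.Ok) : D.om * D.A = D.Ω * D.ρ := by
  have hA : 0 < D.A := by linarith [h.hA]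
  have hB : 0 < D.B := by linarith [h.hB]
  have h1 : √D.A ≠ 0 := (Real.sqrt_pos.2 hA).ne'
  have h2 : √D.B ≠ 0 := (Real.sqrt_pos.2 hB).ne'
  have h3 := Real.mul_self_sqrt hA.le
  unfold om ρ
  field_simp
  rw [sq]
  rw [h3]

lemma vel_mom (h : D.Ok) {N : ℕ} (hN : 0 < N) (lam t : ℝ) (x : V) (i : Fin 3) :
    deriv (fun s => D.vel N lam s x i) t + fderiv ℝ (D.vel N lam t) x (D.vel N lam t x) i
      = - fderiv ℝ (D.pre N) x (Pi.single i 1) := by
  have hNr : (N : ℝ) ≠ 0 := by positivity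
  rw [vel_fderiv h hN, pre_fderiv h, ph_a_vel h hN, ph_b_vel h hN, ph_single_one, ph_single_one]
  have ht : (fun s => D.vel N lam s x i)
      = fun s => D.U N lam (D.kap N x) s (zc D.a D.b D.c N x x) i := by
    ext s; rw [vel_self h hN]
  rw [ht]
  set z := zc D.a D.b D.c N x x
  set θ := D.Ω * t + D.ψ with hθ
  have hl : HasDerivAt (fun s : ℝ => D.Ω * s + D.ψ) D.Ω t := by
    have := ((hasDerivAt_id t).const_mul D.Ω).add_const D.ψ
    simpa using this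
  have hc : HasDerivAt D.ct (-Real.sin θ * D.Ω) t := hl.cos
  have hs : HasDerivAt D.st (D.ρ * (Real.cos θ * D.Ω)) t := hl.sin.const_mul D.ρ
  have hg : HasDerivAt (fun s => D.gg s z)
      ((-Real.sin θ * D.Ω * z 0 + D.ρ * (Real.cos θ * D.Ω) * z 1)
        * pA (D.δ / 2) (qr D.A D.B z)) t :=
    ((hc.mul_const (z 0)).add (hs.mul_const (z 1))).mul_const _
  have hU : HasDerivAt (fun s => D.U N lam (D.kap N x) s z i)
      (lam * N * D.kap N x * ((-Real.sin θ * D.Ω * z 0 + D.ρ * (Real.cos θ * D.Ω) * z 1)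
        * pA (D.δ / 2) (qr D.A D.B z)) * D.ξ i) t :=
    ((hg.const_mul (lam * N * D.kap N x)).mul_const _).const_add _
  rw [hU.deriv]
  have hcm := chi_mul h.hδ0 (pA_rp (D.δ / 2)) (qr D.A D.B z)
  have r1 := rel1 h
  have r2 := rel2 h
  have ec : D.ct t = Real.cos θ := rfl
  have es : D.st t = D.ρ * Real.sin θ := rfl
  unfold P Q Pg Qg
  rw [ec, es]
  set X := chi D.δ (qr D.A D.B z)
  set G := pA (D.δ / 2) (qr D.A D.B z)
  field_simp
  linear_combination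
    (lam * (N:ℝ) ^ 2 * D.kap N x * D.ξ i * (D.om * D.B * D.ρ * Real.sin θ * z 0
      - D.om * D.A * Real.cos θ * z 1)) * hcm
    + (lam * (N:ℝ) ^ 2 * D.kap N x * D.ξ i * G * Real.sin θ * z 0) * r1
    - (lam * (N:ℝ) ^ 2 * D.kap N x * D.ξ i * G * Real.cos θ * z 1) * r2

end TD

end Pool.Agent.K3h70.EP
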