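import Pool.Agent.K3h70.EP.Core
import Pool.Agent.K3h70.EB.Stab

/-!
# The Fourier coefficients of classical solutions are Lipschitz functions of time
-/

set_option autoImplicit false

open MeasureTheory Set Filter Topology
open scoped ENNReal NNReal ContDiff

namespace Pool.Agent.K3h70.EP

open Pool.Agent.H708R2.EulerSign (V Periodic3 Dom divergence grad sum_mul_clm sum_mul_clm'
  divergence_eq_sum contDiff_slice sq3 sq3_nonneg sq3_eq_zero sq3_contDiff hasFDerivAt_sq3
  quad_bound divergence_smul dom_bdd dom_meas dom_lt_top integral_divergence_eq_zero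
  eq_zero_of_integral_eq_zero continuous_grad IsClassicalSolution)
open Pool.Agent.Y302.Tri (Base lin en dS int_dS en_hasDerivAt en_continuousOn en_nonneg)
open Pool.Agent.K3h70.EB (base_of_classical en_rate en_stab)
open Pool.Agent.H708R2.EulerModes
open Pool.Agent.R739.ET

variable {T : ℝ} {u : ℝ → V → V} {p : ℝ → V → ℝ}

/-- The distance in `L²` of a classical solution and a steady solution is Lipschitz in time. -/
lemma en_lip (hu : IsClassicalSolution (Ico 0 T) u p) {W : V → V} {q : ℝ → V → ℝ}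
    (hW : IsClassicalSolution (Ico 0 T) (fun _ => W) q) {K : ℝ} (hK0 : 0 ≤ K)
    (hK : ∀ x i j, |grad W x i j| ≤ K) {s t : ℝ} (hs : s ∈ Ico 0 T) (ht : t ∈ Ico 0 T) :
    |en u (fun _ => W) t - en u (fun _ => W) s|
      ≤ (6 * K * (Real.exp (6 * K * T) * en u (fun _ => W) 0)) * |t - s| := by
  set g := en u (fun _ => W) with hg
  set C := 6 * K * (Real.exp (6 * K * T) * g 0) with hC
  have hcont := en_continuousOn (base_of_classical hu) (base_of_classical hW)
  have hb : ∀ r ∈ Ioo 0 T, |∫ x in Dom, dS u (fun _ => W) r x| ≤ C := by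
    intro r hr
    have h1 := en_rate hu hW hr hK
    have h2 := en_stab hu hW (K := K) (b := r) (fun t _ => hK) hr.1.le hr.2
    have h3 : Real.exp (6 * K * r) ≤ Real.exp (6 * K * T) :=
      Real.exp_le_exp.2 (mul_le_mul_of_nonneg_left hr.2.le (by positivity))
    have h4 : 0 ≤ g 0 := en_nonneg 0
    calc |∫ x in Dom, dS u (fun _ => W) r x| ≤ 6 * K * en u (fun _ => W) r := h1
      _ ≤ 6 * K * (Real.exp (6 * K * r) * g 0) := by gcongr
      _ ≤ C := by rw [hC]; gcongr
  have hd : ∀ r ∈ Ioo 0 T, HasDerivAt g (∫ x in Dom, dS u (fun _ => W) r x) r := fun r hr =>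
    en_hasDerivAt (base_of_classical hu) (base_of_classical hW) hr
  have hanti : AntitoneOn (fun r => g r - C * r) (Ico 0 T) := by
    refine antitoneOn_of_deriv_nonpos (convex_Ico _ _) (hcont.sub (by fun_prop)) ?_ ?_
    · intro r hr
      rw [interior_Ico] at hr
      exact ((hd r hr).sub ((hasDerivAt_id r).const_mul C)).differentiableAt.differentiableWithinAt
    · intro r hr
      rw [interior_Ico] at hr
      have := ((hd r hr).sub ((hasDerivAt_id r).const_mul C)).deriv
      have e : deriv (fun r => g r - C * r) r = (∫ x in Dom, dS u (fun _ => W) r x) - C * 1 := this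
      rw [e]
      have := (abs_le.1 (hb r hr)).2
      linarith
  have hmono : MonotoneOn (fun r => g r + C * r) (Ico 0 T) := by
    refine monotoneOn_of_deriv_nonneg (convex_Ico _ _) (hcont.add (by fun_prop)) ?_ ?_
    · intro r hr
      rw [interior_Ico] at hr
      exact ((hd r hr).add ((hasDerivAt_id r).const_mul C)).differentiableAt.differentiableWithinAt
    · intro r hr
      rw [interior_Ico] at hr
      have := ((hd r hr).add ((hasDerivAt_id r).const_mul C)).deriv
      have e : deriv (fun r => g r + C * r) r = (∫ x in Dom, dS u (fun _ => W) r x) + C * 1 := this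
      rw [e]
      have := (abs_le.1 (hb r hr)).1
      linarith
  rcases le_total s t with h | h
  · have h1 := hanti hs ht h
    have h2 := hmono hs ht h
    simp only at h1 h2
    rw [abs_of_nonneg (sub_nonneg.2 h), abs_le]
    constructor <;> linarith
  · have h1 := hanti ht hs h
    have h2 := hmono ht hs h
    simp only at h1 h2
    rw [abs_of_nonpos (sub_nonpos.2 h), abs_le]
    constructor <;> linarith

/-- A plane wave. -/
noncomputable def pw (l : Fin 3 → ℤ) (φ : ℝ) (d : V) (x : V) : V := Real.cos (ph l x + φ) • d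

lemma pw_eul {l : Fin 3 → ℤ} {d : V} (hd : ph l d = 0) (φ : ℝ) :
    Eul (fun _ => pw l φ d) (fun _ => 0) := by
  refine eul_parallel (F := fun x => Real.cos (ph l x + φ)) ?_ (cosph_per l φ) ?_
  · exact Real.contDiff_cos.comp ((ph_contDiff l).add contDiff_const)
  · intro x s
    rw [ph_add, ph_smul, hd, mul_zero, add_zero]

lemma Eul.classical {v : ℝ → V → V} {p : V → ℝ} (h : Eul v p) :
    IsClassicalSolution univ v (fun _ => p) := by
  refine ⟨(h.joint.of_le (by exact_mod_cast le_top)).contDiffOn,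
    ((h.psm.comp contDiff_snd).of_le (by exact_mod_cast le_top)).contDiffOn,
    fun t _ => h.per t, fun t _ => h.pper, fun t _ => h.div t, fun t _ x i => ?_⟩
  rw [derivWithin_univ, sum_mul_clm]
  exact h.mom t x i

lemma steady_classical {W : V → V} {q : V → ℝ} (h : Eul (fun _ => W) q) :
    IsClassicalSolution (Ico 0 T) (fun _ => W) (fun _ => q) := by
  have hc := h.classical
  refine ⟨hc.contDiffOn_u.mono (prod_mono (subset_univ _) subset_rfl),
    hc.contDiffOn_p.mono (prod_mono (subset_univ _) subset_rfl),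
    fun t _ => h.per t, fun t _ => h.pper, fun t _ => h.div t, fun t _ x i => ?_⟩
  have h1 := hc.momentum t (mem_univ t) x i
  rw [derivWithin_univ] at h1
  rw [← h1]
  simp

lemma pw_grad (l : Fin 3 → ℤ) (φ : ℝ) (d : V) (x : V) (i j : Fin 3) :
    |grad (pw l φ d) x i j| ≤ (∑ m, |(l m : ℝ)|) * ∑ m, |d m| := by
  have h1 : HasFDerivAt (fun x => ph l x + φ)
      (∑ i, (l i : ℝ) • (ContinuousLinearMap.proj i : V →L[ℝ] ℝ)) x := (fderiv_ph l x).add_const φ
  have h2 := ((Real.hasDerivAt_cos (ph l x + φ)).comp_hasFDerivAt x h1).smul_const d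
  have h3 : fderiv ℝ (pw l φ d) x = ((-Real.sin (ph l x + φ)) •
      ∑ i, (l i : ℝ) • (ContinuousLinearMap.proj i : V →L[ℝ] ℝ)).smulRight d := h2.fderiv
  show |fderiv ℝ (pw l φ d) x (Pi.single j 1) i| ≤ _
  rw [h3]
  have h4 : (((-Real.sin (ph l x + φ)) •
      ∑ i, (l i : ℝ) • (ContinuousLinearMap.proj i : V →L[ℝ] ℝ)).smulRight d)
        (Pi.single j (1 : ℝ) : V) i = (-Real.sin (ph l x + φ)) * (l j) * d i := by
    simp only [ContinuousLinearMap.smulRight_apply, smul_apply, sum_apply,
      ContinuousLinearMap.proj_apply, smul_eq_mul, Pi.smul_apply, Pi.single_apply, mul_ite, mul_one,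
      mul_zero, Finset.sum_ite_eq', Finset.mem_univ, if_true]
  rw [h4, abs_mul, abs_mul, abs_neg]
  have a1 : |Real.sin (ph l x + φ)| ≤ 1 := Real.abs_sin_le_one _
  have a2 : |(l j : ℝ)| ≤ ∑ m, |(l m : ℝ)| :=
    Finset.single_le_sum (f := fun m => |(l m : ℝ)|) (fun _ _ => abs_nonneg _) (Finset.mem_univ j)
  have a3 : |d i| ≤ ∑ m, |d m| :=
    Finset.single_le_sum (f := fun m => |d m|) (fun _ _ => abs_nonneg _) (Finset.mem_univ i)
  have a4 : 0 ≤ ∑ m, |(l m : ℝ)| := Finset.sum_nonneg fun _ _ => abs_nonneg _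
  calc |Real.sin (ph l x + φ)| * |(l j : ℝ)| * |d i|
      ≤ 1 * (∑ m, |(l m : ℝ)|) * ∑ m, |d m| := by gcongr
    _ = (∑ m, |(l m : ℝ)|) * ∑ m, |d m| := by ring

lemma sq3_int {W : V → V} (hp : Periodic3 W) (hc : Continuous W) :
    IntegrableOn (fun x => sq3 (W x)) Dom := by
  refine Periodic3.integrableOn ?_ ((sq3_contDiff (n := 1)).continuous.comp hc)
  intro i x; simp only; rw [hp i x]

lemma mul_int {f g : V → ℝ} (hf : Periodic3 f) (hg : Periodic3 g) (hfc : Continuous f)
    (hgc : Continuous g) : IntegrableOn (fun x => f x * g x) Dom := by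
  refine Periodic3.integrableOn ?_ (hfc.mul hgc)
  intro i x; simp only; rw [hf i x, hg i x]

/-- Polarisation. -/
lemma polar (hu : IsClassicalSolution (Ico 0 T) u p) {W : V → V} (hWp : Periodic3 W)
    (hWc : Continuous W) {t : ℝ} (ht : t ∈ Ico 0 T) :
    ∑ j, ∫ x in Dom, u t x j * W x j
      = (en u (fun _ x => -W x) t - en u (fun _ => W) t) / 4 := by
  have hut : Continuous (u t) := (contDiff_slice hu.contDiffOn_u ht).continuous
  have hup := hu.periodic_u t ht
  have i1 : IntegrableOn (fun x => sq3 (u t x - -W x)) Dom := by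
    refine sq3_int ?_ (hut.sub hWc.neg)
    intro i x; simp only; rw [hup i x, hWp i x]
  have i2 : IntegrableOn (fun x => sq3 (u t x - W x)) Dom := by
    refine sq3_int ?_ (hut.sub hWc)
    intro i x; simp only; rw [hup i x, hWp i x]
  unfold en
  rw [← integral_finsetSum]
  · rw [← integral_sub i1 i2, ← integral_div]
    congr 1
    ext1 x
    simp only [sq3, Fin.sum_univ_three, Pi.sub_apply, Pi.neg_apply]
    ring
  · intro j _
    exact mul_int (comp_periodic hup j) (comp_periodic hWp j) ((continuous_apply j).comp hut)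
      ((continuous_apply j).comp hWc)

/-- A pairing of a classical solution with a divergence-free wave is Lipschitz in time. -/
lemma pair_lip (hu : IsClassicalSolution (Ico 0 T) u p) {l : Fin 3 → ℤ} {d : V}
    (hd : ph l d = 0) (φ : ℝ) : ∃ C : ℝ≥0, (l = 0 → C = 0) ∧ ∀ s ∈ Ico 0 T, ∀ t ∈ Ico 0 T,
      |(∑ j, ∫ x in Dom, u t x j * pw l φ d x j) - ∑ j, ∫ x in Dom, u s x j * pw l φ d x j|
        ≤ C * |t - s| := by
  have hE := pw_eul hd φ
  have hE' := pw_eul (l := l) (d := -d) (by rw [← neg_one_smul ℝ d, ph_smul, hd, mul_zero]) φ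
  have hneg : (fun x => -pw l φ d x) = pw l φ (-d) := by
    ext1 x; unfold pw; rw [smul_neg]
  have hnegsum : ∑ m, |(-d) m| = ∑ m, |d m| :=
    Finset.sum_congr rfl fun m _ => by rw [Pi.neg_apply, abs_neg]
  set K : ℝ := (∑ m, |(l m : ℝ)|) * ∑ m, |d m| with hK
  have hK0 : 0 ≤ K := mul_nonneg (Finset.sum_nonneg fun _ _ => abs_nonneg _)
    (Finset.sum_nonneg fun _ _ => abs_nonneg _)
  have hcp : Periodic3 (pw l φ d) := hE.per 0
  have hcc : Continuous (pw l φ d) :=
    (Real.continuous_cos.comp ((ph_contDiff l).continuous.add continuous_const)).smul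
      continuous_const
  set C1 := 6 * K * (Real.exp (6 * K * T) * en u (fun _ => pw l φ d) 0) with hC1
  set C2 := 6 * K * (Real.exp (6 * K * T) * en u (fun _ => pw l φ (-d)) 0) with hC2
  have h1 : 0 ≤ C1 := by
    have : 0 ≤ en u (fun _ => pw l φ d) 0 := en_nonneg 0
    positivity
  have h2 : 0 ≤ C2 := by
    have : 0 ≤ en u (fun _ => pw l φ (-d)) 0 := en_nonneg 0
    positivity
  refine ⟨⟨(C1 + C2) / 4, by positivity⟩, fun hl => ?_, fun s hs t ht => ?_⟩
  · have : K = 0 := by rw [hK, hl]; simp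
    refine NNReal.eq ?_
    show (C1 + C2) / 4 = 0
    simp [hC1, hC2, this]
  · rw [polar hu hcp hcc hs, polar hu hcp hcc ht]
    have e1 := en_lip hu (steady_classical hE) hK0 (fun x i j => pw_grad l φ d x i j) hs ht
    have e2 := en_lip hu (steady_classical hE') hK0 (fun x i j => by
      have := pw_grad l φ (-d) x i j
      rwa [hnegsum] at this) hs ht
    rw [← hneg] at e2
    rw [← hC1] at e1
    have e2' : |en u (fun _ x => -pw l φ d x) t - en u (fun _ x => -pw l φ d x) s|
        ≤ C2 * |t - s| := by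
      rw [hC2, ← hneg]; exact e2
    have e3 : (en u (fun _ x => -pw l φ d x) t - en u (fun _ => pw l φ d) t) / 4
        - (en u (fun _ x => -pw l φ d x) s - en u (fun _ => pw l φ d) s) / 4
        = ((en u (fun _ x => -pw l φ d x) t - en u (fun _ x => -pw l φ d x) s)
          - (en u (fun _ => pw l φ d) t - en u (fun _ => pw l φ d) s)) / 4 := by ring
    rw [e3, abs_div]
    have e4 : |(4 : ℝ)| = 4 := by norm_num
    rw [e4]
    have e5 := abs_sub (en u (fun _ x => -pw l φ d x) t - en u (fun _ x => -pw l φ d x) s)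
      (en u (fun _ => pw l φ d) t - en u (fun _ => pw l φ d) s)
    show _ ≤ (C1 + C2) / 4 * |t - s|
    rw [div_le_iff₀ (by norm_num)]
    linarith

end Pool.Agent.K3h70.EP
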