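import Pool.Agent.K3h70.EP.Lip

/-!
# Paths of Fourier modes are realised by global flows
-/

set_option autoImplicit false

open MeasureTheory Set Filter Topology
open scoped ENNReal NNReal ContDiff

namespace Pool.Agent.K3h70.EP

open Pool.Agent.H708R2.EulerSign
open Pool.Agent.H708R2.EulerModes
open Pool.Agent.R739.ET

lemma Eul.unique {v : ℝ → V → V} {p : V → ℝ} (h : Eul v p) {T : ℝ} {w : ℝ → V → V}
    {q : ℝ → V → ℝ} (hw : IsClassicalSolution (Ico 0 T) w q) {t₀ : ℝ} (ht₀ : t₀ ∈ Ico 0 T)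
    (h0 : w t₀ = v t₀) : ∀ t ∈ Ico 0 T, w t = v t := by
  have hj := h.joint
  have hg : ∀ (t : ℝ) (x : V), fderiv ℝ (v t) x
      = (fderiv ℝ (fun z : ℝ × V => v z.1 z.2) (t, x)).comp
        (ContinuousLinearMap.inr ℝ ℝ V) := by
    intro t x
    have h1 := (hj.differentiable (by simp) (t, x)).hasFDerivAt
    have h2 : HasFDerivAt (fun y : V => ((t, y) : ℝ × V)) (ContinuousLinearMap.inr ℝ ℝ V) x := by
      have := (hasFDerivAt_const t x).prodMk (hasFDerivAt_id (𝕜 := ℝ) x)
      exact this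
    exact (h1.comp x h2).fderiv
  have hcont : Continuous (fun z : ℝ × V =>
      ‖(fderiv ℝ (fun z : ℝ × V => v z.1 z.2) z).comp (ContinuousLinearMap.inr ℝ ℝ V)‖) :=
    ((hj.continuous_fderiv (by simp)).clm_comp continuous_const).norm
  have hK : IsCompact (Icc 0 T ×ˢ closure Dom) := isCompact_Icc.prod dom_bdd.isCompact_closure
  obtain ⟨C, hC⟩ := hK.exists_bound_of_continuousOn hcont.continuousOn
  have hbd : ∀ t ∈ Icc 0 T, ∀ x, ‖fderiv ℝ (v t) x‖ ≤ C := by
    intro t ht x
    obtain ⟨g, hg1, -⟩ := dom_exists_unique x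
    have hp := (h.per t).fderiv
    have h1 : fderiv ℝ (v t) x = fderiv ℝ (v t) (g +ᵥ x : V) := (lat_invariant hp g x).symm
    rw [h1, hg]
    have := hC (t, (g +ᵥ x : V)) ⟨ht, subset_closure hg1⟩
    rwa [norm_norm] at this
  have hK' : ∀ t ∈ Ico 0 T, ∀ x i j, |grad (v t) x i j| ≤ C := by
    intro t ht x i j
    have h1 := norm_le_pi_norm (fderiv ℝ (v t) x (Pi.single j 1)) i
    have h2 := (fderiv ℝ (v t) x).le_opNorm (Pi.single j 1)
    have h3 : ‖(Pi.single j (1 : ℝ) : V)‖ ≤ 1 := by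
      rw [pi_norm_le_iff_of_nonneg zero_le_one]
      intro k
      by_cases hk : k = j
      · subst hk; simp
      · simp [hk]
    have h4 := hbd t ⟨ht.1, ht.2.le⟩ x
    have h5 : ‖fderiv ℝ (v t) x‖ * ‖(Pi.single j (1 : ℝ) : V)‖ ≤ C * 1 :=
      mul_le_mul h4 h3 (norm_nonneg _) ((norm_nonneg _).trans h4)
    rw [mul_one] at h5
    exact (h1.trans h2).trans h5
  exact unique' hw (hj.of_le (by exact_mod_cast le_top)) h.per h.div (p := fun _ => p)
    (fun _ => h.psm.of_le (by exact_mod_cast le_top)) (fun _ => h.pper)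
    (fun t x i => by rw [sum_mul_clm]; exact h.mom t x i) hK' ht₀ h0

lemma Eul.global {v : ℝ → V → V} {p : V → ℝ} (h : Eul v p) (hq : QP v) : IsGlobalFlow v p :=
  ⟨h.joint, h.psm, h.classical, hq, fun _ _ _ hw _ ht₀ h0 => h.unique hw ht₀ h0⟩

lemma sq_per {u : V → V} (hp : Periodic3 u) (i : Fin 3) : Periodic3 (fun x => (u x i) ^ 2) := by
  intro j x; simp only; rw [hp j x]

/-- The first part of the theorem. -/
theorem paths {u : ℝ → V → V} (hu : IsPath u) (K : ℕ) {s ε : ℝ} (hs : 1 < s) (hε : 0 < ε)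
    (T : ℝ) (S : Finset ℝ) :
    ∃ (v : ℝ → V → V) (q : V → ℝ), IsGlobalFlow v q ∧ (∀ t ∈ S, SameModes K (v t) (u t)) ∧
      (∀ t ∈ Icc (-T) T, HNegClose s ε (v t) (u t)) ∧
      ((∀ l : Fin 3 → ℤ, (∀ i, |l i| ≤ K) → ∀ i, TrigPoly (fun t => cosCoeff l (fun x => u t x i)) ∧
        TrigPoly (fun t => sinCoeff l (fun x => u t x i))) → ∀ t, SameModes K (v t) (u t)) := by
  classical
  obtain ⟨R, hR⟩ : ∃ R : ℝ, ∀ t ∈ S, |t| ≤ R := by
    refine ⟨∑ t ∈ S, |t|, fun t ht => ?_⟩
    exact Finset.single_le_sum (f := fun t => |t|) (fun _ _ => abs_nonneg _) ht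
  set T' : ℝ := |T| + |R| + 1 with hT'
  have hT0 : 0 < T' := by positivity
  obtain ⟨E, hE⟩ := hu.energy T'
  have hsub : Icc (-T) T ⊆ Icc (-T') T' := by
    intro t ht
    have h1 := le_abs_self T
    have h2 := abs_nonneg R
    exact ⟨by linarith [ht.1], by linarith [ht.2]⟩
  obtain ⟨v, q, h1, h2, h3, h4, h5⟩ := core (u := u) (I := univ) (J := Icc (-T') T')
    (subset_univ _) hT0 subset_rfl (S := S) (fun t _ => mem_univ t)
    (fun t ht => by
      have h1 := (hR t ht).trans (le_abs_self R)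
      have h2 := abs_nonneg T
      rw [abs_le] at h1
      exact ⟨by linarith [h1.1], by linarith [h1.2]⟩)
    (fun t _ => hu.periodic t) (fun t _ => hu.memLp t) (fun t _ => hu.div_free t) (E := E)
    (fun t ht => by
      have := hE t ht
      simp only [integral_cube (sq_per (hu.periodic t) _)] at this
      exact this)
    (a := fun l i t => cosCoeff l (fun x => u t x i))
    (b := fun l i t => sinCoeff l (fun x => u t x i))
    (fun l i => (hu.continuous l i).1) (fun l i => (hu.continuous l i).2)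
    (fun t _ l i => (cosCoeff_eq (comp_periodic (hu.periodic t) i) l).symm)
    (fun t _ l i => (sinCoeff_eq (comp_periodic (hu.periodic t) i) l).symm)
    (fun t _ i => by
      have := hu.mean t i
      simpa [cosCoeff, ph_zero] using this) K hs hε
  refine ⟨v, q, h1.global h2, h3, fun t ht => h4 t (hsub ht), fun h t => ?_⟩
  exact h5 (fun l hl i => h l (mem_Bx.1 hl) i) t (mem_univ t)

section classical

variable {T : ℝ} {u : ℝ → V → V} {p : ℝ → V → ℝ}

lemma weak_of_classical (hu : IsClassicalSolution (Ico 0 T) u p) {t : ℝ} (ht : t ∈ Ico 0 T) :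
    WeakDivFree (u t) := by
  intro ψ hψ hψp
  have hut : ContDiff ℝ 1 (u t) := contDiff_slice hu.contDiffOn_u ht
  have hup := hu.periodic_u t ht
  have hψ1 : ContDiff ℝ 1 ψ := hψ.of_le (by exact_mod_cast le_top)
  have hfp : Periodic3 (fun x => fderiv ℝ ψ x (u t x)) := by
    intro i x
    simp only
    rw [hup i x, hψp.fderiv i x]
  rw [integral_cube hfp]
  have hgp : Periodic3 (fun x => ψ x • u t x) := by
    intro i x
    simp only
    rw [hup i x, hψp i x]
  have hg1 : ContDiff ℝ 1 (fun x => ψ x • u t x) := hψ1.smul hut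
  rw [← integral_divergence_eq_zero hg1 hgp]
  congr 1
  ext1 x
  rw [divergence_smul (hψ1.differentiable one_ne_zero x) (hut.differentiable one_ne_zero x),
    hu.div_free t ht x, mul_zero, zero_add]

lemma memLp_of_cont {f : V → V} (hf : Continuous f) : MemLp f 2 (volume.restrict cube) := by
  have hc : IsCompact cube := isCompact_Icc
  obtain ⟨C, hC⟩ := hc.exists_bound_of_continuousOn hf.continuousOn
  have : IsFiniteMeasure (volume.restrict cube : Measure V) :=
    ⟨by rw [Measure.restrict_apply_univ]; exact hc.measure_lt_top⟩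
  refine MemLp.of_bound hf.aestronglyMeasurable C ?_
  exact (ae_restrict_iff' measurableSet_Icc).2 (Filter.Eventually.of_forall fun x hx => hC x hx)

/-- the coefficient as a pairing with a wave -/
lemma coeff_pair (hu : IsClassicalSolution (Ico 0 T) u p) (l : Fin 3 → ℤ) (i : Fin 3) {φ : ℝ}
    (hφ : φ = 0 ∨ φ = -(Real.pi / 2)) {t : ℝ} (ht : t ∈ Ico 0 T) :
    ∑ j, ∫ x in Dom, u t x j * pw l φ (prj l (Pi.single i 1)) x j
      = ∫ x in Dom, u t x i * Real.cos (ph l x + φ) := by
  have hut : Continuous (u t) := (contDiff_slice hu.contDiffOn_u ht).continuous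
  have hup := hu.periodic_u t ht
  set A : V := fun j => ∫ x in Dom, u t x j * Real.cos (ph l x + φ) with hA
  have horth : ph l A = 0 := by
    have h := ph_coeff hup (memLp_of_cont hut) (weak_of_classical hu ht) l
    rcases hφ with rfl | rfl
    · simp only [add_zero] at hA
      rw [hA]
      exact h.1
    · simp only [← sub_eq_add_neg, Real.cos_sub_pi_div_two] at hA
      rw [hA]
      exact h.2
  have e1 : ∀ j, ∫ x in Dom, u t x j * pw l φ (prj l (Pi.single i 1)) x j
      = prj l (Pi.single i 1) j * A j := by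
    intro j
    rw [hA]
    simp only
    rw [← integral_const_mul]
    congr 1
    ext1 x
    simp only [pw, Pi.smul_apply, smul_eq_mul]
    ring
  simp only [e1]
  have e2 : ∀ j, prj l (Pi.single i 1) j * A j
      = (Pi.single i (1 : ℝ) : V) j * A j
        - ph l (Pi.single i 1) / ph l (rv l) * ((l j : ℝ) * A j) := by
    intro j
    simp only [prj, Pi.sub_apply, Pi.smul_apply, smul_eq_mul, rv]
    ring
  simp only [e2]
  rw [Finset.sum_sub_distrib, ← Finset.mul_sum]
  have e3 : ∑ j, (l j : ℝ) * A j = 0 := horth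
  rw [e3, mul_zero, sub_zero]
  simp [Pi.single_apply]
  rfl

lemma exists_ext (hu : IsClassicalSolution (Ico 0 T) u p) (l : Fin 3 → ℤ) (i : Fin 3) {φ : ℝ}
    (hφ : φ = 0 ∨ φ = -(Real.pi / 2)) :
    ∃ g : ℝ → ℝ, Continuous g ∧
      (∀ t ∈ Ico 0 T, ∫ x in Dom, u t x i * Real.cos (ph l x + φ) = g t) ∧
      (l = 0 → ∀ t, g t = g 0) := by
  obtain ⟨C, hC0, hC⟩ := pair_lip hu (prj_ph l (Pi.single i 1)) φ
  have hlip : LipschitzOnWith C (fun t => ∫ x in Dom, u t x i * Real.cos (ph l x + φ))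
      (Ico 0 T) := by
    refine LipschitzOnWith.of_dist_le_mul fun t ht s hs => ?_
    have := hC s hs t ht
    rw [coeff_pair hu l i hφ hs, coeff_pair hu l i hφ ht] at this
    rw [Real.dist_eq, Real.dist_eq]
    exact this
  obtain ⟨g, hg1, hg2⟩ := hlip.extend_real
  refine ⟨g, hg1.continuous, fun t ht => hg2 ht, fun hl t => ?_⟩
  have h1 := hg1.dist_le_mul t 0
  rw [hC0 hl] at h1
  simpa using h1

/-- The second part of the theorem. -/
theorem classical_path (hT : 0 < T) (hu : IsClassicalSolution (Ico 0 T) u p) (K : ℕ) {s ε : ℝ}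
    (hs : 1 < s) (hε : 0 < ε) (S : Finset ℝ) (hS : ∀ t ∈ S, t ∈ Ico 0 T) :
    ∃ (v : ℝ → V → V) (q : V → ℝ), IsGlobalFlow v q ∧ (∀ t ∈ S, SameModes K (v t) (u t)) ∧
      (∀ t ∈ Ico 0 T, HNegClose s ε (v t) (u t)) := by
  classical
  choose a ha1 ha2 ha3 using fun (l : Fin 3 → ℤ) (i : Fin 3) =>
    exists_ext hu l i (φ := 0) (Or.inl rfl)
  choose b hb1 hb2 hb3 using fun (l : Fin 3 → ℤ) (i : Fin 3) =>
    exists_ext hu l i (φ := -(Real.pi / 2)) (Or.inr rfl)
  simp only [add_zero] at ha2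
  simp only [← sub_eq_add_neg, Real.cos_sub_pi_div_two] at hb2
  have hsub : Ico 0 T ⊆ Icc (-T) T := fun t ht => ⟨by linarith [ht.1], ht.2.le⟩
  have hz : Eul (fun _ => (fun _ => 0 : V → V)) (fun _ => 0) := by
    have h := pw_eul (l := 0) (d := 0) (ph_zero _) 0
    have e : pw 0 0 0 = fun _ => (0 : V) := by
      ext1 x; unfold pw; rw [smul_zero]
    rwa [e] at h
  have hen : ∀ t ∈ Ico 0 T, ∑ i, ∫ x in Dom, (u t x i) ^ 2 ≤ ∑ i, ∫ x in Dom, (u 0 x i) ^ 2 := by
    intro t ht
    have h1 := Pool.Agent.K3h70.EB.en_stab hu (steady_classical hz) (K := 0) (b := t)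
      (fun r _ x i j => by
        have : grad (fun _ => (0 : V)) x i j = 0 := by
          show fderiv ℝ (fun _ : V => (0 : V)) x (Pi.single j 1) i = 0
          simp
        rw [this, abs_zero]) ht.1 ht.2
    have e : ∀ r ∈ Ico 0 T, Pool.Agent.Y302.Tri.en u (fun _ => (fun _ => 0 : V → V)) r
        = ∑ i, ∫ x in Dom, (u r x i) ^ 2 := by
      intro r hr
      have hur : Continuous (u r) := (contDiff_slice hu.contDiffOn_u hr).continuous
      rw [← integral_finsetSum]
      · unfold Pool.Agent.Y302.Tri.en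
        simp only [sub_zero]
        rfl
      · intro i _
        exact (sq_per (hu.periodic_u r hr) i).integrableOn
          (((continuous_apply i).comp hur).pow 2)
    rw [e t ht, e 0 ⟨le_rfl, hT⟩] at h1
    simpa using h1
  obtain ⟨v, q, h1, h2, h3, h4, -⟩ := core (u := u) (I := Ico 0 T) (J := Ico 0 T)
    subset_rfl hT hsub (S := S) hS (fun t ht => hsub (hS t ht))
    (fun t ht => hu.periodic_u t ht)
    (fun t ht => memLp_of_cont (contDiff_slice hu.contDiffOn_u ht).continuous)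
    (fun t ht => weak_of_classical hu ht) hen ha1 hb1 (fun t ht l i => ha2 l i t ht)
    (fun t ht l i => hb2 l i t ht) (fun t _ i => ha3 0 i rfl t) K hs hε
  exact ⟨v, q, h1.global h2, h3, h4⟩

end classical

end Pool.Agent.K3h70.EP
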