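import Pool.Agent.K3h70.EP.Sup

/-!
# The low Fourier modes of the tube flow
-/

set_option autoImplicit false

open MeasureTheory Set Filter Topology
open scoped ENNReal NNReal ContDiff

namespace Pool.Agent.K3h70.EP

open Pool.Agent.H708R2.EulerSign Pool.Agent.H708R2.EulerModes
open Pool.Agent.R739.ET

/-! ### fine functions -/

lemma fine_cos {f : V → ℝ} (hp : Periodic3 f) (hc : Continuous f) {N : ℕ} (hN : 0 < N)
    {m : Fin 3 → ℤ} (hm : ∀ i, |m i| < N) :
    ∫ x in Dom, f ((N : ℝ) • x) * Real.cos (ph m x) = if m = 0 then ∫ x in Dom, f x else 0 := by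
  split_ifs with h0
  · subst h0
    simp only [ph_zero, Real.cos_zero, mul_one]
    exact integral_dilate hp hc hN
  · obtain ⟨j, hj⟩ : ∃ j, m j ≠ 0 := by
      by_contra hcon
      push Not at hcon
      exact h0 (funext hcon)
    exact (integral_trig_eq_zero (periodic_resc hp N) (hc.comp (continuous_const_smul (N : ℝ))) hN
      (fun i x => fine_resc hp hN i x) hj (hm j)).1

lemma fine_sin {f : V → ℝ} (hp : Periodic3 f) (hc : Continuous f) {N : ℕ} (hN : 0 < N)
    {m : Fin 3 → ℤ} (hm : ∀ i, |m i| < N) :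
    ∫ x in Dom, f ((N : ℝ) • x) * Real.sin (ph m x) = 0 := by
  by_cases h0 : m = 0
  · subst h0
    simp [ph_zero]
  · obtain ⟨j, hj⟩ : ∃ j, m j ≠ 0 := by
      by_contra hcon
      push Not at hcon
      exact h0 (funext hcon)
    exact (integral_trig_eq_zero (periodic_resc hp N) (hc.comp (continuous_const_smul (N : ℝ))) hN
      (fun i x => fine_resc hp hN i x) hj (hm j)).2

lemma resc_per {f : V → ℝ} (hp : Periodic3 f) (N : ℕ) : Periodic3 (fun x => f ((N : ℝ) • x)) :=
  periodic_resc hp N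

lemma cosph_per (m : Fin 3 → ℤ) (φ : ℝ) : Periodic3 (fun x => Real.cos (ph m x + φ)) := by
  intro i x
  simp only
  rw [ph_add, ph_single, show ph m x + (m i : ℝ) * (2 * Real.pi) + φ
    = (ph m x + φ) + (m i : ℤ) * (2 * Real.pi) by ring, Real.cos_add_int_mul_two_pi]

lemma cosph_cont (m : Fin 3 → ℤ) (φ : ℝ) : Continuous (fun x => Real.cos (ph m x + φ)) :=
  Real.continuous_cos.comp ((ph_contDiff m).continuous.add continuous_const)

lemma mul_per {f g : V → ℝ} (hf : Periodic3 f) (hg : Periodic3 g) :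
    Periodic3 (fun x => f x * g x) := by
  intro i x
  simp only
  rw [hf i x, hg i x]

lemma fine_phase {f : V → ℝ} (hp : Periodic3 f) (hc : Continuous f) {N : ℕ} (hN : 0 < N)
    {m : Fin 3 → ℤ} (hm : ∀ i, |m i| < N) (φ : ℝ) :
    ∫ x in Dom, f ((N : ℝ) • x) * Real.cos (ph m x + φ)
      = if m = 0 then Real.cos φ * ∫ x in Dom, f x else 0 := by
  have hcN : Continuous (fun x => f ((N : ℝ) • x)) := hc.comp (continuous_const_smul (N : ℝ))
  have e : ∀ x, f ((N : ℝ) • x) * Real.cos (ph m x + φ)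
      = Real.cos φ * (f ((N : ℝ) • x) * Real.cos (ph m x))
        - Real.sin φ * (f ((N : ℝ) • x) * Real.sin (ph m x)) := by
    intro x; rw [Real.cos_add]; ring
  have i1 : IntegrableOn (fun x => f ((N : ℝ) • x) * Real.cos (ph m x)) Dom :=
    (mul_per (resc_per hp N) (cos_periodic m)).integrableOn
      (hcN.mul (Real.continuous_cos.comp (ph_contDiff m).continuous))
  have i2 : IntegrableOn (fun x => f ((N : ℝ) • x) * Real.sin (ph m x)) Dom :=
    (mul_per (resc_per hp N) (sin_periodic m)).integrableOn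
      (hcN.mul (Real.continuous_sin.comp (ph_contDiff m).continuous))
  simp only [e]
  rw [integral_sub (i1.const_mul _) (i2.const_mul _), integral_const_mul, integral_const_mul,
    fine_cos hp hc hN hm, fine_sin hp hc hN hm]
  split_ifs <;> ring

/-- The weighted integral of a product of two low modes against a fine function. -/
lemma fine_prod {f : V → ℝ} (hp : Periodic3 f) (hc : Continuous f) {N K : ℕ} (hN : 0 < N)
    {l k : Fin 3 → ℤ} (hl : ∀ i, |l i| ≤ K) (hk : ∀ i, |k i| + K < N) (φ θ : ℝ) :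
    ∫ x in Dom, f ((N : ℝ) • x) * (Real.cos (ph l x + φ) * Real.cos (ph k x + θ))
      = (∫ x in Dom, f x) / (volume Dom).toReal *
        ∫ x in Dom, Real.cos (ph l x + φ) * Real.cos (ph k x + θ) := by
  have hsub : ∀ i, |(l - k) i| < N := by
    intro i
    have := abs_sub (l i) (k i)
    have h1 := hk i
    have h2 := hl i
    simp only [Pi.sub_apply]
    omega
  have hadd : ∀ i, |(l + k) i| < N := by
    intro i
    have := abs_add_le (l i) (k i)
    have h1 := hk i
    have h2 := hl i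
    simp only [Pi.add_apply]
    omega
  have gen : ∀ {g : V → ℝ}, Periodic3 g → Continuous g →
      ∫ x in Dom, g ((N : ℝ) • x) * (Real.cos (ph l x + φ) * Real.cos (ph k x + θ))
      = ((if l - k = 0 then Real.cos (φ - θ) * ∫ x in Dom, g x else 0)
        + (if l + k = 0 then Real.cos (φ + θ) * ∫ x in Dom, g x else 0)) / 2 := by
    intro g hgp hgc
    have hcN : Continuous (fun x => g ((N : ℝ) • x)) := hgc.comp (continuous_const_smul (N : ℝ))
    have e : ∀ x, g ((N : ℝ) • x) * (Real.cos (ph l x + φ) * Real.cos (ph k x + θ))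
        = (g ((N : ℝ) • x) * Real.cos (ph (l - k) x + (φ - θ))) * (1 / 2)
          + (g ((N : ℝ) • x) * Real.cos (ph (l + k) x + (φ + θ))) * (1 / 2) := by
      intro x
      have e1 : ph (l - k) x + (φ - θ) = (ph l x + φ) - (ph k x + θ) := by
        rw [ph_sub_left]; ring
      have e2 : ph (l + k) x + (φ + θ) = (ph l x + φ) + (ph k x + θ) := by
        rw [ph_add_left]; ring
      rw [e1, e2, Real.cos_sub, Real.cos_add (ph l x + φ)]
      ring
    simp only [e]
    rw [integral_add, integral_mul_const, integral_mul_const, fine_phase hgp hgc hN hsub,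
      fine_phase hgp hgc hN hadd]
    · ring
    · exact ((mul_per (resc_per hgp N) (cosph_per _ _)).integrableOn
        (hcN.mul (cosph_cont _ _))).mul_const _
    · exact ((mul_per (resc_per hgp N) (cosph_per _ _)).integrableOn
        (hcN.mul (cosph_cont _ _))).mul_const _
  have h1 := gen (g := fun _ => 1) (fun _ _ => rfl) continuous_const
  have hv : ∫ _x in Dom, (1 : ℝ) = (volume Dom).toReal := by simp [Measure.real]
  simp only [one_mul, hv] at h1
  rw [gen hp hc, h1]
  have := vol_pos.ne'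
  split_ifs <;> field_simp <;> ring

/-! ### odd functions -/

lemma integral_odd {f : V → ℝ} (hp : Periodic3 f) (xs : V) (hf : ∀ x, f (xs - x) = - f x) :
    ∫ x in Dom, f x = 0 := by
  have hg : Periodic3 (fun x => f (-x)) := by
    intro i x
    simp only
    have := hp i (-(x + Pi.single i (2 * Real.pi)))
    rw [neg_add, neg_add_cancel_right] at this
    rw [neg_add]
    exact this.symm
  have h1 : ∫ x in Dom, f (xs - x) = ∫ x in Dom, f (-x) := by
    rw [← integral_translate hg (-xs)]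
    congr 1
    ext x
    congr 1
    abel
  have h2 : ∫ x in Dom, f (-x) = ∫ x in Dom, f x := by
    rw [← integral_cube hg, ← integral_cube hp]
    have h3 := (Measure.measurePreserving_neg (volume : Measure V)).setIntegral_preimage_emb
      (MeasurableEquiv.neg V).measurableEmbedding f cube
    have h4 : (Neg.neg : V → V) ⁻¹' cube = cube := by
      ext x
      simp only [cube, mem_preimage, mem_Icc, Pi.le_def, Pi.neg_apply]
      constructor
      · rintro ⟨a, b⟩
        exact ⟨fun i => by linarith [b i], fun i => by linarith [a i]⟩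
      · rintro ⟨a, b⟩
        exact ⟨fun i => by linarith [b i], fun i => by linarith [a i]⟩
    rw [h4] at h3
    exact h3
  have h5 : ∫ x in Dom, f (xs - x) = -∫ x in Dom, f x := by
    simp only [hf]
    exact integral_neg _
  linarith

lemma wr_neg (s : ℝ) : wr (-s) = -wr s ∨ (1 ≤ |wr (-s)| ∧ 1 ≤ |wr s|) := by
  have hpi := Real.pi_gt_three
  obtain ⟨z, hz⟩ := wr_exists s
  have h0 := wr_mem s
  rcases h0.2.lt_or_eq with h | h
  · left
    refine wr_eq ⟨by linarith, by linarith [h0.1]⟩ ⟨-z, ?_⟩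
    push_cast
    linarith
  · right
    have e : wr (-s) = Real.pi := by
      refine wr_eq ⟨by linarith, le_refl _⟩ ⟨-z - 1, ?_⟩
      push_cast
      rw [h] at hz
      linarith
    rw [e, h]
    have : |Real.pi| = Real.pi := abs_of_pos Real.pi_pos
    rw [this]
    constructor <;> linarith

/-- Odd functions of the wrapped coordinates have mean zero. -/
lemma mean_odd {a b : Fin 3 → ℤ} {c : V} {A B δ : ℝ} (hA : ph a (rv a) = A) (hB : ph b (rv b) = B)
    (hA0 : A ≠ 0) (hB0 : B ≠ 0) (hab : ph a (rv b) = 0) (hba : ph b (rv a) = 0) (hδ : δ ≤ 1)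
    {h : V → ℝ} (hh : HT δ h) (hodd : ∀ y, h (-y) = - h y) :
    ∫ x in Dom, h (wv c (Lm a b x)) = 0 := by
  set xs : V := (2 * c 0 / A) • rv a + (2 * c 1 / B) • rv b with hxs
  have e0 : ph a xs = 2 * c 0 := by
    rw [hxs, ph_add, ph_smul, ph_smul, hA, hab]; field_simp; ring
  have e1 : ph b xs = 2 * c 1 := by
    rw [hxs, ph_add, ph_smul, ph_smul, hB, hba]; field_simp; ring
  have phsub : ∀ (l : Fin 3 → ℤ) (x y : V), ph l (x - y) = ph l x - ph l y := by
    intro l x y
    rw [← phL_apply, ← phL_apply, ← phL_apply, map_sub]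
  refine integral_odd (Lm_periodic a b c h) xs fun x => ?_
  have w0 : wv c (Lm a b (xs - x)) 0 = wr (-(ph a x - c 0)) := by
    simp only [wv_0, Lm_0]
    congr 1
    rw [phsub, e0]; ring
  have w1 : wv c (Lm a b (xs - x)) 1 = wr (-(ph b x - c 1)) := by
    simp only [wv_1, Lm_1]
    congr 1
    rw [phsub, e1]; ring
  have v0 : wv c (Lm a b x) 0 = wr (ph a x - c 0) := rfl
  have v1 : wv c (Lm a b x) 1 = wr (ph b x - c 1) := rfl
  rcases wr_neg (ph a x - c 0) with h0 | ⟨h0, h0'⟩
  · rcases wr_neg (ph b x - c 1) with h1 | ⟨h1, h1'⟩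
    · rw [← hodd]
      refine hh.ind _ _ ?_ ?_
      · rw [w0, h0]; rfl
      · rw [w1, h1]; rfl
    · rw [hh.van _ (hδ.trans (one_le_rad_of_one (by rw [w1]; exact h1))),
        hh.van _ (hδ.trans (one_le_rad_of_one (y := wv c (Lm a b x)) (by rw [v1]; exact h1')))]
      simp
  · rw [hh.van _ (hδ.trans (one_le_rad_of_zero (by rw [w0]; exact h0))),
      hh.van _ (hδ.trans (one_le_rad_of_zero (y := wv c (Lm a b x)) (by rw [v0]; exact h0')))]
    simp

namespace TD

variable {D : TD}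

lemma qr_neg (A B : ℝ) (y : V) : qr A B (-y) = qr A B y := by
  unfold qr; simp

lemma cont_of_ht {a b : Fin 3 → ℤ} {c : V} {δ : ℝ} (hδ : δ ≤ 1) {h : V → ℝ} (hh : HT δ h)
    (hc : Continuous h) : Continuous (fun x => h (wv c (Lm a b x))) :=
  (hh.contDiff hδ (contDiff_zero.2 hc) c).continuous.comp (Lm_continuous a b)

lemma pcont : Continuous (fun y : V => pA (D.δ / 2) (qr D.A D.B y)) :=
  (pA_rp (D.δ / 2)).smooth.continuous.comp (qr_contDiff D.A D.B (n := 0)).continuous

lemma gg_cont (t : ℝ) : Continuous (D.gg t) :=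
  ((continuous_const.mul (continuous_apply 0)).add (continuous_const.mul (continuous_apply 1))).mul
    pcont

lemma F1_cont (N : ℕ) (t : ℝ) : Continuous (D.F1 N t) :=
  (Real.continuous_cos.comp ((continuous_apply 0).div_const _)).mul (gg_cont t)

lemma F2_cont (N : ℕ) (t : ℝ) : Continuous (D.F2 N t) :=
  (Real.continuous_sin.comp ((continuous_apply 0).div_const _)).mul (gg_cont t)

lemma sw_cont (h : D.Ok) (i : Fin 3) : Continuous (D.sw i) :=
  (continuous_const.mul ((((continuous_apply 1).mul continuous_const).neg).add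
    ((continuous_apply 0).mul continuous_const))).mul
    ((chi_rp h.hδ0).smooth.continuous.comp (qr_contDiff D.A D.B (n := 0)).continuous)

lemma mean_sw (h : D.Ok) (i : Fin 3) : ∫ x in Dom, D.sw i (wv D.c (Lm D.a D.b x)) = 0 := by
  have hA := h.hA
  have hB := h.hB
  refine mean_odd (A := D.A) (B := D.B) rfl rfl (by linarith) (by linarith) h.hab h.hba h.hδ1
    (sw_ht h i) fun y => ?_
  unfold sw
  rw [qr_neg]
  simp only [Pi.neg_apply]
  ring

lemma mean_F1 (h : D.Ok) (N : ℕ) (t : ℝ) :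
    ∫ x in Dom, D.F1 N t (wv D.c (Lm D.a D.b x)) = 0 := by
  have hA := h.hA
  have hB := h.hB
  refine mean_odd (A := D.A) (B := D.B) rfl rfl (by linarith) (by linarith) h.hab h.hba h.hδ1
    (F1_ht h N t) fun y => ?_
  unfold F1 gg
  rw [qr_neg]
  simp only [Pi.neg_apply, neg_div, Real.cos_neg]
  ring

/-- `sin(y₀/N) y₀ γ(R)` -/
noncomputable def m0 (D : TD) (N : ℕ) (y : V) : ℝ :=
  (Real.sin (y 0 / N) * y 0) * pA (D.δ / 2) (qr D.A D.B y)
/-- `sin(y₀/N) y₁ γ(R)` -/
noncomputable def m1 (D : TD) (N : ℕ) (y : V) : ℝ :=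
  (Real.sin (y 0 / N) * y 1) * pA (D.δ / 2) (qr D.A D.B y)

lemma hht (h : D.Ok) {f : V → ℝ} (hf : ∀ y z : V, y 0 = z 0 → y 1 = z 1 → f y = f z) :
    HT D.δ (fun y => f y * pA (D.δ / 2) (qr D.A D.B y)) := by
  have hd : D.δ / 2 ≤ D.δ := by linarith [h.hδ0]
  exact ht_mul (rp_mono hd (pA_rp (D.δ / 2))) h.hA h.hB hf

lemma m0_ht (h : D.Ok) (N : ℕ) : HT D.δ (D.m0 N) := hht h (fun y z h0 _ => by rw [h0])
lemma m1_ht (h : D.Ok) (N : ℕ) : HT D.δ (D.m1 N) := hht h (fun y z h0 h1 => by rw [h0, h1])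

lemma m0_cont (N : ℕ) : Continuous (D.m0 N) :=
  ((Real.continuous_sin.comp ((continuous_apply 0).div_const _)).mul (continuous_apply 0)).mul pcont
lemma m1_cont (N : ℕ) : Continuous (D.m1 N) :=
  ((Real.continuous_sin.comp ((continuous_apply 0).div_const _)).mul (continuous_apply 1)).mul pcont

/-- The mixed moment vanishes, by the divergence theorem. -/
lemma mean_m1 (h : D.Ok) (N : ℕ) : ∫ x in Dom, D.m1 N (wv D.c (Lm D.a D.b x)) = 0 := by
  have hA := h.hA
  have hB := h.hB
  have hd : D.δ / 2 ≤ D.δ := by linarith [h.hδ0]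
  set Φ : V → ℝ := fun y => (Real.sin (y 0 / N) * (1 / (2 * D.A * D.B)))
    * prim (D.δ / 2) (pA (D.δ / 2)) (qr D.A D.B y) with hΦ
  have hΦt : HT D.δ Φ := ht_mul (rp_mono hd (pA_rp (D.δ / 2)).prim) h.hA h.hB
    (fun y z h0 _ => by rw [h0])
  have hΦs : ContDiff ℝ ∞ Φ := by
    have h0 : ContDiff ℝ ∞ (fun y : V => y 0 / N) := (contDiff_apply ℝ ℝ (0 : Fin 3)).div_const _
    exact ((Real.contDiff_sin.comp h0).mul contDiff_const).mul
      ((pA_rp (D.δ / 2)).prim.smooth.comp (qr_contDiff D.A D.B))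
  set H : V → V := fun x => Φ (wv D.c (Lm D.a D.b x)) • rv D.b with hH
  have hHp : Periodic3 H := Lm_periodic D.a D.b D.c (fun y => Φ y • rv D.b)
  have hzc : ∀ x, Lm D.a D.b x = Lm D.a D.b (((1 : ℕ) : ℝ) • x) := by intro x; simp
  have hloc : ∀ x₀, (fun x => Φ (wv D.c (Lm D.a D.b x)))
      =ᶠ[𝓝 x₀] fun x => Φ (zc D.a D.b D.c 1 x₀ x) := by
    intro x₀
    filter_upwards [near D.a D.b D.c 1 x₀ h.hδ1] with x hx
    rw [← hx Φ hΦt]
    unfold yc
    rw [← hzc]
  have hHs : ContDiff ℝ 1 H := by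
    have h1 : ContDiff ℝ 1 (fun x => Φ (wv D.c (Lm D.a D.b x))) := by
      rw [contDiff_iff_contDiffAt]
      intro x₀
      refine ContDiffAt.congr_of_eventuallyEq ?_ (hloc x₀)
      exact ((hΦs.of_le (by exact_mod_cast le_top)).comp (zc_contDiff D.a D.b D.c 1 x₀)).contDiffAt
    exact h1.smul contDiff_const
  have hdiv := integral_divergence_eq_zero hHs hHp
  rw [← hdiv]
  congr 1
  ext x
  -- derivative of `Φ`
  set z := zc D.a D.b D.c 1 x x with hz
  have hd0 : HD Φ ((Real.sin (z 0 / N) * (1 / (2 * D.A * D.B))) * (pA (D.δ / 2) (qr D.A D.B z)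
        * (2 * D.B * z 0)) + prim (D.δ / 2) (pA (D.δ / 2)) (qr D.A D.B z)
        * (1 / (2 * D.A * D.B) * (Real.cos (z 0 / N) * ((N : ℝ)⁻¹ * 1))))
      ((Real.sin (z 0 / N) * (1 / (2 * D.A * D.B))) * (pA (D.δ / 2) (qr D.A D.B z)
        * (2 * D.A * z 1))) z := by
    have h1 := HD.comp (prim_hasDerivAt (pA_rp (D.δ / 2)) (qr D.A D.B z)) (qr_hd D.A D.B z)
    have h2 : HD (fun y : V => y 0 / N) ((N : ℝ)⁻¹ * 1) ((N : ℝ)⁻¹ * 0) z := by
      have e : (fun y : V => y 0 / N) = fun y : V => (N : ℝ)⁻¹ * y 0 := by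
        ext y; ring
      rw [e]
      exact (HD.x0 z).const_mul _
    have h3 := HD.comp (φ := Real.sin) (Real.hasDerivAt_sin (z 0 / N)) h2
    have h4 : HD (fun y : V => Real.sin (y 0 / N) * (1 / (2 * D.A * D.B)))
        (1 / (2 * D.A * D.B) * (Real.cos (z 0 / N) * ((N : ℝ)⁻¹ * 1))) 0 z := by
      have e : (fun y : V => Real.sin (y 0 / N) * (1 / (2 * D.A * D.B)))
          = fun y : V => (1 / (2 * D.A * D.B)) * Real.sin (y 0 / N) := by
        ext y; ring
      rw [e]
      refine (h3.const_mul _).congr rfl ?_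
      ring
    refine (h4.mul h1).congr rfl ?_
    ring
  have hch := (chain D.a D.b D.c 1 x x hd0).congr_of_eventuallyEq (hloc x)
  have hHd : HasFDerivAt H _ x := hch.smul_const (rv D.b)
  rw [divergence_eq_sum, hHd.fderiv]
  have hm : D.m1 N (wv D.c (Lm D.a D.b x)) = D.m1 N z := by
    have := near_self D.a D.b D.c 1 x (m1_ht h N)
    rw [← this]
    unfold yc
    rw [← hzc]
  rw [hm]
  simp only [ContinuousLinearMap.smulRight_apply, Pi.smul_apply, smul_eq_mul, add_apply,
    smul_apply, phL_apply, ph_single_one, Nat.cast_one, one_mul]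
  have eb : ∑ i, ((D.b i : ℝ) * rv D.b i) = D.B := rfl
  have eab : ∑ i, ((D.a i : ℝ) * rv D.b i) = 0 := h.hab
  have hA0 : D.A ≠ 0 := by linarith
  have hB0 : D.B ≠ 0 := by linarith
  simp only [add_mul, Finset.sum_add_distrib, mul_assoc, ← Finset.mul_sum]
  rw [eab, eb]
  unfold m1
  field_simp
  ring

/-- the moment -/
noncomputable def kN (D : TD) (N : ℕ) : ℝ := ∫ x in Dom, D.m0 N (wv D.c (Lm D.a D.b x))

lemma mean_F2 (h : D.Ok) (N : ℕ) (t : ℝ) :
    ∫ x in Dom, D.F2 N t (wv D.c (Lm D.a D.b x)) = D.ct t * D.kN N := by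
  have e : ∀ y, D.F2 N t y = D.ct t * D.m0 N y + D.st t * D.m1 N y := by
    intro y; unfold F2 gg m0 m1; ring
  simp only [e]
  rw [integral_add, integral_const_mul, integral_const_mul, mean_m1 h, mul_zero, add_zero]
  · rfl
  · exact ((Lm_periodic D.a D.b D.c (D.m0 N)).integrableOn
      (cont_of_ht h.hδ1 (m0_ht h N) (m0_cont N))).const_mul _
  · exact ((Lm_periodic D.a D.b D.c (D.m1 N)).integrableOn
      (cont_of_ht h.hδ1 (m1_ht h N) (m1_cont N))).const_mul _

end TD

end Pool.Agent.K3h70.EP
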