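import Pool.Agent.K3h70.EP.Flow

/-!
# The tube flow is a smooth solution; superposition of disjoint solutions
-/

set_option autoImplicit false

open MeasureTheory Set Filter Topology
open scoped ENNReal NNReal ContDiff

namespace Pool.Agent.K3h70.EP

open Pool.Agent.H708R2.EulerSign Pool.Agent.H708R2.EulerModes
open Pool.Agent.R739.ET

namespace TD

variable {D : TD}

lemma U_joint (h : D.Ok) (N : ℕ) (lam κ : ℝ) :
    ContDiff ℝ ∞ (fun z : ℝ × V => D.U N lam κ z.1 z.2) := by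
  have hx : ∀ i : Fin 3, ContDiff ℝ ∞ (fun z : ℝ × V => z.2 i) := fun i =>
    (contDiff_apply ℝ ℝ i).comp contDiff_snd
  have hr : ContDiff ℝ ∞ (fun z : ℝ × V => qr D.A D.B z.2) :=
    (qr_contDiff D.A D.B).comp contDiff_snd
  have hchi : ContDiff ℝ ∞ (fun z : ℝ × V => chi D.δ (qr D.A D.B z.2)) :=
    (chi_rp h.hδ0).smooth.comp hr
  have hp : ContDiff ℝ ∞ (fun z : ℝ × V => pA (D.δ / 2) (qr D.A D.B z.2)) :=
    (pA_rp (D.δ / 2)).smooth.comp hr
  have hθ : ContDiff ℝ ∞ (fun z : ℝ × V => D.Ω * z.1 + D.ψ) :=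
    (contDiff_const.mul contDiff_fst).add contDiff_const
  have hc : ContDiff ℝ ∞ (fun z : ℝ × V => D.ct z.1) := Real.contDiff_cos.comp hθ
  have hs : ContDiff ℝ ∞ (fun z : ℝ × V => D.st z.1) :=
    contDiff_const.mul (Real.contDiff_sin.comp hθ)
  have hg : ContDiff ℝ ∞ (fun z : ℝ × V => D.gg z.1 z.2) :=
    ((hc.mul (hx 0)).add (hs.mul (hx 1))).mul hp
  have hsw : ∀ i, ContDiff ℝ ∞ (fun z : ℝ × V => D.sw i z.2) := fun i =>
    (contDiff_const.mul ((((hx 1).mul contDiff_const).neg).add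
      ((hx 0).mul contDiff_const))).mul hchi
  rw [contDiff_pi]
  intro i
  exact (contDiff_const.mul (hsw i)).add ((contDiff_const.mul hg).mul contDiff_const)

lemma zc_contDiff (a b : Fin 3 → ℤ) (c : V) (N : ℕ) (x₀ : V) {n : WithTop ℕ∞} :
    ContDiff ℝ n (zc a b c N x₀) := by
  have h : ContDiff ℝ n (fun x : V => Lm a b ((N : ℝ) • x)) := by
    rw [contDiff_pi]
    have hp : ∀ l : Fin 3 → ℤ, ContDiff ℝ n (fun x : V => ph l ((N : ℝ) • x)) := by
      intro l
      have e : (fun x : V => ph l ((N : ℝ) • x)) = fun x => phL l ((N : ℝ) • x) := by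
        ext x; rw [phL_apply]
      rw [e]
      exact (phL l).contDiff.comp (contDiff_const_smul (N : ℝ))
    intro i
    fin_cases i
    · exact hp a
    · exact hp b
    · exact contDiff_const
  exact h.add contDiff_const

lemma vel_joint (h : D.Ok) {N : ℕ} (hN : 0 < N) (lam : ℝ) :
    ContDiff ℝ ∞ (fun z : ℝ × V => D.vel N lam z.1 z.2) := by
  rw [contDiff_iff_contDiffAt]
  intro z₀
  have h1 : (fun z : ℝ × V => D.vel N lam z.1 z.2) =ᶠ[𝓝 z₀]
      fun z => D.U N lam (D.kap N z₀.2) z.1 (zc D.a D.b D.c N z₀.2 z.2) := by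
    have h2 := (continuous_snd.tendsto z₀).eventually (loc h hN lam z₀.2)
    filter_upwards [h2] with z hz
    exact hz z.1
  refine ContDiffAt.congr_of_eventuallyEq ?_ h1
  have h2 : ContDiff ℝ ∞ (fun z : ℝ × V => ((z.1, zc D.a D.b D.c N z₀.2 z.2) : ℝ × V)) :=
    contDiff_fst.prodMk ((zc_contDiff D.a D.b D.c N z₀.2).comp contDiff_snd)
  exact ((U_joint h N lam (D.kap N z₀.2)).comp h2).contDiffAt

lemma pre_smooth (h : D.Ok) (N : ℕ) : ContDiff ℝ ∞ (D.pre N) := by
  rw [contDiff_iff_contDiffAt]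
  intro x₀
  have h1 : D.pre N =ᶠ[𝓝 x₀] fun y => (N : ℝ)⁻¹ ^ 2 * D.prs (zc D.a D.b D.c N x₀ y) := by
    filter_upwards [near D.a D.b D.c N x₀ h.hδ1] with y hy
    unfold pre
    rw [hy _ (prs_ht h)]
  refine ContDiffAt.congr_of_eventuallyEq ?_ h1
  have h2 : ContDiff ℝ ∞ D.prs :=
    contDiff_const.mul (contDiff_const.mul ((cc_rp h.hδ0).prim.smooth.comp (qr_contDiff D.A D.B)))
  exact (contDiff_const.mul (h2.comp (zc_contDiff D.a D.b D.c N x₀))).contDiffAt

lemma yc_per {F : Type*} (a b : Fin 3 → ℤ) (c : V) (N : ℕ) (h : V → F) :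
    Periodic3 (fun x => h (yc a b c N x)) :=
  periodic_resc (f := fun x => h (wv c (Lm a b x))) (Lm_periodic a b c h) N

lemma vel_per (D : TD) (N : ℕ) (lam t : ℝ) : Periodic3 (D.vel N lam t) := by
  intro i x
  have h := yc_per D.a D.b D.c N (fun y => y) i x
  simp only at h
  unfold vel
  have e1 : Real.cos (ph D.a (x + Pi.single i (2 * Real.pi)) + D.φ)
      = Real.cos (ph D.a x + D.φ) := by
    rw [ph_add, ph_single, show ph D.a x + (D.a i : ℝ) * (2 * Real.pi) + D.φ
      = (ph D.a x + D.φ) + (D.a i : ℤ) * (2 * Real.pi) by ring, Real.cos_add_int_mul_two_pi]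
  have e2 : Real.sin (ph D.a (x + Pi.single i (2 * Real.pi)) + D.φ)
      = Real.sin (ph D.a x + D.φ) := by
    rw [ph_add, ph_single, show ph D.a x + (D.a i : ℝ) * (2 * Real.pi) + D.φ
      = (ph D.a x + D.φ) + (D.a i : ℤ) * (2 * Real.pi) by ring, Real.sin_add_int_mul_two_pi]
  rw [h, e1, e2]

lemma pre_per (D : TD) (N : ℕ) : Periodic3 (D.pre N) :=
  yc_per D.a D.b D.c N (fun y => (N : ℝ)⁻¹ ^ 2 * D.prs y)

lemma vel_eul (h : D.Ok) {N : ℕ} (hN : 0 < N) (lam : ℝ) : Eul (D.vel N lam) (D.pre N) :=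
  ⟨vel_joint h hN lam, pre_smooth h N, vel_per D N lam, pre_per D N,
    fun t x => vel_div h hN lam t x, fun t x i => vel_mom h hN lam t x i⟩

/-- The flow and the pressure vanish outside of the tubes. -/
lemma vel_zero (h : D.Ok) (N : ℕ) (lam : ℝ) {x : V}
    (hx : D.δ ≤ qr D.A D.B (yc D.a D.b D.c N x)) :
    (∀ t, D.vel N lam t x = 0) ∧ D.pre N x = 0 := by
  have h1 : chi D.δ (qr D.A D.B (yc D.a D.b D.c N x)) = 0 := (chi_rp h.hδ0).van _ hx
  have h2 : pA (D.δ / 2) (qr D.A D.B (yc D.a D.b D.c N x)) = 0 :=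
    (pA_rp (D.δ / 2)).van _ (by linarith [h.hδ0])
  have h3 : prim D.δ (fun R => chi D.δ R * chi D.δ R) (qr D.A D.B (yc D.a D.b D.c N x)) = 0 :=
    (cc_rp h.hδ0).prim.van _ hx
  constructor
  · intro t
    ext i
    unfold vel F1 F2 gg sw
    rw [h1, h2]
    simp
  · unfold pre prs
    rw [h3]
    simp

/-- The tubes are contained in the sets where the function `gfun` is small. -/
lemma qr_ge (h : D.Ok) {j : ℕ} (hc0 : D.c 0 = phs (2 * j + 1)) (hc1 : D.c 1 = phs (2 * j + 2))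
    {r : ℝ} (hr : D.δ ≤ 2 * r) (N : ℕ) {x : V} (hx : r ≤ gfun D.a D.b j ((N : ℝ) • x)) :
    D.δ ≤ qr D.A D.B (yc D.a D.b D.c N x) := by
  set y := yc D.a D.b D.c N x with hy
  have hcos : ∀ s : ℝ, Real.cos s = Real.cos (wr s) := by
    intro s
    obtain ⟨z, hz⟩ := wr_exists s
    conv_lhs => rw [hz]
    exact Real.cos_add_int_mul_two_pi _ _
  have h0 : y 0 = wr (ph D.a ((N : ℝ) • x) - D.c 0) := rfl
  have h1 : y 1 = wr (ph D.b ((N : ℝ) • x) - D.c 1) := rfl
  unfold gfun at hx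
  rw [← hc0, ← hc1, hcos, hcos (ph D.b ((N : ℝ) • x) - D.c 1), ← h0, ← h1] at hx
  have e0 := Real.one_sub_sq_div_two_le_cos (x := y 0)
  have e1 := Real.one_sub_sq_div_two_le_cos (x := y 1)
  have e2 : rad y ≤ qr D.A D.B y := rad_le_qr h.hA h.hB y
  unfold rad at e2
  linarith

end TD

/-- Superposition of solutions with disjoint supports. -/
theorem superpose {ι : Type} [Fintype ι] {v : ι → ℝ → V → V} {p : ι → V → ℝ}
    {G : ι → V → ℝ} {r : ℝ} (hr : 0 < r) (hE : ∀ j, Eul (v j) (p j)) (hG : ∀ j, Continuous (G j))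
    (hdis : ∀ i j, i ≠ j → ∀ x, 4 * r ≤ G i x + G j x)
    (hsupp : ∀ j x, r ≤ G j x → (∀ t, v j t x = 0) ∧ p j x = 0) :
    Eul (fun t x => ∑ j, v j t x) (fun x => ∑ j, p j x) := by
  classical
  have hvs : ∀ j t, ContDiff ℝ ∞ (v j t) := fun j t =>
    (hE j).joint.comp (contDiff_const.prodMk contDiff_id)
  have hvd : ∀ j t, Differentiable ℝ (v j t) := fun j t => (hvs j t).differentiable (by simp)
  have hpd : ∀ j, Differentiable ℝ (p j) := fun j => (hE j).psm.differentiable (by simp)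
  have hF : ∀ t x, fderiv ℝ (fun x => ∑ j, v j t x) x = ∑ j, fderiv ℝ (v j t) x := fun t x =>
    (HasFDerivAt.fun_sum fun j _ => (hvd j t x).hasFDerivAt).fderiv
  have hP : ∀ x, fderiv ℝ (fun x => ∑ j, p j x) x = ∑ j, fderiv ℝ (p j) x := fun x =>
    (HasFDerivAt.fun_sum fun j _ => (hpd j x).hasFDerivAt).fderiv
  have htd : ∀ j t x i, DifferentiableAt ℝ (fun s => v j s x i) t := by
    intro j t x i
    have h1 : ContDiff ℝ ∞ (fun s : ℝ => v j s x) :=
      (hE j).joint.comp (contDiff_id.prodMk contDiff_const)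
    have h2 : ContDiff ℝ ∞ (fun s : ℝ => v j s x i) := (contDiff_apply ℝ ℝ i).comp h1
    exact h2.differentiable (by simp) t
  -- a field with `G > r` vanishes near the point
  have hloc : ∀ j x, r < G j x → (∀ t, v j t x = 0) ∧ (∀ t, fderiv ℝ (v j t) x = 0) ∧
      fderiv ℝ (p j) x = 0 := by
    intro j x hx
    have hev : ∀ᶠ y in 𝓝 x, r < G j y := (hG j).continuousAt.eventually (lt_mem_nhds hx)
    refine ⟨(hsupp j x hx.le).1, fun t => ?_, ?_⟩
    · have : v j t =ᶠ[𝓝 x] fun _ => 0 := by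
        filter_upwards [hev] with y hy
        exact (hsupp j y hy.le).1 t
      rw [this.fderiv_eq]
      simp
    · have : p j =ᶠ[𝓝 x] fun _ => 0 := by
        filter_upwards [hev] with y hy
        exact (hsupp j y hy.le).2
      rw [this.fderiv_eq]
      simp
  refine ⟨?_, ?_, ?_, ?_, ?_, ?_⟩
  · exact ContDiff.sum fun j _ => (hE j).joint
  · exact ContDiff.sum fun j _ => (hE j).psm
  · intro t i x
    simp only
    exact Finset.sum_congr rfl fun j _ => (hE j).per t i x
  · intro i x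
    simp only
    exact Finset.sum_congr rfl fun j _ => (hE j).pper i x
  · intro t x
    rw [divergence_eq_sum, hF]
    simp only [sum_apply, Finset.sum_apply]
    rw [Finset.sum_comm]
    refine Finset.sum_eq_zero fun j _ => ?_
    have := (hE j).div t x
    rw [divergence_eq_sum] at this
    exact this
  · intro t x i
    have hdt : deriv (fun s => (∑ j, v j s x) i) t = ∑ j, deriv (fun s => v j s x i) t := by
      have : (fun s => (∑ j, v j s x) i) = fun s => ∑ j, v j s x i := by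
        ext s; rw [Finset.sum_apply]
      rw [this]
      exact deriv_fun_sum fun j _ => htd j t x i
    rw [hF, hP, hdt]
    simp only [sum_apply, Finset.sum_apply]
    rw [← Finset.sum_neg_distrib, ← Finset.sum_add_distrib]
    refine Finset.sum_congr rfl fun j _ => ?_
    rw [← (hE j).mom t x i]
    congr 1
    by_cases hj : r < G j x
    · rw [(hloc j x hj).2.1 t]; simp
    · have hsum : ∑ k, v k t x = v j t x := by
        refine Finset.sum_eq_single j (fun k _ hk => ?_) (fun h => absurd (Finset.mem_univ j) h)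
        have h1 := hdis k j hk x
        exact (hloc k x (by linarith [not_lt.1 hj])).1 t
      rw [hsum]

end Pool.Agent.K3h70.EP
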