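import Pool.Agent.K3h70.EP.Asm

/-!
# Trigonometric polynomials in time
-/

set_option autoImplicit false

open MeasureTheory Set Filter Topology
open scoped ENNReal NNReal ContDiff

namespace Pool.Agent.K3h70.EP

open Pool.Agent.H708R2.EulerSign Pool.Agent.H708R2.EulerModes
open Pool.Agent.R739.ET

lemma TrigPoly.const (c : ℝ) : TrigPoly (fun _ => c) :=
  ⟨1, fun _ => 0, fun _ => c, fun _ => 0, fun t => by simp⟩

lemma TrigPoly.add {f g : ℝ → ℝ} (hf : TrigPoly f) (hg : TrigPoly g) :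
    TrigPoly (fun t => f t + g t) := by
  obtain ⟨n, w, a, b, h2⟩ := hf
  obtain ⟨m, w', c, d, h4⟩ := hg
  refine ⟨n + m, Fin.append w w', Fin.append a c, Fin.append b d, fun t => ?_⟩
  simp only
  rw [Fin.sum_univ_add, h2, h4]
  simp only [Fin.append_left, Fin.append_right]

lemma TrigPoly.const_mul {f : ℝ → ℝ} (hf : TrigPoly f) (c : ℝ) : TrigPoly (fun t => c * f t) := by
  obtain ⟨n, w, a, b, h2⟩ := hf
  refine ⟨n, w, fun j => c * a j, fun j => c * b j, fun t => ?_⟩
  simp only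
  rw [h2, Finset.mul_sum]
  exact Finset.sum_congr rfl fun j _ => by ring

lemma TrigPoly.sum {ι : Type*} (s : Finset ι) {f : ι → ℝ → ℝ} (h : ∀ j ∈ s, TrigPoly (f j)) :
    TrigPoly (fun t => ∑ j ∈ s, f j t) := by
  classical
  induction s using Finset.induction_on with
  | empty => simpa using TrigPoly.const 0
  | insert a s ha ih =>
    have h1 := (h a (Finset.mem_insert_self a s)).add
      (ih fun j hj => h j (Finset.mem_insert_of_mem hj))
    have e : (fun t => ∑ j ∈ insert a s, f j t) = fun t => f a t + ∑ j ∈ s, f j t := by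
      ext1 t; rw [Finset.sum_insert ha]
    rw [e]; exact h1

lemma TrigPoly.cos (w : ℝ) : TrigPoly (fun t => Real.cos (w * t)) :=
  ⟨1, fun _ => w, fun _ => 1, fun _ => 0, fun t => by simp⟩

lemma TrigPoly.sin (w : ℝ) : TrigPoly (fun t => Real.sin (w * t)) :=
  ⟨1, fun _ => w, fun _ => 0, fun _ => 1, fun t => by simp⟩

lemma TrigPoly.mul_sin {f : ℝ → ℝ} (hf : TrigPoly f) (c : ℝ) :
    TrigPoly (fun t => f t * Real.sin (c * t)) := by
  obtain ⟨n, w, a, b, h2⟩ := hf
  have e : (fun t => f t * Real.sin (c * t)) = fun t => ∑ j,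
      ((a j / 2) * Real.sin ((w j + c) * t) + (-(a j / 2)) * Real.sin ((w j - c) * t)
        + ((b j / 2) * Real.cos ((w j - c) * t) + (-(b j / 2)) * Real.cos ((w j + c) * t))) := by
    ext1 t
    rw [h2, Finset.sum_mul]
    refine Finset.sum_congr rfl fun j _ => ?_
    rw [add_mul (w j) c t, sub_mul (w j) c t, Real.sin_add, Real.sin_sub, Real.cos_sub,
      Real.cos_add]
    ring
  rw [e]
  refine TrigPoly.sum _ fun j _ => ?_
  exact (((TrigPoly.sin _).const_mul _).add ((TrigPoly.sin _).const_mul _)).add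
    (((TrigPoly.cos _).const_mul _).add ((TrigPoly.cos _).const_mul _))

lemma TrigPoly.sin_pow (c : ℝ) (n : ℕ) : TrigPoly (fun t => Real.sin (c * t) ^ n) := by
  induction n with
  | zero => simpa using TrigPoly.const 1
  | succ n ih => simpa only [pow_succ] using ih.mul_sin c

lemma TrigPoly.poly (P : Polynomial ℝ) (c : ℝ) : TrigPoly (fun t => P.eval (Real.sin (c * t))) := by
  have e : (fun t => P.eval (Real.sin (c * t)))
      = fun t => ∑ i ∈ P.support, P.coeff i * Real.sin (c * t) ^ i := by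
    ext1 t; rw [Polynomial.eval_eq_sum, Polynomial.sum]
  rw [e]
  exact TrigPoly.sum _ fun i _ => (TrigPoly.sin_pow c i).const_mul _

lemma TrigPoly.bounded {f : ℝ → ℝ} (hf : TrigPoly f) : ∃ C, 0 ≤ C ∧ ∀ t, |f t| ≤ C := by
  obtain ⟨n, w, a, b, h2⟩ := hf
  refine ⟨∑ j, (|a j| + |b j|), by positivity, fun t => ?_⟩
  rw [h2]
  refine (Finset.abs_sum_le_sum_abs _ _).trans (Finset.sum_le_sum fun j _ => ?_)
  refine (abs_add_le _ _).trans (add_le_add ?_ ?_)
  · rw [abs_mul]; exact mul_le_of_le_one_right (abs_nonneg _) (Real.abs_cos_le_one _)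
  · rw [abs_mul]; exact mul_le_of_le_one_right (abs_nonneg _) (Real.abs_sin_le_one _)

/-- Approximation by polynomials, exact at finitely many points. -/
lemma exists_poly {h : ℝ → ℝ} (hc : ContinuousOn h (Icc (-1) 1)) (S : Finset ℝ) :
    (∀ s ∈ S, s ∈ Icc (-1 : ℝ) 1) → ∀ ε : ℝ, 0 < ε → ∃ P : Polynomial ℝ,
      (∀ s ∈ S, P.eval s = h s) ∧ ∀ x ∈ Icc (-1 : ℝ) 1, |P.eval x - h x| ≤ ε := by
  classical
  induction S using Finset.induction_on with
  | empty =>
    intro _ ε hε
    obtain ⟨P, hP⟩ := exists_polynomial_near_of_continuousOn (-1) 1 h hc ε hε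
    exact ⟨P, by simp, fun x hx => (hP x hx).le⟩
  | insert a S ha ih =>
    intro hS ε hε
    have haI : a ∈ Icc (-1 : ℝ) 1 := hS a (Finset.mem_insert_self a S)
    set R : Polynomial ℝ := ∏ s ∈ S, (Polynomial.X - Polynomial.C s) with hR
    have hRa : R.eval a ≠ 0 := by
      rw [hR, Polynomial.eval_prod, Finset.prod_ne_zero_iff]
      intro s hs
      simp only [Polynomial.eval_sub, Polynomial.eval_X, Polynomial.eval_C]
      intro h0
      exact ha (by rwa [sub_eq_zero.1 h0])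
    obtain ⟨M, hM⟩ := isCompact_Icc.exists_bound_of_continuousOn
      (R.continuous.continuousOn (s := Icc (-1 : ℝ) 1))
    have hM0 : 0 ≤ M := (norm_nonneg _).trans (hM a haI)
    have hRa0 : 0 < |R.eval a| := abs_pos.2 hRa
    obtain ⟨P, hP1, hP2⟩ := ih (fun s hs => hS s (Finset.mem_insert_of_mem hs))
      (ε / (1 + M / |R.eval a|)) (by positivity)
    have hPa : |P.eval a - h a| ≤ ε / (1 + M / |R.eval a|) := hP2 a haI
    refine ⟨P - Polynomial.C ((P.eval a - h a) / R.eval a) * R, ?_, ?_⟩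
    · intro s hs
      simp only [Polynomial.eval_sub, Polynomial.eval_mul, Polynomial.eval_C]
      rcases Finset.mem_insert.1 hs with rfl | hs
      · field_simp; ring
      · have : R.eval s = 0 := by
          rw [hR, Polynomial.eval_prod]
          exact Finset.prod_eq_zero hs (by simp)
        rw [this, mul_zero, sub_zero, hP1 s hs]
    · intro x hx
      simp only [Polynomial.eval_sub, Polynomial.eval_mul, Polynomial.eval_C]
      have e : P.eval x - (P.eval a - h a) / R.eval a * R.eval x - h x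
          = (P.eval x - h x) - (P.eval a - h a) / R.eval a * R.eval x := by ring
      rw [e]
      have h2 : |(P.eval a - h a) / R.eval a * R.eval x|
          ≤ ε / (1 + M / |R.eval a|) * (M / |R.eval a|) := by
        rw [abs_mul, abs_div]
        have h3 : |R.eval x| ≤ M := by
          have := hM x hx
          rwa [Real.norm_eq_abs] at this
        calc |P.eval a - h a| / |R.eval a| * |R.eval x|
            ≤ (ε / (1 + M / |R.eval a|)) / |R.eval a| * M := by gcongr
          _ = ε / (1 + M / |R.eval a|) * (M / |R.eval a|) := by ring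
      have h4 : ε / (1 + M / |R.eval a|) + ε / (1 + M / |R.eval a|) * (M / |R.eval a|)
          = ε := by
        have : 0 < 1 + M / |R.eval a| := by positivity
        field_simp
      have h5 := hP2 x hx
      refine (abs_sub _ _).trans ?_
      linarith

/-- Approximation of continuous functions on a compact interval, exact at finitely many points. -/
lemma exists_trigPoly {f : ℝ → ℝ} (hf : Continuous f) {T ε : ℝ} (hT : 0 < T) (hε : 0 < ε)
    {S : Finset ℝ} (hS : ∀ t ∈ S, t ∈ Icc (-T) T) :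
    ∃ g, TrigPoly g ∧ (∀ t ∈ S, g t = f t) ∧ ∀ t ∈ Icc (-T) T, |g t - f t| ≤ ε := by
  classical
  have hpi := Real.pi_pos
  set h : ℝ → ℝ := fun s => f (2 * T / Real.pi * Real.arcsin s) with hh
  have hc : Continuous h := hf.comp (continuous_const.mul Real.continuous_arcsin)
  set c : ℝ := Real.pi / (2 * T) with hcdef
  obtain ⟨P, hP1, hP2⟩ := exists_poly hc.continuousOn (S.image fun t => Real.sin (c * t))
    (by
      intro s hs
      obtain ⟨t, -, rfl⟩ := Finset.mem_image.1 hs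
      exact ⟨Real.neg_one_le_sin _, Real.sin_le_one _⟩) ε hε
  have key : ∀ t ∈ Icc (-T) T, h (Real.sin (c * t)) = f t := by
    intro t ht
    have h1 : c * t ∈ Icc (-(Real.pi / 2)) (Real.pi / 2) := by
      have e : Real.pi / 2 = c * T := by rw [hcdef]; field_simp
      have hc0 : 0 < c := by positivity
      rw [e]
      constructor
      · nlinarith [ht.1]
      · nlinarith [ht.2]
    simp only [hh]
    rw [Real.arcsin_sin' h1]
    congr 1
    rw [hcdef]; field_simp
  refine ⟨fun t => P.eval (Real.sin (c * t)), TrigPoly.poly P c, fun t ht => ?_, fun t ht => ?_⟩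
  · rw [← key t (hS t ht)]
    exact hP1 _ (Finset.mem_image_of_mem _ ht)
  · rw [← key t ht]
    exact hP2 _ ⟨Real.neg_one_le_sin _, Real.sin_le_one _⟩

/-- The same with the approximation equal to `f` if `f` is already a trigonometric polynomial. -/
lemma exists_trigPoly' {f : ℝ → ℝ} (hf : Continuous f) {T ε : ℝ} (hT : 0 < T) (hε : 0 < ε)
    {S : Finset ℝ} (hS : ∀ t ∈ S, t ∈ Icc (-T) T) :
    ∃ g, TrigPoly g ∧ (∀ t ∈ S, g t = f t) ∧ (∀ t ∈ Icc (-T) T, |g t - f t| ≤ ε) ∧
      (TrigPoly f → g = f) := by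
  by_cases h : TrigPoly f
  · exact ⟨f, h, fun _ _ => rfl, fun t _ => by simpa using hε.le, fun _ => rfl⟩
  · obtain ⟨g, h1, h2, h3⟩ := exists_trigPoly hf hT hε hS
    exact ⟨g, h1, h2, h3, fun h' => absurd h' h⟩

/-- The field `∑ₖ (cos (k · x) Aₖ + sin (k · x) Bₖ)` over the frequencies with `|kᵢ| ≤ K`. -/
noncomputable def tf (K : ℕ) (A B : (Fin 3 → ℤ) → V) (x : V) : V :=
  ∑ k ∈ Bx K, (Real.cos (ph k x) • A k + Real.sin (ph k x) • B k)

/-- a mode with an arbitrary amplitude -/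
lemma rs_mode {l ξ : Fin 3 → ℤ} (hl : l ≠ 0) (hξ : ξ ≠ 0) (hlξ : ph l (rv ξ) = 0) {K : ℕ}
    (hK : ∀ i, |l i| ≤ K) {f : ℝ → ℝ} (hf : TrigPoly f) (φ : ℝ) :
    RS K (fun t x => (f t * Real.cos (ph l x + φ)) • rv ξ) := by
  obtain ⟨n, w, a, b, h2⟩ := hf
  have e : (fun (t : ℝ) (x : V) => (f t * Real.cos (ph l x + φ)) • rv ξ)
      = fun t x => ∑ j, ((a j * Real.cos (w j * t + 0) * Real.cos (ph l x + φ)) • rv ξ
        + (b j * Real.cos (w j * t + -(Real.pi / 2)) * Real.cos (ph l x + φ)) • rv ξ) := by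
    ext1 t; ext1 x
    rw [h2, Finset.sum_mul, Finset.sum_smul]
    refine Finset.sum_congr rfl fun j _ => ?_
    rw [← add_smul]
    congr 1
    rw [add_zero, ← sub_eq_add_neg, Real.cos_sub_pi_div_two]
    ring
  rw [e]
  have hc : ∀ (μ Ω ψ : ℝ) (t : ℝ),
      Continuous (fun x : V => (μ * Real.cos (Ω * t + ψ) * Real.cos (ph l x + φ)) • rv ξ) ∧
      Periodic3 (fun x : V => (μ * Real.cos (Ω * t + ψ) * Real.cos (ph l x + φ)) • rv ξ) := by
    intro μ Ω ψ t
    constructor
    · exact (continuous_const.mul (cosph_cont l φ)).smul continuous_const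
    · intro i x
      have := cosph_per l φ i x
      simp only at this ⊢
      rw [this]
  refine RS.sum _ fun j _ => ?_
  exact (RS.single (realz_mode hl hξ hlξ hK _ _ _ _) (hc _ _ _)).add
    (RS.single (realz_mode hl hξ hlξ hK _ _ _ _) (hc _ _ _))

/-- Realisation of the modes with one frequency `k ≠ 0`. -/
lemma rs_freq {k : Fin 3 → ℤ} (hk : k ≠ 0) {K : ℕ} (hK : ∀ i, |k i| ≤ K) {A : ℝ → V}
    (hA : ∀ i, TrigPoly (fun t => A t i)) (hAo : ∀ t, ph k (A t) = 0) (φ : ℝ) :
    RS K (fun t x => Real.cos (ph k x + φ) • A t) := by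
  obtain ⟨p, hp⟩ : ∃ p, k p ≠ 0 := by
    by_contra hcon
    push Not at hcon
    exact hk (funext hcon)
  have hpr : (k p : ℝ) ≠ 0 := by exact_mod_cast hp
  set ξ₁ : Fin 3 → ℤ := mk3 p (-k (p + 1)) (k p) 0 with h1
  set ξ₂ : Fin 3 → ℤ := mk3 p (-k (p + 2)) 0 (k p) with h2
  have n1 : ξ₁ ≠ 0 := by
    intro h
    have := congrFun h (p + 1)
    rw [h1, mk3_q] at this
    exact hp this
  have n2 : ξ₂ ≠ 0 := by
    intro h
    have := congrFun h (p + 2)
    rw [h2, mk3_r] at this
    exact hp this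
  have o1 : ph k (rv ξ₁) = 0 := by
    rw [ph_eq _ _ p, h1, rv_mk3_p, rv_mk3_q, rv_mk3_r]; push_cast; ring
  have o2 : ph k (rv ξ₂) = 0 := by
    rw [ph_eq _ _ p, h2, rv_mk3_p, rv_mk3_q, rv_mk3_r]; push_cast; ring
  have hdec : ∀ t, A t = ((k p : ℝ)⁻¹ * A t (p + 1)) • rv ξ₁
      + ((k p : ℝ)⁻¹ * A t (p + 2)) • rv ξ₂ := by
    intro t
    have h0 := hAo t
    rw [ph_eq _ _ p] at h0
    refine ext3 p ?_ ?_ ?_
    · simp only [Pi.add_apply, Pi.smul_apply, smul_eq_mul]
      rw [h1, h2, rv_mk3_p, rv_mk3_p]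
      field_simp
      push_cast
      linarith
    · simp only [Pi.add_apply, Pi.smul_apply, smul_eq_mul]
      rw [h1, h2, rv_mk3_q, rv_mk3_q]
      field_simp
      push_cast
      ring
    · simp only [Pi.add_apply, Pi.smul_apply, smul_eq_mul]
      rw [h1, h2, rv_mk3_r, rv_mk3_r]
      field_simp
      push_cast
      ring
  have e : (fun (t : ℝ) (x : V) => Real.cos (ph k x + φ) • A t)
      = fun t x => (((k p : ℝ)⁻¹ * A t (p + 1)) * Real.cos (ph k x + φ)) • rv ξ₁
        + (((k p : ℝ)⁻¹ * A t (p + 2)) * Real.cos (ph k x + φ)) • rv ξ₂ := by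
    ext1 t; ext1 x
    conv_lhs => rw [hdec t]
    rw [smul_add, smul_smul, smul_smul, mul_comm (Real.cos (ph k x + φ)),
      mul_comm (Real.cos (ph k x + φ))]
  rw [e]
  exact (rs_mode hk n1 o1 hK ((hA (p + 1)).const_mul _) φ).add
    (rs_mode hk n2 o2 hK ((hA (p + 2)).const_mul _) φ)

/-- Realisation of a constant vector. -/
lemma rs_const (K : ℕ) (c : V) : RS K (fun _ _ => c) := by
  obtain ⟨ξ, m, n, -, hm, hn, hs, hspan⟩ := exists_dirs 0
  obtain ⟨a, ha⟩ := hspan c (ph_zero c)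
  have e : (fun (_ : ℝ) (_ : V) => c) = fun _ _ => ∑ i, a i • rv (ξ i) := by
    ext1 t; ext1 x; exact ha
  rw [e]
  refine RS.sum _ fun i _ => ?_
  exact RS.single (realz_mean (hm i) (hn i) (hs i) K (a i))
    fun t => ⟨continuous_const, fun i x => rfl⟩

/-- Realisation of paths of trigonometric fields. -/
theorem rs_tf (K : ℕ) {A B : ℝ → (Fin 3 → ℤ) → V}
    (hA : ∀ k ∈ Bx K, ∀ i, TrigPoly (fun t => A t k i))
    (hB : ∀ k ∈ Bx K, ∀ i, TrigPoly (fun t => B t k i))
    (hAo : ∀ k ∈ Bx K, ∀ t, ph k (A t k) = 0) (hBo : ∀ k ∈ Bx K, ∀ t, ph k (B t k) = 0)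
    (hA0 : ∀ t, A t 0 = A 0 0) : RS K (fun t x => tf K (A t) (B t) x) := by
  unfold tf
  refine RS.sum _ fun k hk => ?_
  by_cases h0 : k = 0
  · subst h0
    have e : (fun (t : ℝ) (x : V) => Real.cos (ph 0 x) • A t 0 + Real.sin (ph 0 x) • B t 0)
        = fun _ _ => A 0 0 := by
      ext1 t; ext1 x
      rw [ph_zero, Real.cos_zero, Real.sin_zero, one_smul, zero_smul, add_zero, hA0]
    rw [e]
    exact rs_const K _
  · have hk' := mem_Bx.1 hk
    have h1 := rs_freq h0 hk' (hA k hk) (hAo k hk) 0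
    have h2 := rs_freq h0 hk' (hB k hk) (hBo k hk) (-(Real.pi / 2))
    have e : (fun (t : ℝ) (x : V) => Real.cos (ph k x) • A t k + Real.sin (ph k x) • B t k)
        = fun t x => Real.cos (ph k x + 0) • A t k
          + Real.cos (ph k x + -(Real.pi / 2)) • B t k := by
      ext1 t; ext1 x
      rw [add_zero, ← sub_eq_add_neg, Real.cos_sub_pi_div_two]
    rw [e]
    exact h1.add h2

end Pool.Agent.K3h70.EP
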