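import Pool.Agent.R739.ET.Comb

/-!
# Rotating dipoles in thin tubes of arbitrary integer directions: the local calculus
-/

set_option autoImplicit false

open MeasureTheory Set Filter Topology
open scoped ENNReal NNReal ContDiff

namespace Pool.Agent.K3h70.EP

open Pool.Agent.H708R2.EulerSign Pool.Agent.H708R2.EulerModes
open Pool.Agent.R739.ET

/-- The linear map `x ↦ (a · x, b · x, 0)`. -/
noncomputable def Lm (a b : Fin 3 → ℤ) (x : V) : V := ![ph a x, ph b x, 0]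

@[simp] lemma Lm_0 (a b : Fin 3 → ℤ) (x : V) : Lm a b x 0 = ph a x := rfl
@[simp] lemma Lm_1 (a b : Fin 3 → ℤ) (x : V) : Lm a b x 1 = ph b x := rfl

lemma wr_add_int (s : ℝ) (z : ℤ) : wr (s + z * (2 * Real.pi)) = wr s := by
  rw [wr, wr, ← zsmul_eq_mul]
  exact toIocMod_add_zsmul _ _ _ _

lemma Lm_periodic {F : Type*} (a b : Fin 3 → ℤ) (c : V) (h : V → F) :
    Periodic3 (fun x => h (wv c (Lm a b x))) := by
  intro i x
  have e : wv c (Lm a b (x + Pi.single i (2 * Real.pi))) = wv c (Lm a b x) := by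
    unfold wv Lm
    have h0 : ph a (x + Pi.single i (2 * Real.pi)) - c 0
        = (ph a x - c 0) + (a i : ℤ) * (2 * Real.pi) := by
      rw [ph_add, ph_single]; ring
    have h1 : ph b (x + Pi.single i (2 * Real.pi)) - c 1
        = (ph b x - c 1) + (b i : ℤ) * (2 * Real.pi) := by
      rw [ph_add, ph_single]; ring
    simp only [Matrix.cons_val_zero, Matrix.cons_val_one, h0, h1, wr_add_int]
  simp only [e]

/-- The functional `x ↦ l · x` as a continuous linear map. -/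
noncomputable def phL (l : Fin 3 → ℤ) : V →L[ℝ] ℝ :=
  ∑ i, (l i : ℝ) • (ContinuousLinearMap.proj i : V →L[ℝ] ℝ)

lemma phL_apply (l : Fin 3 → ℤ) (x : V) : phL l x = ph l x := by
  simp [phL, ph, sum_apply]

/-- The wrapped coordinates at scale `N`. -/
noncomputable def yc (a b : Fin 3 → ℤ) (c : V) (N : ℕ) (x : V) : V := wv c (Lm a b ((N : ℝ) • x))

/-- The affine coordinates at scale `N` which agree with the wrapped ones near `x₀`. -/
noncomputable def zc (a b : Fin 3 → ℤ) (c : V) (N : ℕ) (x₀ x : V) : V :=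
  Lm a b ((N : ℝ) • x) + tau c (Lm a b ((N : ℝ) • x₀))

lemma Lm_continuous (a b : Fin 3 → ℤ) : Continuous (Lm a b) := by
  rw [continuous_pi_iff]
  intro i
  fin_cases i
  · exact (ph_contDiff a).continuous
  · exact (ph_contDiff b).continuous
  · exact continuous_const

lemma near (a b : Fin 3 → ℤ) (c : V) (N : ℕ) (x₀ : V) {δ : ℝ} (hδ : δ ≤ 1) :
    ∀ᶠ x in 𝓝 x₀, ∀ h : V → ℝ, HT δ h → h (yc a b c N x) = h (zc a b c N x₀ x) := by
  have hc : Continuous (fun x : V => Lm a b ((N : ℝ) • x)) :=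
    (Lm_continuous a b).comp (continuous_const_smul (N : ℝ))
  have h1 := (hc.tendsto x₀).eventually (wv_eventually (Lm a b ((N : ℝ) • x₀)))
  filter_upwards [h1] with x hx h hh
  exact wv_near c _ _ hx hδ hh

lemma near_self (a b : Fin 3 → ℤ) (c : V) (N : ℕ) (x : V) {δ : ℝ} {h : V → ℝ} (hh : HT δ h) :
    h (yc a b c N x) = h (zc a b c N x x) :=
  hh.self c _

lemma zc_0 (a b : Fin 3 → ℤ) (c : V) (N : ℕ) (x₀ x : V) :
    zc a b c N x₀ x 0 = N * ph a x + tau c (Lm a b ((N : ℝ) • x₀)) 0 := by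
  simp [zc, Lm, ph_smul]

lemma zc_hasFDerivAt (a b : Fin 3 → ℤ) (c : V) (N : ℕ) (x₀ x : V) :
    HasFDerivAt (zc a b c N x₀) (ContinuousLinearMap.pi
      ![(N : ℝ) • phL a, (N : ℝ) • phL b, 0]) x := by
  rw [hasFDerivAt_pi]
  have hp : ∀ l : Fin 3 → ℤ, HasFDerivAt (fun x : V => ph l ((N : ℝ) • x)) ((N : ℝ) • phL l) x := by
    intro l
    have h : (fun x : V => ph l ((N : ℝ) • x)) = fun x => (N : ℝ) * ph l x := by
      ext x; rw [ph_smul]
    rw [h]
    exact (fderiv_ph l x).const_mul (N : ℝ)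
  intro i
  fin_cases i
  · exact (hp a).add_const (tau c (Lm a b ((N : ℝ) • x₀)) 0)
  · exact (hp b).add_const (tau c (Lm a b ((N : ℝ) • x₀)) 1)
  · exact (hasFDerivAt_const ((0 : ℝ) + tau c (Lm a b ((N : ℝ) • x₀)) 2) x)

/-- The chain rule for functions of the affine coordinates. -/
lemma chain (a b : Fin 3 → ℤ) (c : V) (N : ℕ) (x₀ x : V) {h : V → ℝ} {p q : ℝ}
    (hh : HD h p q (zc a b c N x₀ x)) :
    HasFDerivAt (fun x => h (zc a b c N x₀ x))
      (p • ((N : ℝ) • phL a) + q • ((N : ℝ) • phL b)) x := by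
  unfold HD at hh
  refine (HasFDerivAt.comp x hh (zc_hasFDerivAt a b c N x₀ x)).congr_fderiv ?_
  ext e
  simp

/-- The quadratic form `R = B y₀² + A y₁²`. -/
def qr (A B : ℝ) (y : V) : ℝ := B * y 0 ^ 2 + A * y 1 ^ 2

lemma qr_contDiff (A B : ℝ) {n : WithTop ℕ∞} : ContDiff ℝ n (qr A B) := by
  unfold qr
  exact (contDiff_const.mul ((contDiff_apply ℝ ℝ (0 : Fin 3)).pow 2)).add
    (contDiff_const.mul ((contDiff_apply ℝ ℝ (1 : Fin 3)).pow 2))

lemma qr_hd (A B : ℝ) (y : V) : HD (qr A B) (2 * B * y 0) (2 * A * y 1) y := by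
  have h : HD (fun z => B * (z 0 * z 0) + A * (z 1 * z 1)) (2 * B * y 0) (2 * A * y 1) y := by
    refine ((((HD.x0 y).mul (HD.x0 y)).const_mul B).add
      (((HD.x1 y).mul (HD.x1 y)).const_mul A)).congr ?_ ?_ <;> ring
  have e : qr A B = fun z : V => B * (z 0 * z 0) + A * (z 1 * z 1) := by
    ext z; unfold qr; ring
  rw [e]; exact h

lemma rad_le_qr {A B : ℝ} (hA : 1 ≤ A) (hB : 1 ≤ B) (y : V) : rad y ≤ qr A B y := by
  unfold rad qr
  nlinarith [sq_nonneg (y 0), sq_nonneg (y 1)]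

/-- The cutoff of the swirl. -/
noncomputable def chi (δ R : ℝ) : ℝ := Real.smoothTransition (2 * (δ - R) / δ)

lemma chi_rp {δ : ℝ} (hδ : 0 < δ) : RP δ (chi δ) := by
  refine ⟨?_, fun R hR => ?_⟩
  · exact Real.smoothTransition.contDiff.comp
      ((contDiff_const.mul (contDiff_const.sub contDiff_id)).div_const δ)
  · apply Real.smoothTransition.zero_of_nonpos
    apply div_nonpos_of_nonpos_of_nonneg _ hδ.le
    linarith

lemma chi_one {δ R : ℝ} (hδ : 0 < δ) (hR : R ≤ δ / 2) : chi δ R = 1 := by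
  apply Real.smoothTransition.one_of_one_le
  rw [le_div_iff₀ hδ]
  linarith

lemma chi_mul {δ : ℝ} (hδ : 0 < δ) {k : ℝ → ℝ} (hk : RP (δ / 2) k) (R : ℝ) :
    chi δ R * k R = k R := by
  rcases le_or_gt (δ / 2) R with h | h
  · rw [hk.van R h, mul_zero]
  · rw [chi_one hδ h.le, one_mul]

lemma rp_mono {δ δ' : ℝ} (h : δ ≤ δ') {k : ℝ → ℝ} (hk : RP δ k) : RP δ' k :=
  ⟨hk.smooth, fun R hR => hk.van R (h.trans hR)⟩

/-- functions of the form `f(y₀, y₁) k(R)` vanish outside of the tube -/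
lemma ht_mul {δ A B : ℝ} {k : ℝ → ℝ} (hk : RP δ k) {f : V → ℝ}
    (hA : 1 ≤ A) (hB : 1 ≤ B)
    (hf : ∀ y z : V, y 0 = z 0 → y 1 = z 1 → f y = f z) : HT δ (fun y => f y * k (qr A B y)) := by
  refine ⟨fun y z h0 h1 => ?_, fun y hy => ?_⟩
  · have : qr A B y = qr A B z := by unfold qr; rw [h0, h1]
    simp only [this, hf y z h0 h1]
  · have h1 : rad y ≤ qr A B y := rad_le_qr hA hB y
    rw [hk.van _ (hy.trans h1), mul_zero]

end Pool.Agent.K3h70.EP
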